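import Pool.Agent.Lib.MP_2b9f9a_al.DL.Stmts17

/-!
# Interface for LAMBDA and the root (MP_2b9f9a, all derived lengths)

Paper proof: DL78 (store), sections 4, 5, 6, and the root of helper7 (`D = d - 1`).
-/

set_option autoImplicit false

namespace Pool.Agent.DLB

open Pool.Agent.Lib.MP_2b9f9a_al
open Pool.Agent.DL17

/-- degree, content, open anchors -/
abbrev Idx (Lab : Type) := ℕ × Multiset Lab × Multiset Lab

/-- labels of level `i` in `v` -/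
def atL {Lab : Type} (lv : Lab → ℕ) (v : Finset Lab) (i : ℕ) : Finset Lab :=
  v.filter (fun x => lv x = i)

/-- What the Lie ring `M = Conv p W` of the filtered group delivers.
`F I` : the homogeneous elements of the component `I`; `pf n v`: classes of `A_p(v)[n]` in the
component `(n, v, 0)`; `vf n v lam a` : classes of `A_{p - lam e_a}(v)[n]` in the component
`(n, v, {a})`; `G j I m` : test elements. -/
structure LD {p : ℕ} {M Γ Lab : Type} [LieRing M] [Group Γ] [Fintype Γ] [DecidableEq Lab]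
    (lv pp : Lab → ℕ) (c : ℕ) (τ : Γ →* (ZMod p)ˣ) (σ : Γ →* AddMonoid.End M)
    (F : Idx Lab → Fam (ZMod p) M) (pf : ℕ → Finset Lab → Fam (ZMod p) M)
    (vf : ℕ → Finset Lab → ℕ → Lab → Fam (ZMod p) M)
    (G : ℕ → Idx Lab → ℕ → Set M) : Prop where
  inj : Function.Injective τ
  lvpos : ∀ x, 1 ≤ lv x
  actF : ∀ I, Act τ σ (F I)
  actp : ∀ n v, Act τ σ (pf n v)
  actv : ∀ n v lam a, Act τ σ (vf n v lam a)
  zero : ∀ I, ∀ x ∈ F I 0, x = 0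
  /-- a label occurs twice -/
  top : ∀ n (v w : Multiset Lab), ¬ v.Nodup → ∀ a, ∀ x ∈ F (n, v, w) a, x = 0
  lie : ∀ I J a b x y, x ∈ F I a → y ∈ F J b → ⁅x, y⁆ ∈ F (I + J) (a + b)
  pfF : ∀ n v, pf n v ≤ F (n, v.val, 0)
  vfF : ∀ n v lam a, a ∈ v → lam ≤ c → vf n v lam a ≤ F (n, v.val, {a})
  ppl : ∀ n v n' v' a b x y, Disjoint v v' → x ∈ pf n v a → y ∈ pf n' v' b →
    ⁅x, y⁆ ∈ pf (n + n') (v ∪ v') (a + b)
  vpl : ∀ n v n' v' lam l a b x y, Disjoint v v' → l ∈ v → lam ≤ c → x ∈ vf n v lam l a →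
    y ∈ pf n' v' b → ⁅x, y⁆ ∈ vf (n + n') (v ∪ v') lam l (a + b)
  /-- closing of the anchor (F5, O3) -/
  nu : ∀ n v a, a ∈ v → lv a = v.sup lv → (∀ x ∈ v, lv x = lv a → pp x ≤ pp a) →
    (∀ b, ∀ u ∈ pf n v b, u = 0) ∨ ∃ ν : M →+ M,
      (∀ I, I ≠ (n, v.val, {a}) → ∀ b, ∀ x ∈ F I b, ν x = 0) ∧
      (∀ b, ∀ x ∈ F (n, v.val, {a}) b, ν x ∈ F (n, v.val, 0) b) ∧
      (∀ g x, ν (σ g x) = σ g (ν x)) ∧
      (∀ b, ∀ u ∈ pf n v b, ∃ u' ∈ vf n v 0 a b, ν u' = u) ∧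
      (∀ j m, ∀ x ∈ G j (n, v.val, {a}) m, ν x ∈ G j (n, v.val, 0) m)
  /-- traces are test elements -/
  t0 : ∀ I a, ∀ y ∈ F I a, tr σ y ∈ G 0 I (Fintype.card Γ)
  t1 : ∀ j I m I' m', ∀ x ∈ G j I m, ∀ y ∈ G j I' m', ⁅x, y⁆ ∈ G (j + 1) (I + I') (m * m')
  t2 : ∀ j I m I' m', ∀ x ∈ G j I m, ∀ y ∈ G 0 I' m', ⁅x, y⁆ ∈ G j (I + I') (m * m')
  tmono : ∀ j I m m', m ≤ m' → G j I m ⊆ G j I m'
  tsum : ∀ j I m, ∀ x ∈ G j I m, ∃ l : List (ZMod p × M), l.length ≤ m ∧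
    (∀ q ∈ l, q.2 ∈ F I q.1) ∧ x = (l.map Prod.snd).sum
  /-- the projection to one weight of one component -/
  prj : ∀ I b, ∃ (V : Type) (_ : AddCommGroup V) (κ : M →+ V),
    (∀ I', I' ≠ I → ∀ b', ∀ x ∈ F I' b', κ x = 0) ∧
    (∀ b', b' ≠ b → ∀ x ∈ F I b', κ x = 0) ∧ (∀ x ∈ F I b, κ x = 0 → x = 0)
  /-- a tree with at least two blocks is a commutator of two trees -/
  gA : ∀ n v lam a, a ∈ v → lv a = v.sup lv → 2 ≤ (atL lv v (v.sup lv)).card → lam ≤ c →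
    ∀ b, vf n v lam a b ≤ ⨆ q : {q : (ℕ × Finset Lab) × (ℕ × Finset Lab) //
        q.1.1 + q.2.1 = n ∧ Disjoint q.1.2 q.2.2 ∧ q.1.2 ∪ q.2.2 = v ∧
        q.1.2.sup lv = v.sup lv ∧ q.2.2.sup lv = v.sup lv ∧ a ∈ q.1.2},
      br (vf q.1.1.1 q.1.1.2 lam a) (pf q.1.2.1 q.1.2.2) b
  gA' : ∀ n v, 2 ≤ (atL lv v (v.sup lv)).card → 1 ≤ v.sup lv →
    ∀ b, pf n v b ≤ ⨆ q : {q : (ℕ × Finset Lab) × (ℕ × Finset Lab) //
        q.1.1 + q.2.1 = n ∧ Disjoint q.1.2 q.2.2 ∧ q.1.2 ∪ q.2.2 = v ∧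
        q.1.2.sup lv = v.sup lv ∧ q.2.2.sup lv = v.sup lv},
      br (pf q.1.1.1 q.1.1.2) (pf q.1.2.1 q.1.2.2) b
  /-- a single block `a` with at least two children is the commutator of a block `a` with
  one child less and of one child (of level `lv a - 1`) -/
  gB : ∀ n v lam a, a ∈ v → lv a = v.sup lv → atL lv v (v.sup lv) = {a} → lam + 1 ≤ c →
    c < pp a →
    ∀ b, vf n v lam a b ≤ ⨆ q : {q : (ℕ × Finset Lab) × (ℕ × Finset Lab) //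
        q.1.1 + q.2.1 = n ∧ Disjoint q.1.2 q.2.2 ∧ q.1.2 ∪ q.2.2 = v ∧
        q.1.2.sup lv = v.sup lv ∧ a ∈ q.1.2 ∧ q.2.2.sup lv = v.sup lv - 1},
      br (vf q.1.1.1 q.1.1.2 (lam + 1) a) (pf q.1.2.1 q.1.2.2) b

/-- The abstract theorem (LAMBDA and root): if there are no test elements of level `D + 1`, and
there are enough blocks of level `D`, then the classes vanish. -/
def StLam : Prop := ∀ h D : ℕ, 1 ≤ D → ∃ c₀ R₀ : ℕ, ∀ (p : ℕ) [Fact p.Prime] (M Γ Lab : Type)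
  [LieRing M] [Group Γ] [Fintype Γ] [DecidableEq Lab] (lv pp : Lab → ℕ) (c : ℕ)
  (τ : Γ →* (ZMod p)ˣ) (σ : Γ →* AddMonoid.End M)
  (F : Idx Lab → Fam (ZMod p) M) (pf : ℕ → Finset Lab → Fam (ZMod p) M)
  (vf : ℕ → Finset Lab → ℕ → Lab → Fam (ZMod p) M) (G : ℕ → Idx Lab → ℕ → Set M),
  Fintype.card Γ = h → c₀ ≤ c → (∀ x, c < pp x) → LD lv pp c τ σ F pf vf G →
  (∀ I m, ∀ x ∈ G (D + 1) I m, x = 0) →
  ∀ n v a, v.sup lv = D → a ∈ v → lv a = D → R₀ < (atL lv v D).card →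
  ∀ b, ∀ x ∈ vf n v 0 a b, x = 0

/-- LemmaA (section 5). -/
def StLemA : Prop := ∀ h N r : ℕ, ∃ q : ℕ, ∀ (p : ℕ) [Fact p.Prime] (M V Γ Lab : Type)
  [LieRing M] [AddCommGroup V] [Group Γ] [Fintype Γ] [DecidableEq Lab] (S : Finset (ZMod p))
  (τ : Γ →* (ZMod p)ˣ) (σ : Γ →* AddMonoid.End M) (X : Finset Lab → Fam (ZMod p) M)
  (κ : M →+ V) (R : Finset Lab) (l₀ : Lab),
  Fintype.card Γ = h → S.card ≤ N → R.card ≤ r → l₀ ∈ R → Function.Injective τ →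
  (∀ J, J ⊆ R → Act τ σ (X J)) → (∀ J, J ⊆ R → ∀ x ∈ X J 0, x = 0) →
  (∀ I J, I ⊆ R → J ⊆ R → Disjoint I J → ∀ a b x y, x ∈ X I a → y ∈ X J b →
    ⁅x, y⁆ ∈ X (I ∪ J) (a + b)) →
  (∀ a, a ∉ S → ∀ x ∈ X R a, κ x = 0) →
  (∀ a b x u, x ∈ X R a → u ∈ X ∅ b → κ ⁅x, tr σ u⁆ = 0) →
  (∀ I J, I ∪ J = R → Disjoint I J → l₀ ∈ I → J.Nonempty → ∀ a b x z, x ∈ X I a → z ∈ X J b →
    κ ⁅x, tr σ z⁆ = 0) →
  ∀ l : List (Finset Lab × ZMod p × M), (∀ e ∈ l, e.1.Nonempty ∧ e.2.2 ∈ X e.1 e.2.1) →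
    (l.map fun e => e.1.val).sum + {l₀} = R.val →
    ∀ b, ∀ ξ ∈ iter (X {l₀}) (X ∅) q b, κ (l.foldl (fun x e => ⁅x, e.2.2⁆) ξ) = 0

end Pool.Agent.DLB
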