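import Mathlib

/-!
DL78, section 2 (domains), the pure combinatorics: bounds `t : L → ℕ` on a set of labels with
levels `lv`, the base bound `p`, the open domains `OD`, the convex domain `DOM`, and the
statements (O1), (O2), the arithmetic of (O3), (O4).  No group occurs in this file.
-/

namespace DL78

open Finset

variable {L : Type*} [DecidableEq L]

/-- the labels of level `i` in `v` -/
def atL (lv : L → ℕ) (v : Finset L) (i : ℕ) : Finset L := v.filter (fun x => lv x = i)

/-- the open domain with open anchors `w` -/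
def OD (lv p : L → ℕ) (c : ℕ) (v w : Finset L) : Set (L → ℕ) :=
  {t | (∀ x ∈ v, p x ≤ t x + c) ∧
    ∀ i th : ℕ, Disjoint ((atL lv v i).filter (fun x => p x ≤ th)) w →
      ∑ x ∈ (atL lv v i).filter (fun x => p x ≤ th), p x ≤
        ∑ x ∈ (atL lv v i).filter (fun x => p x ≤ th), t x}

/-- the barrier -/
def rho (m E j : ℕ) : ℕ := j * m + E * j.choose 2

/-- the convex domain -/
def DOM (lv : L → ℕ) (m : ℕ) (E : ℕ → ℕ) (Lab : Finset L) : Set (L → ℕ) :=
  {t | ∀ l : ℕ, ∀ K : Finset L, K ⊆ atL lv Lab l → rho m (E l) K.card ≤ ∑ x ∈ K, t x}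

/-- `t` on `v`, `s` outside -/
def glue (v : Finset L) (t s : L → ℕ) : L → ℕ := fun x => if x ∈ v then t x else s x

theorem mem_atL {lv : L → ℕ} {v : Finset L} {i : ℕ} {x : L} :
    x ∈ atL lv v i ↔ x ∈ v ∧ lv x = i := by
  simp [atL]

theorem atL_subset (lv : L → ℕ) (v : Finset L) (i : ℕ) : atL lv v i ⊆ v :=
  Finset.filter_subset _ _

theorem atL_mono (lv : L → ℕ) {v v' : Finset L} (h : v ⊆ v') (i : ℕ) :
    atL lv v i ⊆ atL lv v' i :=
  Finset.filter_subset_filter _ h

theorem atL_union (lv : L → ℕ) (v v' : Finset L) (i : ℕ) :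
    atL lv (v ∪ v') i = atL lv v i ∪ atL lv v' i :=
  Finset.filter_union _ _ _

theorem atL_disj {lv : L → ℕ} {v v' : Finset L} (h : Disjoint v v') (i : ℕ) :
    Disjoint (atL lv v i) (atL lv v' i) :=
  Finset.disjoint_of_subset_left (atL_subset lv v i)
    (Finset.disjoint_of_subset_right (atL_subset lv v' i) h)

@[simp] theorem glue_mem {v : Finset L} {t s : L → ℕ} {x : L} (h : x ∈ v) :
    glue v t s x = t x := by
  simp [glue, h]

@[simp] theorem glue_not_mem {v : Finset L} {t s : L → ℕ} {x : L} (h : x ∉ v) :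
    glue v t s x = s x := by
  simp [glue, h]

/-- (O1) closed upwards, and only the values on `v` matter -/
theorem OD_mono {lv p : L → ℕ} {c : ℕ} {v w : Finset L} {t t' : L → ℕ}
    (ht : t ∈ OD lv p c v w) (h : ∀ x ∈ v, t x ≤ t' x) : t' ∈ OD lv p c v w := by
  refine ⟨fun x hx => le_trans (ht.1 x hx) (Nat.add_le_add_right (h x hx) c), ?_⟩
  intro i th hd
  refine le_trans (ht.2 i th hd) (Finset.sum_le_sum ?_)
  intro x hx
  exact h x (atL_subset lv v i (Finset.mem_filter.1 hx).1)

theorem OD_congr {lv p : L → ℕ} {c : ℕ} {v w : Finset L} {t t' : L → ℕ}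
    (h : ∀ x ∈ v, t x = t' x) : t ∈ OD lv p c v w ↔ t' ∈ OD lv p c v w :=
  ⟨fun ht => OD_mono ht (fun x hx => (h x hx).le),
    fun ht => OD_mono ht (fun x hx => (h x hx).ge)⟩

/-- more open anchors: a larger domain -/
theorem OD_open {lv p : L → ℕ} {c : ℕ} {v w w' : Finset L} (h : w ⊆ w') :
    OD lv p c v w ⊆ OD lv p c v w' := by
  intro t ht
  exact ⟨ht.1, fun i th hd => ht.2 i th (Finset.disjoint_of_subset_right h hd)⟩

theorem filt_union (lv p : L → ℕ) (v v' : Finset L) (i th : ℕ) :
    (atL lv (v ∪ v') i).filter (fun x => p x ≤ th) =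
      (atL lv v i).filter (fun x => p x ≤ th) ∪ (atL lv v' i).filter (fun x => p x ≤ th) := by
  rw [atL_union, Finset.filter_union]

/-- (O1) additive, the same bound on both sides -/
theorem OD_union {lv p : L → ℕ} {c : ℕ} {v v' w w' : Finset L} {t : L → ℕ}
    (hv : Disjoint v v') (h : t ∈ OD lv p c v w) (h' : t ∈ OD lv p c v' w') :
    t ∈ OD lv p c (v ∪ v') (w ∪ w') := by
  refine ⟨?_, ?_⟩
  · intro x hx
    rcases Finset.mem_union.1 hx with hx | hx
    · exact h.1 x hx
    · exact h'.1 x hx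
  · intro i th hd
    rw [filt_union] at hd ⊢
    have hdd : Disjoint ((atL lv v i).filter (fun x => p x ≤ th))
        ((atL lv v' i).filter (fun x => p x ≤ th)) :=
      Finset.disjoint_of_subset_left (Finset.filter_subset _ _)
        (Finset.disjoint_of_subset_right (Finset.filter_subset _ _) (atL_disj hv i))
    rw [Finset.sum_union hdd, Finset.sum_union hdd]
    refine Nat.add_le_add (h.2 i th ?_) (h'.2 i th ?_)
    · exact Finset.disjoint_of_subset_left Finset.subset_union_left
        (Finset.disjoint_of_subset_right Finset.subset_union_left hd)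
    · exact Finset.disjoint_of_subset_left Finset.subset_union_right
        (Finset.disjoint_of_subset_right Finset.subset_union_right hd)

/-- (O1) additive, glued bound -/
theorem OD_glue {lv p : L → ℕ} {c : ℕ} {v v' w w' : Finset L} {t t' : L → ℕ}
    (hv : Disjoint v v') (h : t ∈ OD lv p c v w) (h' : t' ∈ OD lv p c v' w') :
    glue v t t' ∈ OD lv p c (v ∪ v') (w ∪ w') := by
  refine OD_union hv ((OD_congr ?_).2 h) ((OD_congr ?_).2 h')
  · intro x hx; exact glue_mem hx
  · intro x hx
    exact glue_not_mem (fun hx' => (Finset.disjoint_left.1 hv hx' hx))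

/-- (O2) the base point -/
theorem OD_base (lv p : L → ℕ) (c : ℕ) (v w : Finset L) : p ∈ OD lv p c v w :=
  ⟨fun x _ => Nat.le_add_right _ _, fun _ _ _ => le_rfl⟩

/-- the base point and everything above it -/
theorem OD_of_le {lv p : L → ℕ} {c : ℕ} {v w : Finset L} {t : L → ℕ}
    (h : ∀ x ∈ v, p x ≤ t x) : t ∈ OD lv p c v w :=
  OD_mono (OD_base lv p c v w) h

/-- (O2) one open anchor lowered by `lam ≤ c` -/
theorem OD_anchor (lv p : L → ℕ) {c lam : ℕ} (hlam : lam ≤ c) (v w : Finset L) {a : L}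
    (ha : a ∈ w) : Function.update p a (p a - lam) ∈ OD lv p c v w := by
  refine ⟨?_, ?_⟩
  · intro x _
    by_cases hx : x = a
    · subst hx
      rw [Function.update_self]
      omega
    · rw [Function.update_of_ne hx]
      omega
  · intro i th hd
    refine Finset.sum_le_sum ?_
    intro x hx
    have hxa : x ≠ a := by
      rintro rfl
      exact Finset.disjoint_left.1 hd hx ha
    rw [Function.update_of_ne hxa]

/-- the operator `up a`: a new open anchor `a` of bound `p a - lam` on top of `v` -/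
theorem OD_up {lv p : L → ℕ} {c lam : ℕ} (hlam : lam ≤ c) {v w : Finset L} {a : L}
    (ha : a ∉ v) {t : L → ℕ} (ht : t ∈ OD lv p c v w) :
    Function.update t a (p a - lam) ∈ OD lv p c (insert a v) (insert a w) := by
  have h1 : Function.update t a (p a - lam) ∈ OD lv p c {a} {a} := by
    have h0 := OD_anchor lv p hlam {a} {a} (Finset.mem_singleton_self a)
    refine (OD_congr ?_).1 h0
    intro x hx
    rw [Finset.mem_singleton] at hx
    subst hx
    rw [Function.update_self, Function.update_self]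
  have h2 : Function.update t a (p a - lam) ∈ OD lv p c v w := by
    refine (OD_congr ?_).2 ht
    intro x hx
    have hxa : x ≠ a := by
      rintro rfl
      exact ha hx
    rw [Function.update_of_ne hxa]
  have h3 := OD_union (Finset.disjoint_singleton_left.2 ha) h1 h2
  rwa [← Finset.insert_eq, ← Finset.insert_eq] at h3

/-- a bound in the open domain of `v`, extended by `p` outside -/
theorem OD_ext {lv p : L → ℕ} {c : ℕ} {v u w : Finset L} (hvu : v ⊆ u) {t : L → ℕ}
    (ht : t ∈ OD lv p c v w) : glue v t p ∈ OD lv p c u w := by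
  have h := OD_glue (v' := u \ v) (w' := ∅) Finset.disjoint_sdiff ht
    (OD_base lv p c (u \ v) ∅)
  rwa [Finset.union_sdiff_of_subset hvu, Finset.union_empty] at h

/-- (O3), arithmetic: closing the anchor `a`, the largest value of `p` on its level -/
theorem OD_close {lv p : L → ℕ} {c : ℕ} {v w : Finset L} {t t' : L → ℕ} {a : L}
    (hmax : ∀ x ∈ atL lv v (lv a), p x ≤ p a)
    (ht : t ∈ OD lv p c v (insert a w)) (htt : ∀ x ∈ v, t x ≤ t' x)
    (hsum : ∑ x ∈ atL lv v (lv a), p x ≤ ∑ x ∈ atL lv v (lv a), t' x) :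
    t' ∈ OD lv p c v w := by
  have ht' : t' ∈ OD lv p c v (insert a w) := OD_mono ht htt
  refine ⟨ht'.1, ?_⟩
  intro i th hd
  by_cases haK : a ∈ (atL lv v i).filter (fun x => p x ≤ th)
  · obtain ⟨ha1, ha2⟩ := Finset.mem_filter.1 haK
    have hi : lv a = i := (mem_atL.1 ha1).2
    subst hi
    have hK : (atL lv v (lv a)).filter (fun x => p x ≤ th) = atL lv v (lv a) := by
      refine Finset.filter_true_of_mem ?_
      intro x hx
      exact le_trans (hmax x hx) ha2
    rw [hK]
    exact hsum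
  · refine ht'.2 i th ?_
    rw [Finset.disjoint_insert_right]
    exact ⟨haK, hd⟩

/-! ### the convex domain -/

theorem rho_zero (m E : ℕ) : rho m E 0 = 0 := by simp [rho]

theorem rho_one (m E : ℕ) : rho m E 1 = m := by simp [rho]

/-- the second difference of the barrier is `E` -/
theorem rho_diff (m E j : ℕ) :
    rho m E (j + 2) + rho m E j = 2 * rho m E (j + 1) + E := by
  unfold rho
  have h1 : (j + 1).choose 2 = j.choose 1 + j.choose 2 := rfl
  have h2 : (j + 2).choose 2 = (j + 1).choose 1 + (j + 1).choose 2 := rfl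
  rw [h2, h1, Nat.choose_one_right, Nat.choose_one_right]
  ring

theorem DOM_mono {lv : L → ℕ} {m : ℕ} {E : ℕ → ℕ} {Lab : Finset L} {t t' : L → ℕ}
    (ht : t ∈ DOM lv m E Lab) (h : ∀ x ∈ Lab, t x ≤ t' x) : t' ∈ DOM lv m E Lab := by
  intro l K hK
  refine le_trans (ht l K hK) (Finset.sum_le_sum ?_)
  intro x hx
  exact h x (atL_subset lv Lab l (hK hx))

theorem DOM_congr {lv : L → ℕ} {m : ℕ} {E : ℕ → ℕ} {Lab : Finset L} {t t' : L → ℕ}
    (h : ∀ x ∈ Lab, t x = t' x) : t ∈ DOM lv m E Lab ↔ t' ∈ DOM lv m E Lab :=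
  ⟨fun ht => DOM_mono ht (fun x hx => (h x hx).le),
    fun ht => DOM_mono ht (fun x hx => (h x hx).ge)⟩

/-- every value of a bound in the convex domain is at least `m` -/
theorem DOM_ge {lv : L → ℕ} {m : ℕ} {E : ℕ → ℕ} {Lab : Finset L} {t : L → ℕ}
    (ht : t ∈ DOM lv m E Lab) {x : L} (hx : x ∈ Lab) : m ≤ t x := by
  have h := ht (lv x) {x} (Finset.singleton_subset_iff.2 (mem_atL.2 ⟨hx, rfl⟩))
  rwa [Finset.card_singleton, rho_one, Finset.sum_singleton] at h

/-- large constants lie in the convex domain -/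
theorem DOM_const {lv : L → ℕ} {m : ℕ} {E : ℕ → ℕ} {Lab : Finset L} {t : L → ℕ}
    (h : ∀ x ∈ Lab, m + E (lv x) * (atL lv Lab (lv x)).card ≤ t x) :
    t ∈ DOM lv m E Lab := by
  intro l K hK
  have h1 : ∀ x ∈ K, m + E l * (atL lv Lab l).card ≤ t x := by
    intro x hx
    have hx' := mem_atL.1 (hK hx)
    have := h x hx'.1
    rwa [hx'.2] at this
  have h2 : K.card * (m + E l * (atL lv Lab l).card) ≤ ∑ x ∈ K, t x := by
    have := Finset.card_nsmul_le_sum K t (m + E l * (atL lv Lab l).card) h1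
    rwa [smul_eq_mul] at this
  refine le_trans ?_ h2
  have h3 : K.card ≤ (atL lv Lab l).card := Finset.card_le_card hK
  have h4 : K.card.choose 2 ≤ K.card * (atL lv Lab l).card := by
    rw [Nat.choose_two_right]
    refine le_trans (Nat.div_le_self _ _) (Nat.mul_le_mul_left _ ?_)
    omega
  unfold rho
  calc K.card * m + E l * K.card.choose 2
      ≤ K.card * m + E l * (K.card * (atL lv Lab l).card) :=
        Nat.add_le_add_left (Nat.mul_le_mul_left _ h4) _
    _ = K.card * (m + E l * (atL lv Lab l).card) := by ring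

/-- (O4) the convex barrier: a bound in the open domain of the base point lies in the convex
domain again -/
theorem OD_sub_DOM {lv p : L → ℕ} {c m : ℕ} {E : ℕ → ℕ} {Lab : Finset L}
    (hp : p ∈ DOM lv m E Lab) (hE : ∀ l, 2 * (c * (atL lv Lab l).card) ≤ E l)
    {t : L → ℕ} (ht : t ∈ OD lv p c Lab ∅) : t ∈ DOM lv m E Lab := by
  intro l K hK
  rcases K.eq_empty_or_nonempty with rfl | hne
  · rw [Finset.card_empty, rho_zero]
    exact Nat.zero_le _
  obtain ⟨a, haK, hamax⟩ := Finset.exists_max_image K p hne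
  by_cases hx : ∃ x ∈ (atL lv Lab l).filter (fun x => p x ≤ p a), x ∉ K
  · obtain ⟨x, hx1, hx2⟩ := hx
    obtain ⟨hx3, hx4⟩ := Finset.mem_filter.1 hx1
    have hcp : 0 < K.card := Finset.card_pos.2 hne
    obtain ⟨j, hj⟩ : ∃ j, K.card = j + 1 := ⟨K.card - 1, by omega⟩
    have h1 := hp l (insert x K) (Finset.insert_subset hx3 hK)
    rw [Finset.card_insert_of_notMem hx2, Finset.sum_insert hx2, hj] at h1
    have h2 := hp l (K.erase a) ((Finset.erase_subset a K).trans hK)
    rw [Finset.card_erase_of_mem haK, hj, Nat.add_sub_cancel] at h2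
    have h3 : ∑ y ∈ K.erase a, p y + p a = ∑ y ∈ K, p y := Finset.sum_erase_add K p haK
    have h4 := rho_diff m (E l) j
    have h5 := hE l
    have h6 : c * K.card ≤ c * (atL lv Lab l).card :=
      Nat.mul_le_mul_left _ (Finset.card_le_card hK)
    have h7 : ∑ y ∈ K, p y ≤ ∑ y ∈ K, t y + c * K.card := by
      calc ∑ y ∈ K, p y ≤ ∑ y ∈ K, (t y + c) :=
            Finset.sum_le_sum (fun y hy => ht.1 y (atL_subset lv Lab l (hK hy)))
        _ = ∑ y ∈ K, t y + c * K.card := by
            rw [Finset.sum_add_distrib, Finset.sum_const, smul_eq_mul, mul_comm c]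
    rw [hj]
    rw [hj] at h6 h7
    have h1' : rho m (E l) (j + 2) ≤ p x + ∑ y ∈ K, p y := h1
    omega
  · have hKe : K = (atL lv Lab l).filter (fun x => p x ≤ p a) := by
      refine Finset.Subset.antisymm ?_ ?_
      · intro y hy
        exact Finset.mem_filter.2 ⟨hK hy, hamax y hy⟩
      · intro y hy
        by_contra hy'
        exact hx ⟨y, hy, hy'⟩
    have h1 := ht.2 l (p a) (Finset.disjoint_empty_right _)
    rw [← hKe] at h1
    exact le_trans (hp l K hK) h1

/-- (O4), with `p` outside of `v` -/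
theorem OD_ext_DOM {lv p : L → ℕ} {c m : ℕ} {E : ℕ → ℕ} {Lab v : Finset L}
    (hp : p ∈ DOM lv m E Lab) (hE : ∀ l, 2 * (c * (atL lv Lab l).card) ≤ E l) (hv : v ⊆ Lab)
    {t : L → ℕ} (ht : t ∈ OD lv p c v ∅) : glue v t p ∈ DOM lv m E Lab :=
  OD_sub_DOM hp hE (OD_ext hv ht)

/-- (O4), two disjoint parts -/
theorem OD_ext2_DOM {lv p : L → ℕ} {c m : ℕ} {E : ℕ → ℕ} {Lab v v' : Finset L}
    (hp : p ∈ DOM lv m E Lab) (hE : ∀ l, 2 * (c * (atL lv Lab l).card) ≤ E l) (hv : v ⊆ Lab)
    (hv' : v' ⊆ Lab) (hd : Disjoint v v')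
    {t t' : L → ℕ} (ht : t ∈ OD lv p c v ∅) (ht' : t' ∈ OD lv p c v' ∅) :
    glue (v ∪ v') (glue v t t') p ∈ DOM lv m E Lab := by
  refine OD_ext_DOM hp hE (Finset.union_subset hv hv') ?_
  have h := OD_glue hd ht ht'
  rwa [Finset.union_empty] at h

end DL78
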