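import Pool.Agent.Lib.MP_2b9f9a_al.DL.MF_12
import Pool.Agent.Lib.MP_2b9f9a_al.DLB.Dom_77

/-!
# DL78, section 1: labelled blocks, families (F1) - (F5), and the families `F(n, v, w)`.  helper43
-/

set_option autoImplicit false

namespace DL78

open Pool.Agent.PX (lc)

section defs

variable {G L : Type} [Group G] [DecidableEq L]

/-- Types of commutator subgroups with labelled blocks. -/
inductive WT (lv t : L → ℕ) : Finset L → ℕ → Subgroup G → Prop
  | nil (n : ℕ) : WT lv t ∅ n (lc G n)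
  | lett (l : L) (n : ℕ) (h1 : lv l = 1) (h2 : t l ≤ n) : WT lv t {l} n (lc G n)
  | up (l : L) (v : Finset L) (n : ℕ) (K : Subgroup G) (h : WT lv t v n K)
      (h1 : ∀ x ∈ v, lv x < lv l) (h2 : 1 ≤ (atL lv v (lv l - 1)).card)
      (h3 : t l ≤ (atL lv v (lv l - 1)).card) : WT lv t (insert l v) n K
  | br (v v' : Finset L) (n n' : ℕ) (K K' : Subgroup G) (h : WT lv t v n K)
      (h' : WT lv t v' n' K') (h1 : Disjoint v v') (h2 : v.sup lv = v'.sup lv)
      (h3 : 1 ≤ v.sup lv) : WT lv t (v ∪ v') (n + n') ⁅K, K'⁆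

/-- The family `A_t(v)[n]`. -/
def Afam (G : Type) [Group G] (lv t : L → ℕ) (v : Finset L) (n : ℕ) : Subgroup G :=
  sSup {K | ∃ n', n ≤ n' ∧ WT lv t v n' K}

/-- The family `F(n, v, w)`. -/
def Ffam (G : Type) [Group G] (lv p : L → ℕ) (c n : ℕ) (v w : Finset L) : Subgroup G :=
  sSup {K | ∃ t ∈ OD lv p c v w, ∃ n', n ≤ n' ∧ WT lv t v n' K}

end defs

namespace Ty43

variable {G L : Type} [Group G] [DecidableEq L] {lv t : L → ℕ}

theorem WT.normal {v : Finset L} {n : ℕ} {K : Subgroup G} (h : WT lv t v n K) : K.Normal := by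
  induction h with
  | nil n => exact Pool.Agent.PX.Sol49.lc_normal n
  | lett l n h1 h2 => exact Pool.Agent.PX.Sol49.lc_normal n
  | up l v n K h h1 h2 h3 ih => exact ih
  | br v v' n n' K K' h h' h1 h2 h3 ih ih' =>
    have := ih
    have := ih'
    infer_instance

theorem WT.map {v : Finset L} {n : ℕ} {K : Subgroup G} (h : WT lv t v n K) (f : G →* G) :
    K.map f ≤ K := by
  induction h with
  | nil n => exact Pool.Agent.PX.Sol49.lc_map f n
  | lett l n h1 h2 => exact Pool.Agent.PX.Sol49.lc_map f n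
  | up l v n K h h1 h2 h3 ih => exact ih
  | br v v' n n' K K' h h' h1 h2 h3 ih ih' =>
    rw [Subgroup.map_commutator]
    exact Subgroup.commutator_mono ih ih'

theorem WT.le_lc {v : Finset L} {n : ℕ} {K : Subgroup G} (h : WT lv t v n K) : K ≤ lc G n := by
  induction h with
  | nil n => exact le_rfl
  | lett l n h1 h2 => exact le_rfl
  | up l v n K h h1 h2 h3 ih => exact ih
  | br v v' n n' K K' h h' h1 h2 h3 ih ih' =>
    exact (Subgroup.commutator_mono ih ih').trans (Pool.Agent.DL17.MF12.lc_add n n')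

theorem WT.mono {v : Finset L} {n : ℕ} {K : Subgroup G} (h : WT lv t v n K) {s : L → ℕ}
    (hs : ∀ x ∈ v, s x ≤ t x) : WT lv s v n K := by
  induction h with
  | nil n => exact .nil n
  | lett l n h1 h2 => exact .lett l n h1 ((hs l (by simp)).trans h2)
  | up l v n K h h1 h2 h3 ih =>
    exact .up l v n K (ih fun x hx => hs x (by simp [hx])) h1 h2 ((hs l (by simp)).trans h3)
  | br v v' n n' K K' h h' h1 h2 h3 ih ih' =>
    exact .br v v' n n' K K' (ih fun x hx => hs x (by simp [hx]))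
      (ih' fun x hx => hs x (by simp [hx])) h1 h2 h3

theorem WT.empty {v : Finset L} {n : ℕ} {K : Subgroup G} (h : WT lv t v n K) (hv : v = ∅) :
    K = lc G n := by
  induction h with
  | nil n => rfl
  | lett l n h1 h2 => rfl
  | up l v n K h h1 h2 h3 ih => simp at hv
  | br v v' n n' K K' h h' h1 h2 h3 ih ih' =>
    rw [Finset.union_eq_empty] at hv
    rw [hv.1] at h3
    simp at h3

theorem le_Afam {v : Finset L} {n n' : ℕ} {K : Subgroup G} (h : WT lv t v n' K) (hn : n ≤ n') :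
    K ≤ Afam G lv t v n := le_sSup ⟨n', hn, h⟩

theorem Afam_le {v : Finset L} {n : ℕ} {M : Subgroup G}
    (h : ∀ n' K, n ≤ n' → WT lv t v n' K → K ≤ M) : Afam G lv t v n ≤ M :=
  sSup_le fun K ⟨n', hn, hK⟩ => h n' K hn hK

theorem sSup_normal {S : Set (Subgroup G)} (h : ∀ K ∈ S, K.Normal) : (sSup S).Normal := by
  rw [sSup_eq_iSup']
  refine ⟨fun x hx g => ?_⟩
  have key : (⨆ a : S, (a : Subgroup G)).map (MulAut.conj g).toMonoidHom ≤
      ⨆ a : S, (a : Subgroup G) := by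
    rw [Subgroup.map_iSup]
    refine iSup_le fun a => le_trans ?_ (le_iSup (fun a : S => (a : Subgroup G)) a)
    rintro _ ⟨y, hy, rfl⟩
    exact (h a a.2).conj_mem y hy g
  exact key ⟨x, hx, rfl⟩

theorem sSup_map {S : Set (Subgroup G)} (f : G →* G) (h : ∀ K ∈ S, K.map f ≤ K) :
    (sSup S).map f ≤ sSup S := by
  rw [sSup_eq_iSup', Subgroup.map_iSup]
  exact iSup_le fun a => (h a a.2).trans (le_iSup (fun a : S => (a : Subgroup G)) a)

instance Afam_normal (v : Finset L) (n : ℕ) : (Afam G lv t v n).Normal :=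
  sSup_normal fun _ ⟨_, _, h⟩ => WT.normal h

theorem Afam_map (v : Finset L) (n : ℕ) (f : G →* G) : (Afam G lv t v n).map f ≤ Afam G lv t v n :=
  sSup_map f fun _ ⟨_, _, h⟩ => WT.map h f

theorem Afam_act {Γ : Type} [Group Γ] [MulDistribMulAction Γ G] (v : Finset L) (n : ℕ) (γ : Γ)
    {g : G} (hg : g ∈ Afam G lv t v n) : γ • g ∈ Afam G lv t v n :=
  Afam_map v n (MulDistribMulAction.toMonoidHom G γ) ⟨g, hg, rfl⟩

theorem Afam_le_lc (v : Finset L) (n : ℕ) : Afam G lv t v n ≤ lc G n :=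
  Afam_le fun _ _ hn h => (WT.le_lc h).trans (Pool.Agent.DL17.MF12.lc_anti hn)

theorem Afam_anti (v : Finset L) {n n' : ℕ} (h : n ≤ n') : Afam G lv t v n' ≤ Afam G lv t v n :=
  Afam_le fun _ _ hn hK => le_Afam hK (h.trans hn)

theorem Afam_mono (v : Finset L) (n : ℕ) {s : L → ℕ} (hs : ∀ x ∈ v, s x ≤ t x) :
    Afam G lv t v n ≤ Afam G lv s v n :=
  Afam_le fun _ _ hn hK => le_Afam (WT.mono hK hs) hn

theorem sSup_comm {S : Set (Subgroup G)} {M N : Subgroup G} [N.Normal]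
    (h : ∀ K ∈ S, ⁅K, M⁆ ≤ N) : ⁅sSup S, M⁆ ≤ N := by
  rw [sSup_eq_iSup']
  exact Pool.Agent.DL17.MF12.sup_comm _ _ _ fun i => h i i.2

theorem sSup_comm₂ {S T : Set (Subgroup G)} {N : Subgroup G} [N.Normal]
    (h : ∀ K ∈ S, ∀ K' ∈ T, ⁅K, K'⁆ ≤ N) : ⁅sSup S, sSup T⁆ ≤ N := by
  refine sSup_comm fun K hK => ?_
  rw [Subgroup.commutator_comm]
  refine sSup_comm fun K' hK' => ?_
  rw [Subgroup.commutator_comm]
  exact h K hK K' hK'

theorem sup_zero (hlv : ∀ x, 1 ≤ lv x) {v : Finset L} (h : v.sup lv = 0) : v = ∅ := by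
  by_contra hne
  obtain ⟨x, hx⟩ := Finset.nonempty_iff_ne_empty.2 hne
  have := Finset.le_sup (f := lv) hx
  have := hlv x
  omega

theorem sup_insert {l : L} {v : Finset L} (h1 : ∀ x ∈ v, lv x < lv l) :
    (insert l v).sup lv = lv l := by
  rw [Finset.sup_insert]
  refine le_antisymm (sup_le le_rfl (Finset.sup_le fun x hx => (h1 x hx).le)) le_sup_left

theorem sup_content {l : L} {v : Finset L} (h1 : ∀ x ∈ v, lv x < lv l)
    (h2 : 1 ≤ (atL lv v (lv l - 1)).card) : v.sup lv = lv l - 1 := by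
  refine le_antisymm (Finset.sup_le fun x hx => by have := h1 x hx; omega) ?_
  obtain ⟨x, hx⟩ := Finset.card_pos.1 h2
  simp only [atL, Finset.mem_filter] at hx
  rw [← hx.2]
  exact Finset.le_sup (f := lv) hx.1

/-- Case `lev T > lev T'` of (F3). -/
theorem comm_lt (hlv : ∀ x, 1 ≤ lv x) {v : Finset L} {n : ℕ} {K : Subgroup G}
    (h : WT lv t v n K) {v' : Finset L} {n' : ℕ} {K' : Subgroup G} (h' : WT lv t v' n' K')
    (hlt : v'.sup lv < v.sup lv) (hd : Disjoint v v') : ⁅K, K'⁆ ≤ Afam G lv t (v ∪ v') (n + n') := by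
  induction h with
  | nil n => simp at hlt
  | lett l n h1 h2 =>
    have e1 : ({l} : Finset L).sup lv = 1 := by simp [h1]
    have hv' : v' = ∅ := sup_zero hlv (by omega)
    have hK' := WT.empty h' hv'
    subst hv'
    rw [hK', Finset.union_empty]
    exact (Pool.Agent.DL17.MF12.lc_add n n').trans (le_Afam (.lett l (n + n') h1 (by omega)) le_rfl)
  | up l v n K h h1 h2 h3 ih =>
    have hs := sup_content h1 h2
    rw [sup_insert h1] at hlt
    have hd' : Disjoint v v' := Disjoint.mono_left (Finset.subset_insert l v) hd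
    have key : ⁅K, K'⁆ ≤ Afam G lv t (v ∪ v') (n + n') := by
      rcases lt_or_eq_of_le (show v'.sup lv ≤ v.sup lv by omega) with h4 | h4
      · exact ih h4 hd'
      · refine le_Afam (.br v v' n n' K K' h h' hd' h4.symm ?_) le_rfl
        by_contra h5
        have h6 : v = ∅ := sup_zero hlv (by omega)
        rw [h6] at h2
        simp [atL] at h2
    refine key.trans (Afam_le fun m M hm hM => ?_)
    have hv1 : ∀ x ∈ v ∪ v', lv x < lv l := by
      intro x hx
      rcases Finset.mem_union.1 hx with hx | hx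
      · exact h1 x hx
      · exact (Finset.le_sup (f := lv) hx).trans_lt hlt
    have hc := Finset.card_le_card (atL_mono lv (Finset.subset_union_left (s₁ := v) (s₂ := v'))
      (lv l - 1))
    rw [Finset.insert_union]
    exact le_Afam (.up l (v ∪ v') m M hM hv1 (h2.trans hc) (h3.trans hc)) hm
  | br v₁ v₂ n₁ n₂ K₁ K₂ g₁ g₂ h1 h2 h3 ih₁ ih₂ =>
    have hs : (v₁ ∪ v₂).sup lv = v₁.sup lv := by rw [Finset.sup_union, h2, sup_idem]
    rw [hs] at hlt
    rw [Finset.disjoint_union_left] at hd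
    have e1 := ih₁ hlt hd.1
    have e2 := ih₂ (h2 ▸ hlt) hd.2
    refine Pool.Agent.PX.Sol49.three ?_ ?_
    · refine (Subgroup.commutator_mono e2 le_rfl).trans ?_
      refine sSup_comm fun M ⟨m, hm, hM⟩ => ?_
      rw [Subgroup.commutator_comm]
      have := WT.br (G := G) v₁ (v₂ ∪ v') n₁ m K₁ M g₁ hM
        (Finset.disjoint_union_right.2 ⟨h1, hd.1⟩)
        (by rw [Finset.sup_union, ← h2, sup_eq_left.2 hlt.le]) h3
      rw [Finset.union_assoc]
      exact le_Afam this (by omega)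
    · rw [Subgroup.commutator_comm K' K₁]
      refine (Subgroup.commutator_mono e1 le_rfl).trans ?_
      refine sSup_comm fun M ⟨m, hm, hM⟩ => ?_
      have := WT.br (G := G) (v₁ ∪ v') v₂ m n₂ M K₂ hM g₂
        (Finset.disjoint_union_left.2 ⟨h1, hd.2.symm⟩)
        (by rw [Finset.sup_union, sup_eq_left.2 hlt.le, h2])
        (by rw [Finset.sup_union, sup_eq_left.2 hlt.le]; exact h3)
      rw [Finset.union_right_comm]
      exact le_Afam this (by omega)

/-- (F3) for generators. -/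
theorem comm_WT (hlv : ∀ x, 1 ≤ lv x) {v : Finset L} {n : ℕ} {K : Subgroup G}
    (h : WT lv t v n K) {v' : Finset L} {n' : ℕ} {K' : Subgroup G} (h' : WT lv t v' n' K')
    (hd : Disjoint v v') : ⁅K, K'⁆ ≤ Afam G lv t (v ∪ v') (n + n') := by
  rcases lt_trichotomy (v.sup lv) (v'.sup lv) with hl | hl | hl
  · rw [Subgroup.commutator_comm, Finset.union_comm, add_comm]
    exact comm_lt hlv h' h hl hd.symm
  · by_cases h0 : v.sup lv = 0
    · have e1 := sup_zero hlv h0
      have e2 := sup_zero hlv (hl ▸ h0)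
      rw [WT.empty h e1, WT.empty h' e2]
      subst e1 e2
      exact (Pool.Agent.DL17.MF12.lc_add n n').trans (le_Afam (.nil (n + n')) le_rfl)
    · exact le_Afam (.br v v' n n' K K' h h' hd hl (by omega)) le_rfl
  · exact comm_lt hlv h h' hl hd

/-- (F3). -/
theorem Afam_comm (hlv : ∀ x, 1 ≤ lv x) {v v' : Finset L} {n n' : ℕ} {s t' : L → ℕ}
    (hd : Disjoint v v') (h1 : ∀ x ∈ v, s x ≤ t x) (h2 : ∀ x ∈ v', s x ≤ t' x) :
    ⁅Afam G lv t v n, Afam G lv t' v' n'⁆ ≤ Afam G lv s (v ∪ v') (n + n') := by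
  refine sSup_comm₂ ?_
  rintro K ⟨m, hm, hK⟩ K' ⟨m', hm', hK'⟩
  exact (comm_WT hlv (WT.mono hK h1) (WT.mono hK' h2) hd).trans (Afam_anti _ (by omega))

/-- (F4). -/
theorem Afam_top (hlv : ∀ x, 1 ≤ lv x) (v : Finset L) (n : ℕ) :
    ⁅Afam G lv t v n, (⊤ : Subgroup G)⁆ ≤ Afam G lv t v (n + 1) := by
  have h1 : (⊤ : Subgroup G) ≤ Afam G lv t ∅ 1 :=
    le_Afam (K := ⊤) (WT.nil (G := G) (lv := lv) (t := t) 1) le_rfl
  refine (Subgroup.commutator_mono le_rfl h1).trans ?_
  have := Afam_comm (G := G) hlv (t := t) (t' := t) (s := t) (n := n) (n' := 1)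
    (Finset.disjoint_empty_right v) (fun _ _ => le_rfl) (fun _ _ => le_rfl)
  rwa [Finset.union_empty] at this

/-- (F5). -/
theorem exact (hlv : ∀ x, 1 ≤ lv x) {v : Finset L} {n : ℕ} {K : Subgroup G}
    (h : WT lv t v n K) (h1 : 1 ≤ v.sup lv) : ∃ s : L → ℕ, (∀ x, t x ≤ s x) ∧
      (∀ x, x ∉ atL lv v (v.sup lv) → s x = t x) ∧ WT lv s v n K ∧
      ∑ x ∈ atL lv v (v.sup lv), s x =
        if v.sup lv = 1 then n else (atL lv v (v.sup lv - 1)).card := by
  induction h with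
  | nil n => simp at h1
  | lett l n h2 h3 =>
    have e : ({l} : Finset L).sup lv = 1 := by simp [h2]
    have e2 : atL lv {l} 1 = {l} := by
      ext x; simp only [atL, Finset.mem_filter, Finset.mem_singleton]
      exact ⟨fun h => h.1, fun h => ⟨h, by rw [h, h2]⟩⟩
    refine ⟨Function.update t l n, fun x => ?_, fun x hx => ?_, .lett l n h2 (by simp), ?_⟩
    · by_cases hx : x = l
      · subst hx; simpa using h3
      · simp [hx]
    · rw [e, e2, Finset.mem_singleton] at hx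
      simp [hx]
    · rw [e, e2]; simp
  | up l v n K h h2 h3 h4 ih =>
    have e := sup_insert h2
    have e' := sup_content h2 h3
    have hl : l ∉ v := fun hx => lt_irrefl _ (h2 l hx)
    have hl1 : lv l ≠ 1 := by
      intro h5
      have : v = ∅ := sup_zero hlv (by omega)
      rw [this] at h3
      simp [atL] at h3
    have e2 : atL lv (insert l v) (lv l) = {l} := by
      ext x; simp only [atL, Finset.mem_filter, Finset.mem_singleton, Finset.mem_insert]
      constructor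
      · rintro ⟨rfl | hx, h5⟩
        · rfl
        · have := h2 x hx; omega
      · rintro rfl; exact ⟨Or.inl rfl, rfl⟩
    have e3 : atL lv (insert l v) (lv l - 1) = atL lv v (lv l - 1) := by
      ext x; simp only [atL, Finset.mem_filter, Finset.mem_insert]
      constructor
      · rintro ⟨rfl | hx, h5⟩
        · have := hlv x; omega
        · exact ⟨hx, h5⟩
      · rintro ⟨hx, h5⟩; exact ⟨Or.inr hx, h5⟩
    refine ⟨Function.update t l (atL lv v (lv l - 1)).card, fun x => ?_, fun x hx => ?_,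
      .up l v n K (WT.mono h fun x hx => ?_) h2 h3 (by simp), ?_⟩
    · by_cases hx : x = l
      · subst hx; simpa using h4
      · simp [hx]
    · rw [e, e2, Finset.mem_singleton] at hx
      simp [hx]
    · have : x ≠ l := fun h5 => hl (h5 ▸ hx)
      simp [this]
    · rw [e, e2, if_neg hl1, e3]; simp
  | br v₁ v₂ n₁ n₂ K₁ K₂ g₁ g₂ h2 h3 h4 ih₁ ih₂ =>
    have hs : (v₁ ∪ v₂).sup lv = v₁.sup lv := by rw [Finset.sup_union, h3, sup_idem]
    obtain ⟨s₁, a1, a2, a3, a4⟩ := ih₁ h4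
    obtain ⟨s₂, b1, b2, b3, b4⟩ := ih₂ (h3 ▸ h4)
    rw [← h3] at b2 b4
    have hlu : ∀ i, atL lv (v₁ ∪ v₂) i = atL lv v₁ i ∪ atL lv v₂ i := fun i =>
      Finset.filter_union _ _ _
    have hld : ∀ i, Disjoint (atL lv v₁ i) (atL lv v₂ i) := fun i =>
      Finset.disjoint_filter_filter h2
    refine ⟨fun x => if x ∈ v₁ then s₁ x else s₂ x, fun x => ?_, fun x hx => ?_,
      .br v₁ v₂ n₁ n₂ K₁ K₂ (WT.mono a3 fun x hx => ?_) (WT.mono b3 fun x hx => ?_) h2 h3 h4, ?_⟩
    · show t x ≤ if x ∈ v₁ then s₁ x else s₂ x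
      split
      · exact a1 x
      · exact b1 x
    · rw [hs, hlu, Finset.mem_union, not_or] at hx
      show (if x ∈ v₁ then s₁ x else s₂ x) = t x
      split
      · exact a2 x hx.1
      · exact b2 x hx.2
    · simp [hx]
    · have : x ∉ v₁ := fun h5 => Finset.disjoint_left.1 h2 h5 hx
      simp [this]
    · rw [hs, hlu, Finset.sum_union (hld _), hlu, Finset.card_union_of_disjoint (hld _)]
      have c1 : ∑ x ∈ atL lv v₁ (v₁.sup lv), (if x ∈ v₁ then s₁ x else s₂ x) =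
          ∑ x ∈ atL lv v₁ (v₁.sup lv), s₁ x :=
        Finset.sum_congr rfl fun x hx => if_pos (Finset.mem_filter.1 hx).1
      have c2 : ∑ x ∈ atL lv v₂ (v₁.sup lv), (if x ∈ v₁ then s₁ x else s₂ x) =
          ∑ x ∈ atL lv v₂ (v₁.sup lv), s₂ x :=
        Finset.sum_congr rfl fun x hx => if_neg fun h5 =>
          Finset.disjoint_left.1 h2 h5 (Finset.mem_filter.1 hx).1
      rw [c1, c2, a4, b4]
      split <;> rfl

/-- The operator `up` on the families. -/
theorem Afam_up {v : Finset L} {n : ℕ} {a : L} (h1 : ∀ x ∈ v, lv x < lv a)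
    (h2 : 1 ≤ (atL lv v (lv a - 1)).card) (h3 : t a ≤ (atL lv v (lv a - 1)).card) :
    Afam G lv t v n ≤ Afam G lv t (insert a v) n :=
  Afam_le fun n' K hn hK => le_Afam (.up a v n' K hK h1 h2 h3) hn

section Ffam

variable {p : L → ℕ} {c : ℕ}

theorem le_Ffam {v w : Finset L} {n n' : ℕ} {K : Subgroup G} (ht : t ∈ OD lv p c v w)
    (h : WT lv t v n' K) (hn : n ≤ n') : K ≤ Ffam G lv p c n v w := le_sSup ⟨t, ht, n', hn, h⟩

theorem Ffam_le {v w : Finset L} {n : ℕ} {M : Subgroup G}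
    (h : ∀ s ∈ OD lv p c v w, ∀ n' K, n ≤ n' → WT lv s v n' K → K ≤ M) :
    Ffam G lv p c n v w ≤ M :=
  sSup_le fun K ⟨s, hs, n', hn, hK⟩ => h s hs n' K hn hK

/-- (O2). -/
theorem Afam_le_Ffam {v w : Finset L} {n n' : ℕ} (ht : t ∈ OD lv p c v w) (hn : n ≤ n') :
    Afam G lv t v n' ≤ Ffam G lv p c n v w :=
  Afam_le fun _ _ hm hK => le_Ffam ht hK (hn.trans hm)

theorem Ffam_le' {v w : Finset L} {n : ℕ} {M : Subgroup G}
    (h : ∀ s ∈ OD lv p c v w, Afam G lv s v n ≤ M) : Ffam G lv p c n v w ≤ M :=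
  Ffam_le fun s hs _ _ hn hK => (le_Afam hK hn).trans (h s hs)

theorem base_le_Ffam (v w : Finset L) (n : ℕ) : Afam G lv p v n ≤ Ffam G lv p c n v w :=
  Afam_le_Ffam (OD_base lv p c v w) le_rfl

theorem anchor_le_Ffam {lam : ℕ} (hlam : lam ≤ c) (v w : Finset L) (n : ℕ) {a : L} (ha : a ∈ w) :
    Afam G lv (Function.update p a (p a - lam)) v n ≤ Ffam G lv p c n v w :=
  Afam_le_Ffam (OD_anchor lv p hlam v w ha) le_rfl

instance Ffam_normal (v w : Finset L) (n : ℕ) : (Ffam G lv p c n v w).Normal :=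
  sSup_normal fun _ ⟨_, _, _, _, h⟩ => WT.normal h

theorem Ffam_map (v w : Finset L) (n : ℕ) (f : G →* G) :
    (Ffam G lv p c n v w).map f ≤ Ffam G lv p c n v w :=
  sSup_map f fun _ ⟨_, _, _, _, h⟩ => WT.map h f

theorem Ffam_act {Γ : Type} [Group Γ] [MulDistribMulAction Γ G] (v w : Finset L) (n : ℕ) (γ : Γ)
    {g : G} (hg : g ∈ Ffam G lv p c n v w) : γ • g ∈ Ffam G lv p c n v w :=
  Ffam_map v w n (MulDistribMulAction.toMonoidHom G γ) ⟨g, hg, rfl⟩

theorem Ffam_le_lc (v w : Finset L) (n : ℕ) : Ffam G lv p c n v w ≤ lc G n :=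
  Ffam_le' fun _ _ => Afam_le_lc v n

theorem Ffam_anti (v w : Finset L) {n n' : ℕ} (h : n ≤ n') :
    Ffam G lv p c n' v w ≤ Ffam G lv p c n v w :=
  Ffam_le fun _ hs _ _ hn hK => le_Ffam hs hK (h.trans hn)

theorem Ffam_open (v : Finset L) {w w' : Finset L} (n : ℕ) (h : w ⊆ w') :
    Ffam G lv p c n v w ≤ Ffam G lv p c n v w' :=
  Ffam_le fun _ hs _ _ hn hK => le_Ffam (OD_open h hs) hK hn

/-- (O1). -/
theorem Ffam_comm (hlv : ∀ x, 1 ≤ lv x) {v v' : Finset L} (w w' : Finset L) (n n' : ℕ)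
    (hd : Disjoint v v') : ⁅Ffam G lv p c n v w, Ffam G lv p c n' v' w'⁆ ≤
      Ffam G lv p c (n + n') (v ∪ v') (w ∪ w') := by
  refine sSup_comm₂ ?_
  rintro K ⟨s, hs, m, hm, hK⟩ K' ⟨s', hs', m', hm', hK'⟩
  have h1 : ∀ x ∈ v, glue v s s' x ≤ s x := fun x hx => (glue_mem hx).le
  have h2 : ∀ x ∈ v', glue v s s' x ≤ s' x := fun x hx =>
    (glue_not_mem fun hx' => Finset.disjoint_left.1 hd hx' hx).le
  exact (comm_WT hlv (WT.mono hK h1) (WT.mono hK' h2) hd).trans
    (Afam_le_Ffam (OD_glue hd hs hs') (by omega))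

/-- (F4) for the families `F`. -/
theorem Ffam_top (hlv : ∀ x, 1 ≤ lv x) (v w : Finset L) (n : ℕ) :
    ⁅Ffam G lv p c n v w, (⊤ : Subgroup G)⁆ ≤ Ffam G lv p c (n + 1) v w := by
  refine sSup_comm ?_
  rintro K ⟨s, hs, m, hm, hK⟩
  exact (Subgroup.commutator_mono (le_Afam hK hm) le_rfl).trans
    ((Afam_top hlv v n).trans (Afam_le_Ffam hs le_rfl))

/-- The product of a base family and an open family. -/
theorem Afam_comm_anchor (hlv : ∀ x, 1 ≤ lv x) {v v' : Finset L} (n n' lam : ℕ) {a : L}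
    (ha : a ∉ v') (hd : Disjoint v v') :
    ⁅Afam G lv (Function.update p a (p a - lam)) v n, Afam G lv p v' n'⁆ ≤
      Afam G lv (Function.update p a (p a - lam)) (v ∪ v') (n + n') := by
  refine Afam_comm hlv hd (fun _ _ => le_rfl) fun x hx => ?_
  have hxa : x ≠ a := by rintro rfl; exact ha hx
  rw [Function.update_of_ne hxa]

/-- The operator `up_a` on the families `F`: the anchor `a` is open. -/
theorem Ffam_up {v : Finset L} (w : Finset L) (n : ℕ) {a : L} (h1 : ∀ x ∈ v, lv x < lv a)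
    (h2 : 1 ≤ (atL lv v (lv a - 1)).card) (h3 : p a ≤ (atL lv v (lv a - 1)).card + c) :
    Ffam G lv p c n v w ≤ Ffam G lv p c n (insert a v) (insert a w) := by
  have ha : a ∉ v := fun h => lt_irrefl _ (h1 a h)
  refine Ffam_le fun s hs m K hm hK => ?_
  refine le_Ffam (OD_up (lam := c) le_rfl ha hs) (.up a v m K (WT.mono hK fun x hx => ?_) h1 h2 ?_)
    hm
  · have hxa : x ≠ a := by rintro rfl; exact ha hx
    rw [Function.update_of_ne hxa]
  · rw [Function.update_self]; omega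

end Ffam

end Ty43

end DL78
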