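import Pool.Agent.Lib.MP_2b9f9a_al.DL.Grp_28
import Pool.Agent.Lib.MP_2b9f9a_al.DL.WF_41
import Pool.Agent.Lib.MP_2b9f9a_al.PX.Fpf28
import Pool.Agent.Lib.MP_2b9f9a_al.DLB.Int7
import Pool.Agent.Lib.MP_2b9f9a_al.DLB.Ty_43

/-!
# DL78 (MP_2b9f9a), the root: `Q_n ≤ Q_{n+1}`, hence `Q_0 = 1`
-/

set_option autoImplicit false

namespace Pool.Agent.DLB

open Pool.Agent.Lib.MP_2b9f9a_al
open Pool.Agent.DL17
open Pool.Agent.PX (Fro lc StFpf dsg)
open _root_.DL78

/-- The Lie ring of the filtered group (section 4). -/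
def StRing : Prop := ∀ (r : ℕ) [Fact r.Prime] (p : ℕ) [Fact p.Prime] (Γ P Lab : Type) [Group Γ]
  [Finite Γ] [Group P] [Finite P] [MulDistribMulAction Γ P] [DecidableEq Lab]
  (F H : Subgroup Γ) [Fintype H] (φ : Γ) (τ : H →* (ZMod p)ˣ) (lv pp : Lab → ℕ) (c d : ℕ),
  IsPGroup r P → Fro P F H → φ ∈ F → φ ≠ 1 → φ ^ p = 1 → Function.Injective τ →
  (∀ x : H, φ * (x : Γ) = x * φ ^ ((τ x : (ZMod p)ˣ) : ZMod p).val) → (∀ x, 1 ≤ lv x) →
  dsg (Grp28.fix (P := P) H) d = ⊥ →
  ∃ (M : Type) (_ : LieRing M) (σ : H →* AddMonoid.End M) (Fc : Idx Lab → Fam (ZMod p) M)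
    (pf : ℕ → Finset Lab → Fam (ZMod p) M) (vf : ℕ → Finset Lab → ℕ → Lab → Fam (ZMod p) M)
    (G : ℕ → Idx Lab → ℕ → Set M), LD lv pp c τ σ Fc pf vf G ∧
    (∀ I m, ∀ x ∈ G d I m, x = 0) ∧
    ∀ n v a, a ∈ v → (∀ b, ∀ x ∈ vf n v 0 a b, x = 0) →
      Afam P lv pp v n ≤ Ffam P lv pp c (n + 1) v {a}

/-- The conclusion of the root: `Q_0 = 1`. -/
def StQ : Prop := ∀ h d : ℕ, 2 ≤ d → ∃ c R₀ : ℕ, ∀ (r : ℕ) [Fact r.Prime] (Γ P Lab : Type)
  [Group Γ] [Finite Γ] [Group P] [Finite P] [MulDistribMulAction Γ P] [Fintype Lab]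
  [DecidableEq Lab] (F H : Subgroup Γ) (lv : Lab → ℕ) (E : ℕ → ℕ),
  IsPGroup r P → Fro P F H → Nat.card H = h → dsg (Grp28.fix (P := P) H) d = ⊥ →
  (∀ x, 1 ≤ lv x) → (∀ x, lv x ≤ d - 1) →
  R₀ < (_root_.DL78.atL lv Finset.univ (d - 1)).card →
  (∀ l, 2 * (c * (_root_.DL78.atL lv Finset.univ l).card) ≤ E l) →
  ∀ t ∈ DOM lv (c + 1) E Finset.univ, Afam P lv t Finset.univ 0 = ⊥

namespace Root50

/-! ### The automorphism of prime order -/

section prime

variable {Γ P : Type} [Group Γ] [Group P] [MulDistribMulAction Γ P]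

/-- the action on the abelianisation -/
noncomputable def aact (Γ P : Type) [Group Γ] [Group P] [MulDistribMulAction Γ P] :
    Γ →* AddMonoid.End (Additive (Abelianization P)) where
  toFun γ := MonoidHom.toAdditive (Abelianization.map (MulDistribMulAction.toMonoidHom P γ))
  map_one' := by
    apply AddMonoidHom.ext
    intro v
    obtain ⟨n, hn⟩ := QuotientGroup.mk_surjective (Additive.toMul v)
    have e : v = Additive.ofMul (Abelianization.of n) := by
      apply Additive.toMul.injective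
      exact hn.symm
    rw [e]
    change Additive.ofMul (Abelianization.of ((1 : Γ) • n)) = Additive.ofMul (Abelianization.of n)
    rw [one_smul]
  map_mul' γ δ := by
    apply AddMonoidHom.ext
    intro v
    obtain ⟨n, hn⟩ := QuotientGroup.mk_surjective (Additive.toMul v)
    have e : v = Additive.ofMul (Abelianization.of n) := by
      apply Additive.toMul.injective
      exact hn.symm
    rw [e]
    change Additive.ofMul (Abelianization.of ((γ * δ) • n)) =
      Additive.ofMul (Abelianization.of (γ • (δ • n)))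
    rw [mul_smul]

theorem aact_of (γ : Γ) (n : P) : aact Γ P γ (Additive.ofMul (Abelianization.of n)) =
    Additive.ofMul (Abelianization.of (γ • n)) := rfl

theorem exists_phi (hFpf : StFpf) {r : ℕ} [Fact r.Prime] [Finite Γ] [Finite P] [Nontrivial P]
    {F H : Subgroup Γ} (hP : IsPGroup r P) (hFro : Fro P F H) :
    ∃ p : ℕ, p.Prime ∧ ∃ φ ∈ F, φ ≠ 1 ∧ φ ^ p = 1 ∧ ∃ τ : H →* (ZMod p)ˣ,
      Function.Injective τ ∧
      ∀ x : H, φ * (x : Γ) = x * φ ^ ((τ x : (ZMod p)ˣ) : ZMod p).val := by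
  have hnil : Group.IsNilpotent P := hP.isNilpotent
  have hsol : Group.IsSolvable P := inferInstance
  have hnt : Nontrivial (Additive (Abelianization P)) := by
    have hlt := Group.IsSolvable.commutator_lt_top_of_nontrivial P
    obtain ⟨g, -, hg⟩ := SetLike.exists_of_lt hlt
    refine ⟨Additive.ofMul (Abelianization.of g), 0, ?_⟩
    intro h
    apply hg
    exact (QuotientGroup.eq_one_iff g).1 h
  have hf : ∀ y ∈ F, y ≠ 1 → ∀ v : Additive (Abelianization P), aact Γ P y v = v → v = 0 := by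
    intro y hy hy1 v hv
    obtain ⟨n, hn⟩ := QuotientGroup.mk_surjective (Additive.toMul v)
    have e : v = Additive.ofMul (Abelianization.of n) := by
      apply Additive.toMul.injective
      exact hn.symm
    rw [e, aact_of] at hv
    have h1 : Abelianization.of (y • n) = Abelianization.of n := Additive.ofMul.injective hv
    have h2 : n⁻¹ * (y • n) ∈ commutator P := QuotientGroup.eq.1 h1.symm
    have h3 := hFpf r Γ P F H hP hFro (commutator P) (by
      intro γ g hg
      have : (commutator P).map (MulDistribMulAction.toMonoidHom P γ) ≤ commutator P := by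
        rw [commutator_def, Subgroup.map_commutator]
        exact Subgroup.commutator_mono le_top le_top
      exact this ⟨g, hg, rfl⟩) y hy hy1 n h2
    rw [e]
    have h4 : Abelianization.of n = 1 := (QuotientGroup.eq_one_iff n).2 h3
    rw [h4]
    rfl
  obtain ⟨p, hp, φ, hφF, hφo, hφH⟩ := exists_prime_subgroup (aact Γ P) F hf H hFro.norm hFro.hne
    hFro.free hFro.fne
  have : Fact p.Prime := ⟨hp⟩
  have : Fact (1 < p) := ⟨hp.one_lt⟩
  have hφ1 : φ ≠ 1 := by
    rintro rfl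
    rw [orderOf_one] at hφo
    exact hp.one_lt.ne hφo
  have hφp : φ ^ p = 1 := by rw [← hφo]; exact pow_orderOf_eq_one φ
  have hpow : ∀ x : H, ∃ n : ZMod p, φ ^ n.val = (x : Γ)⁻¹ * φ * x := by
    intro x
    have h1 := hφH x x.2
    have hfo : IsOfFinOrder φ := isOfFinOrder_iff_pow_eq_one.mpr ⟨p, hp.pos, hφp⟩
    rw [← hfo.mem_powers_iff_mem_zpowers] at h1
    obtain ⟨n, hn⟩ := h1
    refine ⟨(n : ZMod p), ?_⟩
    rw [ZMod.val_natCast, ← hn]
    exact (pow_eq_pow_mod n hφp).symm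
  choose t ht using hpow
  have hinjp : ∀ a b : ZMod p, φ ^ a.val = φ ^ b.val → a = b := by
    intro a b hab
    have h1 : a.val = b.val := by
      apply pow_injOn_Iio_orderOf _ _ hab
      · rw [Set.mem_Iio, hφo]; exact ZMod.val_lt a
      · rw [Set.mem_Iio, hφo]; exact ZMod.val_lt b
    exact ZMod.val_injective p h1
  have ht1 : t 1 = 1 := by
    apply hinjp
    rw [ht 1, ZMod.val_one, pow_one]
    simp
  have htmul : ∀ x y : H, t (x * y) = t x * t y := by
    intro x y
    apply hinjp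
    rw [ht (x * y), pow_val_mul hφp, ht x]
    have h2 : ∀ k : ℕ, ((x : Γ)⁻¹ * φ * x) ^ k = (x : Γ)⁻¹ * φ ^ k * x := by
      intro k
      have := conj_pow (i := k) (a := (x : Γ)⁻¹) (b := φ)
      rw [inv_inv] at this
      exact this
    have h3 : ((x * y : H) : Γ)⁻¹ * φ * ((x * y : H) : Γ) = (y : Γ)⁻¹ * φ ^ (t x).val * y := by
      rw [ht x, Subgroup.coe_mul]; group
    have h4 : (y : Γ)⁻¹ * φ ^ (t x).val * y = φ ^ (t y * t x).val := by
      rw [pow_val_mul hφp, ht y]
      have := conj_pow (i := (t x).val) (a := (y : Γ)⁻¹) (b := φ)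
      rw [inv_inv] at this
      exact this.symm
    rw [h3, h4, mul_comm, pow_val_mul hφp, ht x]
  let τ : H →* (ZMod p)ˣ := (MonoidHom.mk ⟨t, ht1⟩ htmul).toHomUnits
  have hτt : ∀ x, ((τ x : (ZMod p)ˣ) : ZMod p) = t x := fun x => rfl
  refine ⟨p, hp, φ, hφF, hφ1, hφp, τ, ?_, ?_⟩
  · rw [injective_iff_map_eq_one]
    intro x hx
    by_contra hx1
    apply hφ1
    apply hFro.free x x.2 (by intro h; exact hx1 (Subtype.ext h)) φ hφF
    have h0 : t x = 1 := by
      rw [← hτt, hx]; rfl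
    have h1 := ht x
    rw [h0, ZMod.val_one, pow_one] at h1
    have h2 : (x : Γ) * φ = x * ((x : Γ)⁻¹ * φ * x) := by rw [← h1]
    rw [h2]; group
  · intro x
    rw [hτt, ht x]
    group

end prime

/-! ### `Q_n ≤ Q_{n+1}` -/

section root

variable {P Lab : Type} [Group P] [DecidableEq Lab] {lv p : Lab → ℕ} {c : ℕ}

/-- Closing of the anchor (O3), in the feasible case. -/
theorem close (hlv : ∀ x, 1 ≤ lv x) {v : Finset Lab} {a : Lab} {n : ℕ}
    (ha : lv a = v.sup lv) (hmax : ∀ x ∈ _root_.DL78.atL lv v (v.sup lv), p x ≤ p a)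
    (hfeas : ∑ x ∈ _root_.DL78.atL lv v (v.sup lv), p x ≤
      if v.sup lv = 1 then n else (_root_.DL78.atL lv v (v.sup lv - 1)).card) :
    Ffam P lv p c n v {a} ≤ Ffam P lv p c n v ∅ := by
  refine sSup_le ?_
  rintro K ⟨t, ht, n', hn', hK⟩
  obtain ⟨s, hs1, -, hs3, hs4⟩ := Ty43.exact hlv hK (ha ▸ hlv a)
  refine le_sSup ⟨s, ?_, n', hn', hs3⟩
  refine OD_close (a := a) (w := ∅) (by rw [ha]; exact hmax) ht (fun x _ => hs1 x) ?_
  rw [ha, hs4]
  refine hfeas.trans ?_
  split_ifs with h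
  · exact hn'
  · exact le_rfl

/-- The case that is not feasible. -/
theorem infeas (hlv : ∀ x, 1 ≤ lv x) {v : Finset Lab} {n : ℕ} (h1 : 1 ≤ v.sup lv)
    (hfeas : ¬ ∑ x ∈ _root_.DL78.atL lv v (v.sup lv), p x ≤
      if v.sup lv = 1 then n + 1 else (_root_.DL78.atL lv v (v.sup lv - 1)).card) :
    Afam P lv p v n ≤ Afam P lv p v (n + 1) := by
  refine Ty43.Afam_le ?_
  intro n' K hn' hK
  obtain ⟨s, hs1, -, hs3, hs4⟩ := Ty43.exact hlv hK h1
  have h2 : ∑ x ∈ _root_.DL78.atL lv v (v.sup lv), p x ≤ ∑ x ∈ _root_.DL78.atL lv v (v.sup lv), s x :=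
    Finset.sum_le_sum fun x _ => hs1 x
  rw [hs4] at h2
  by_cases h3 : v.sup lv = 1
  · rw [if_pos h3] at h2 hfeas
    exact Ty43.le_Afam hK (by omega)
  · rw [if_neg h3] at h2 hfeas
    omega

end root

end Root50

open Root50 in
/-- The root. -/
theorem stQ_50 (hFpf : StFpf) (hRing : StRing) (hLam : StLam) : StQ := by
  intro h d hd
  obtain ⟨c, R₀, hL⟩ := hLam h (d - 1) (by omega)
  refine ⟨c, R₀, ?_⟩
  intro r _ Γ P Lab _ _ _ _ _ _ _ F H lv E hP hFro hcard hC hlv hlvd hR hE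
  rcases subsingleton_or_nontrivial P with hsub | hnt
  · intro t _
    exact Subsingleton.elim _ _
  obtain ⟨p, hp, φ, hφF, hφ1, hφp, τ, hτ, hφH⟩ := exists_phi hFpf hP hFro
  have : Fact p.Prime := ⟨hp⟩
  have := Fintype.ofFinite H
  have hsup : (Finset.univ : Finset Lab).sup lv = d - 1 := by
    refine le_antisymm (Finset.sup_le fun x _ => hlvd x) ?_
    obtain ⟨x, hx⟩ := Finset.card_pos.1 (lt_of_le_of_lt (Nat.zero_le _) hR)
    rw [← (mem_atL.1 hx).2]
    exact Finset.le_sup (f := lv) (Finset.mem_univ x)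
  -- the step
  have step : ∀ n, ∀ t ∈ DOM lv (c + 1) E (Finset.univ : Finset Lab),
      Afam P lv t Finset.univ n ≤ ⨆ s : {s // s ∈ DOM lv (c + 1) E (Finset.univ : Finset Lab)},
        Afam P lv s Finset.univ (n + 1) := by
    intro n t ht
    by_cases hfeas : ∑ x ∈ _root_.DL78.atL lv Finset.univ ((Finset.univ : Finset Lab).sup lv), t x ≤
      if (Finset.univ : Finset Lab).sup lv = 1 then n + 1
      else (_root_.DL78.atL lv Finset.univ ((Finset.univ : Finset Lab).sup lv - 1)).card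
    · obtain ⟨a, ha, hmax⟩ := Finset.exists_max_image (_root_.DL78.atL lv Finset.univ (d - 1)) t
        (Finset.card_pos.1 (lt_of_le_of_lt (Nat.zero_le _) hR))
      have ha' := (mem_atL.1 ha).2
      obtain ⟨M, _, σ, Fc, pf, vf, G, hLD, hG, hout⟩ := hRing r p Γ P Lab F H φ τ lv t c d hP hFro
        hφF hφ1 hφp hτ hφH hlv hC
      have h1 := hL p M H Lab lv t c τ σ Fc pf vf G
        (by rw [← hcard, Nat.card_eq_fintype_card]) le_rfl
        (fun x => DOM_ge ht (Finset.mem_univ x)) hLD (by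
          intro I m x hx
          have e : d - 1 + 1 = d := by omega
          rw [e] at hx
          exact hG I m x hx) n Finset.univ a hsup (Finset.mem_univ a) ha' hR
      have h2 := hout n Finset.univ a (Finset.mem_univ a) h1
      refine h2.trans ((close hlv (by rw [hsup]; exact ha') (by rw [hsup]; exact hmax)
        hfeas).trans ?_)
      refine sSup_le ?_
      rintro K ⟨s, hs, n', hn', hK⟩
      have h3 : s ∈ DOM lv (c + 1) E (Finset.univ : Finset Lab) := OD_sub_DOM ht hE hs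
      exact (Ty43.le_Afam hK hn').trans
        (le_iSup (fun s : {s // s ∈ DOM lv (c + 1) E (Finset.univ : Finset Lab)} =>
          Afam P lv s Finset.univ (n + 1)) ⟨s, h3⟩)
    · refine (infeas hlv (by omega) hfeas).trans ?_
      exact le_iSup (fun s : {s // s ∈ DOM lv (c + 1) E (Finset.univ : Finset Lab)} =>
          Afam P lv s Finset.univ (n + 1)) ⟨t, ht⟩
  have step2 : ∀ n, (⨆ s : {s // s ∈ DOM lv (c + 1) E (Finset.univ : Finset Lab)},
      Afam P lv s Finset.univ 0) ≤ ⨆ s : {s // s ∈ DOM lv (c + 1) E (Finset.univ : Finset Lab)},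
        Afam P lv s Finset.univ n := by
    intro n
    induction n with
    | zero => exact le_rfl
    | succ n ih => exact ih.trans (iSup_le fun s => step n s s.2)
  intro t ht
  have hnil : Group.IsNilpotent P := hP.isNilpotent
  obtain ⟨n, hn⟩ : ∃ n, lc P n = ⊥ := by
    obtain ⟨n, hn⟩ := Subgroup.nilpotent_iff_lowerCentralSeries.1 hnil
    refine ⟨n + 1, ?_⟩
    rw [← hn]
    clear hn
    induction n with
    | zero => rfl
    | succ n ih =>
      rw [Subgroup.lowerCentralSeries_succ, ← ih]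
      rfl
  rw [eq_bot_iff]
  refine (le_iSup (fun s : {s // s ∈ DOM lv (c + 1) E (Finset.univ : Finset Lab)} =>
          Afam P lv s Finset.univ 0) ⟨t, ht⟩).trans ((step2 n).trans (iSup_le fun s => ?_))
  rw [← hn]
  exact Ty43.Afam_le_lc _ _

end Pool.Agent.DLB
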