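import Pool.Agent.Lib.MP_2b9f9a_al.DLB.Ty_43
import Pool.Agent.Lib.MP_2b9f9a_al.DLB.Root50
import Pool.Agent.Lib.MP_2b9f9a_al.DA.Asm25

/-!
# DL78, END: from the vanishing of `A_t(Lab)[0]` to the bound for the derived length.  helper44
-/

set_option autoImplicit false

namespace DL78

open Pool.Agent.PX (lc)
open Pool.Agent.PX.Sol49 (lc_succ lc_normal)
open Pool.Agent.DL17.MF12 (lc_step lc_anti)

namespace End44

variable {P : Type} [Group P]

/-- left normed powers: `pw K s = [K, K, .., K]` with `s + 1` entries -/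
def pw (K : Subgroup P) : ℕ → Subgroup P
  | 0 => K
  | s + 1 => ⁅pw K s, K⁆

/-- the tower: `T 0 = γ_{c 1}`, `T (l + 1) = γ_{c (l + 2)} (T l)` -/
def tow (P : Type) [Group P] (c : ℕ → ℕ) : ℕ → Subgroup P
  | 0 => lc P (c 1)
  | l + 1 => pw (tow P c l) (c (l + 2) - 1)

theorem pw_derived {K : Subgroup P} {a : ℕ} (h : derivedSeries P a ≤ K) (s : ℕ) :
    derivedSeries P (a + s) ≤ pw K s := by
  induction s with
  | zero => exact h
  | succ s ih =>
    rw [← Nat.add_assoc, derivedSeries_succ]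
    refine Subgroup.commutator_mono ih ?_
    exact (derivedSeries_antitone P (Nat.le_add_right a s)).trans h

theorem lc_derived (s : ℕ) : derivedSeries P s ≤ lc P (s + 1) := by
  induction s with
  | zero => exact le_top
  | succ s ih =>
    rw [derivedSeries_succ, lc_succ]
    exact Subgroup.commutator_mono ih le_top

theorem tow_derived (c : ℕ → ℕ) (l : ℕ) :
    derivedSeries P (∑ j ∈ Finset.range (l + 1), c (j + 1)) ≤ tow P c l := by
  induction l with
  | zero =>
    rw [Finset.sum_range_one]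
    exact (lc_derived (P := P) (c 1)).trans (lc_step _)
  | succ l ih =>
    rw [Finset.sum_range_succ]
    refine le_trans (derivedSeries_antitone P ?_) (pw_derived ih (c (l + 2) - 1))
    exact Nat.add_le_add_left (Nat.sub_le _ _) _

section tree

variable {L : Type} [DecidableEq L]

/-- the right numbers of labels, levels `1, .., l` -/
structure Num (lv : L → ℕ) (c : ℕ → ℕ) (l : ℕ) (v : Finset L) : Prop where
  pos : ∀ x ∈ v, 1 ≤ lv x
  le : ∀ x ∈ v, lv x ≤ l
  card : ∀ j, 1 ≤ j → j < l → (atL lv v j).card = c (j + 1) * (atL lv v (j + 1)).card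

/-- the product of the `c i`, `j < i ≤ l` -/
def pr (c : ℕ → ℕ) (l j : ℕ) : ℕ := ∏ i ∈ Finset.Ioc j l, c i

theorem pr_self (c : ℕ → ℕ) (l : ℕ) : pr c l l = 1 := by
  unfold pr
  rw [Finset.Ioc_self, Finset.prod_empty]

theorem pr_succ (c : ℕ → ℕ) {l j : ℕ} (h : j < l) : pr c l j = c (j + 1) * pr c l (j + 1) := by
  unfold pr
  have e : Finset.Ioc j l = insert (j + 1) (Finset.Ioc (j + 1) l) := by
    ext x
    rw [Finset.mem_insert, Finset.mem_Ioc, Finset.mem_Ioc]
    omega
  rw [e, Finset.prod_insert]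
  rw [Finset.mem_Ioc]
  omega

theorem Num.card' {lv : L → ℕ} {c : ℕ → ℕ} {l : ℕ} {v : Finset L} (h : Num lv c l v) :
    ∀ d j, j + d = l → 1 ≤ j → (atL lv v j).card = pr c l j * (atL lv v l).card := by
  intro d
  induction d with
  | zero =>
    intro j hj _
    rw [show j = l by omega, pr_self, one_mul]
  | succ d ih =>
    intro j hj h1
    rw [h.card j h1 (by omega), ih (j + 1) (by omega) (by omega), pr_succ c (show j < l by omega), mul_assoc]

theorem Num.split {lv : L → ℕ} {c : ℕ → ℕ} {l : ℕ} {v : Finset L} (h : Num lv c l v) (hl : 1 ≤ l)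
    (a b : ℕ) (hab : (atL lv v l).card = a + b) :
    ∃ v₁ v₂ : Finset L, Disjoint v₁ v₂ ∧ v₁ ∪ v₂ = v ∧ Num lv c l v₁ ∧ Num lv c l v₂ ∧
      (atL lv v₁ l).card = a ∧ (atL lv v₂ l).card = b := by
  have h1 : ∀ j : ℕ, ∃ B : Finset L, B ⊆ atL lv v j ∧
      B.card = if 1 ≤ j ∧ j ≤ l then pr c l j * b else 0 := by
    intro j
    apply Finset.exists_subset_card_eq
    split_ifs with hj
    · rw [h.card' (l - j) j (by omega) hj.1, hab]
      exact Nat.mul_le_mul_left _ (Nat.le_add_left b a)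
    · exact Nat.zero_le _
  choose B hB1 hB2 using h1
  have h2 : ∀ j, atL lv (v.filter fun x => x ∈ B (lv x)) j = B j := by
    intro j
    ext x
    rw [mem_atL, Finset.mem_filter]
    constructor
    · rintro ⟨⟨_, hx⟩, rfl⟩
      exact hx
    · intro hx
      have := mem_atL.1 (hB1 j hx)
      exact ⟨⟨this.1, by rw [this.2]; exact hx⟩, this.2⟩
  have h3 : ∀ j, atL lv (v.filter fun x => x ∉ B (lv x)) j = atL lv v j \ B j := by
    intro j
    ext x
    rw [mem_atL, Finset.mem_filter, Finset.mem_sdiff, mem_atL]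
    constructor
    · rintro ⟨⟨h, hx⟩, rfl⟩
      exact ⟨⟨h, rfl⟩, hx⟩
    · rintro ⟨⟨h, rfl⟩, hx⟩
      exact ⟨⟨h, hx⟩, rfl⟩
  have h4 : ∀ j, 1 ≤ j → j ≤ l → (atL lv v j \ B j).card = pr c l j * a := by
    intro j hj hj'
    rw [Finset.card_sdiff_of_subset (hB1 j), hB2, if_pos ⟨hj, hj'⟩,
      h.card' (l - j) j (by omega) hj, hab, Nat.mul_add, Nat.add_sub_cancel]
  refine ⟨v.filter fun x => x ∉ B (lv x), v.filter fun x => x ∈ B (lv x), ?_, ?_, ?_, ?_, ?_, ?_⟩
  · rw [Finset.disjoint_left]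
    intro x hx hx'
    rw [Finset.mem_filter] at hx hx'
    exact hx.2 hx'.2
  · ext x
    rw [Finset.mem_union, Finset.mem_filter, Finset.mem_filter]
    tauto
  · refine ⟨fun x hx => h.pos x (Finset.mem_filter.1 hx).1,
      fun x hx => h.le x (Finset.mem_filter.1 hx).1, fun j h1 h2 => ?_⟩
    rw [h3, h3, h4 j h1 h2.le, h4 (j + 1) (by omega) h2, pr_succ c h2, mul_assoc]
  · refine ⟨fun x hx => h.pos x (Finset.mem_filter.1 hx).1,
      fun x hx => h.le x (Finset.mem_filter.1 hx).1, fun j h1 h3 => ?_⟩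
    rw [h2, h2, hB2, hB2, if_pos ⟨h1, h3.le⟩, if_pos ⟨by omega, h3⟩, pr_succ c h3, mul_assoc]
  · rw [h3, h4 l hl le_rfl, pr_self, one_mul]
  · rw [h2, hB2, if_pos ⟨hl, le_rfl⟩, pr_self, one_mul]

theorem sup_eq {lv : L → ℕ} {l : ℕ} {v : Finset L} (hle : ∀ x ∈ v, lv x ≤ l)
    (h : 1 ≤ (atL lv v l).card) : v.sup lv = l := by
  apply le_antisymm (Finset.sup_le hle)
  obtain ⟨x, hx⟩ := Finset.card_pos.1 (Nat.lt_of_lt_of_le Nat.zero_lt_one h)
  rw [mem_atL] at hx
  rw [← hx.2]
  exact Finset.le_sup hx.1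

/-- the terms of the tower are of the type `v` -/
theorem wt_tow {lv : L → ℕ} {c : ℕ → ℕ} (hc : ∀ l, 1 ≤ c l) :
    ∀ (l s : ℕ) (v : Finset L), Num lv c (l + 1) v → (atL lv v (l + 1)).card = s + 1 →
      ∃ n, WT lv (fun x => c (lv x)) v n (pw (tow P c l) s) := by
  intro l
  induction l with
  | zero =>
    intro s
    induction s with
    | zero =>
      intro v hv h1
      obtain ⟨x, hx⟩ := Finset.card_eq_one.1 h1
      have hx1 : x ∈ atL lv v 1 := by
        rw [show (1 : ℕ) = 0 + 1 from rfl, hx]; exact Finset.mem_singleton_self x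
      have hxv := mem_atL.1 hx1
      have e : v = {x} := by
        ext y
        rw [Finset.mem_singleton]
        constructor
        · intro hy
          have h2 := hv.pos y hy
          have h3 := hv.le y hy
          have : y ∈ atL lv v (0 + 1) := mem_atL.2 ⟨hy, by omega⟩
          rw [hx] at this
          exact Finset.mem_singleton.1 this
        · rintro rfl
          exact hxv.1
      rw [e]
      exact ⟨c 1, WT.lett x (c 1) hxv.2 (by rw [hxv.2])⟩
    | succ s ih =>
      intro v hv h1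
      obtain ⟨v₁, v₂, hd, hu, n₁, n₂, c₁, c₂⟩ := hv.split (by omega) (s + 1) 1 h1
      obtain ⟨a, ha⟩ := ih v₁ n₁ c₁
      have h0 : ∃ n, WT lv (fun x => c (lv x)) v₂ n (pw (tow P c 0) 0) := by
        obtain ⟨x, hx⟩ := Finset.card_eq_one.1 c₂
        have hx1 : x ∈ atL lv v₂ 1 := by
          rw [show (1 : ℕ) = 0 + 1 from rfl, hx]; exact Finset.mem_singleton_self x
        have hxv := mem_atL.1 hx1
        have e : v₂ = {x} := by
          ext y
          rw [Finset.mem_singleton]
          constructor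
          · intro hy
            have h2 := n₂.pos y hy
            have h3 := n₂.le y hy
            have : y ∈ atL lv v₂ (0 + 1) := mem_atL.2 ⟨hy, by omega⟩
            rw [hx] at this
            exact Finset.mem_singleton.1 this
          · rintro rfl
            exact hxv.1
        rw [e]
        exact ⟨c 1, WT.lett x (c 1) hxv.2 (by rw [hxv.2])⟩
      obtain ⟨b, hb⟩ := h0
      refine ⟨a + b, ?_⟩
      rw [← hu]
      have s1 := sup_eq n₁.le (by omega)
      have s2 := sup_eq n₂.le (by omega)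
      exact WT.br _ _ _ _ _ _ ha hb hd (by rw [s1, s2]) (by omega)
  | succ l ihl =>
    -- one block
    have one : ∀ v : Finset L, Num lv c (l + 1 + 1) v → (atL lv v (l + 1 + 1)).card = 1 →
        ∃ n, WT lv (fun x => c (lv x)) v n (pw (tow P c (l + 1)) 0) := by
      intro v hv h1
      obtain ⟨x, hx⟩ := Finset.card_eq_one.1 h1
      have hx1 : x ∈ atL lv v (l + 1 + 1) := by rw [hx]; exact Finset.mem_singleton_self x
      have hxv := mem_atL.1 hx1
      have ea : ∀ j, j ≠ l + 1 + 1 → atL lv (v.erase x) j = atL lv v j := by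
        intro j hj
        ext y
        rw [mem_atL, mem_atL, Finset.mem_erase]
        constructor
        · rintro ⟨⟨_, h⟩, h'⟩; exact ⟨h, h'⟩
        · rintro ⟨h, h'⟩
          refine ⟨⟨?_, h⟩, h'⟩
          rintro rfl
          exact hj (h'.symm.trans hxv.2)
      have hlt : ∀ y ∈ v.erase x, lv y < l + 1 + 1 := by
        intro y hy
        rw [Finset.mem_erase] at hy
        have h2 := hv.le y hy.2
        by_contra hcon
        have : y ∈ atL lv v (l + 1 + 1) := mem_atL.2 ⟨hy.2, by omega⟩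
        rw [hx] at this
        exact hy.1 (Finset.mem_singleton.1 this)
      have hn : Num lv c (l + 1) (v.erase x) := by
        refine ⟨fun y hy => hv.pos y (Finset.mem_of_mem_erase hy), fun y hy => ?_, fun j h1 h2 => ?_⟩
        · have := hlt y hy; omega
        · rw [ea j (by omega), ea (j + 1) (by omega)]
          exact hv.card j h1 (by omega)
      have hcd : (atL lv (v.erase x) (l + 1)).card = c (l + 2) - 1 + 1 := by
        rw [ea (l + 1) (by omega), hv.card (l + 1) (by omega) (by omega), h1, mul_one]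
        have h5 : 1 ≤ c (l + 1 + 1) := hc _
        change c (l + 1 + 1) = c (l + 1 + 1) - 1 + 1
        omega
      obtain ⟨n, hn'⟩ := ihl (c (l + 2) - 1) (v.erase x) hn hcd
      refine ⟨n, ?_⟩
      have e1 : lv x - 1 = l + 1 := by rw [hxv.2]; omega
      have := WT.up x (v.erase x) n _ hn' (by rw [hxv.2]; exact hlt) (by rw [e1, hcd]; omega)
        (by
          rw [e1, hcd]
          have h5 : 1 ≤ c (l + 1 + 1) := hc _
          change c (lv x) ≤ c (l + 1 + 1) - 1 + 1
          rw [hxv.2]; omega)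
      rw [Finset.insert_erase hxv.1] at this
      exact this
    intro s
    induction s with
    | zero =>
      intro v hv h1
      exact one v hv h1
    | succ s ih =>
      intro v hv h1
      obtain ⟨v₁, v₂, hd, hu, n₁, n₂, c₁, c₂⟩ := hv.split (by omega) (s + 1) 1 h1
      obtain ⟨a, ha⟩ := ih v₁ n₁ c₁
      obtain ⟨b, hb⟩ := one v₂ n₂ c₂
      refine ⟨a + b, ?_⟩
      rw [← hu]
      have s1 := sup_eq n₁.le (by omega)
      have s2 := sup_eq n₂.le (by omega)
      exact WT.br _ _ _ _ _ _ ha hb hd (by rw [s1, s2]) (by omega)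

end tree

/-! ### The constants -/

/-- numbers of labels, counted from the top level downwards (`m = c + 1`) -/
def kk (c k : ℕ) : ℕ → ℕ
  | 0 => k
  | j + 1 => (c + 1 + 2 * (c * kk c k j) * kk c k j) * kk c k j

/-- the bounds, counted from the top level downwards -/
def cc (c k j : ℕ) : ℕ := c + 1 + 2 * (c * kk c k j) * kk c k j

theorem kk_succ (c k j : ℕ) : kk c k (j + 1) = cc c k j * kk c k j := rfl

theorem cc_pos (c k j : ℕ) : 1 ≤ cc c k j := by
  unfold cc
  omega

/-- the type of labels with `k l` labels of level `l` for `1 ≤ l ≤ D` -/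
abbrev Lb (k : ℕ → ℕ) (D : ℕ) : Type := Σ l : Fin D, Fin (k (l.1 + 1))

/-- the level -/
def lvb (k : ℕ → ℕ) (D : ℕ) (x : Lb k D) : ℕ := x.1.1 + 1

theorem card_lvb (k : ℕ → ℕ) (D l : ℕ) (h1 : 1 ≤ l) (h2 : l ≤ D) :
    (atL (lvb k D) Finset.univ l).card = k l := by
  obtain ⟨i, rfl⟩ : ∃ i, l = i + 1 := ⟨l - 1, by omega⟩
  have e : atL (lvb k D) Finset.univ (i + 1) =
      (Finset.univ : Finset (Fin (k (i + 1)))).map
        ⟨fun j => (⟨⟨i, by omega⟩, j⟩ : Lb k D), fun a b h => by
          have := (Sigma.mk.inj_iff.1 h).2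
          exact eq_of_heq this⟩ := by
    ext x
    rw [mem_atL, Finset.mem_map]
    constructor
    · rintro ⟨_, hx⟩
      obtain ⟨⟨a, ha⟩, b⟩ := x
      have : a = i := by
        have h : a + 1 = i + 1 := hx
        omega
      subst this
      exact ⟨b, Finset.mem_univ _, rfl⟩
    · rintro ⟨b, _, rfl⟩
      exact ⟨Finset.mem_univ _, rfl⟩
  rw [e, Finset.card_map, Finset.card_univ, Fintype.card_fin]

/-- the final bound -/
def NN (c k D : ℕ) : ℕ := ∑ j ∈ Finset.range D, cc c k (D - (j + 1)) + k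

/-- from the vanishing of `A_t(Lab)[0]` to the bound for the derived length -/
theorem core44 (P : Type) [Group P] (D c k : ℕ) (hk : 1 ≤ k) (hD : 1 ≤ D)
    (h : ∀ (L : Type) [Fintype L] [DecidableEq L] (lv : L → ℕ) (E : ℕ → ℕ),
      (∀ x, 1 ≤ lv x) → (∀ x, lv x ≤ D) → k ≤ (atL lv Finset.univ D).card →
      (∀ l, 2 * (c * (atL lv Finset.univ l).card) ≤ E l) →
      ∀ t ∈ DOM lv (c + 1) E Finset.univ, Afam P lv t Finset.univ 0 = ⊥) :
    derivedSeries P (NN c k D) = ⊥ := by
  obtain ⟨D, rfl⟩ : ∃ i, D = i + 1 := ⟨D - 1, by omega⟩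
  set kf : ℕ → ℕ := fun l => kk c k (D + 1 - l) with hkf
  set cf : ℕ → ℕ := fun l => cc c k (D + 1 - l) with hcf
  set E : ℕ → ℕ := fun l => 2 * (c * kf l) with hE
  have hcard : ∀ l, 1 ≤ l → l ≤ D + 1 → (atL (lvb kf (D + 1)) Finset.univ l).card = kf l :=
    fun l h1 h2 => card_lvb kf (D + 1) l h1 h2
  have hlv : ∀ x, lvb kf (D + 1) x ≤ D + 1 := by
    rintro ⟨⟨a, ha⟩, b⟩
    change a + 1 ≤ D + 1
    omega
  have hlv1 : ∀ x, 1 ≤ lvb kf (D + 1) x := fun x => Nat.le_add_left 1 _
  have htop : kf (D + 1) = k := by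
    rw [hkf]
    change kk c k (D + 1 - (D + 1)) = k
    rw [Nat.sub_self]
    rfl
  have hEl : ∀ l, 2 * (c * (atL (lvb kf (D + 1)) Finset.univ l).card) ≤ E l := by
    intro l
    by_cases hl : 1 ≤ l ∧ l ≤ D + 1
    · rw [hcard l hl.1 hl.2]
    · have : atL (lvb kf (D + 1)) Finset.univ l = ∅ := by
        rw [Finset.eq_empty_iff_forall_notMem]
        intro x hx
        have h1 := (mem_atL.1 hx).2
        have h2 := hlv x
        have h3 := hlv1 x
        omega
      rw [this, Finset.card_empty, Nat.mul_zero, Nat.mul_zero]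
      exact Nat.zero_le _
  have hdom : (fun x => cf (lvb kf (D + 1) x)) ∈ DOM (lvb kf (D + 1)) (c + 1) E Finset.univ := by
    apply DOM_const
    intro x _
    rw [hcard _ (hlv1 x) (hlv x)]
    exact le_rfl
  have hz := h (Lb kf (D + 1)) (lvb kf (D + 1)) E hlv1 hlv
    (by rw [hcard (D + 1) (by omega) le_rfl, htop]) hEl _ hdom
  have hnum : Num (lvb kf (D + 1)) cf (D + 1) Finset.univ := by
    refine ⟨fun x _ => hlv1 x, fun x _ => hlv x, fun j h1 h2 => ?_⟩
    rw [hcard j h1 (by omega), hcard (j + 1) (by omega) (by omega)]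
    have e : D + 1 - j = (D + 1 - (j + 1)) + 1 := by omega
    change kk c k (D + 1 - j) = cc c k (D + 1 - (j + 1)) * kk c k (D + 1 - (j + 1))
    rw [e, kk_succ]
  obtain ⟨n, hn⟩ := wt_tow (P := P) (c := cf) (fun l => cc_pos _ _ _) D (k - 1) Finset.univ hnum
    (by rw [hcard (D + 1) (by omega) le_rfl, htop]; omega)
  have h1 : pw (tow P cf D) (k - 1) = ⊥ := by
    rw [eq_bot_iff, ← hz]
    exact Ty43.le_Afam hn (Nat.zero_le _)
  rw [eq_bot_iff, ← h1]
  refine le_trans (derivedSeries_antitone P ?_) (pw_derived (tow_derived cf D) (k - 1))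
  unfold NN
  exact Nat.add_le_add_left (Nat.sub_le _ _) _

end End44

open Pool.Agent.PX (dsg) in
/-- END -/
theorem end44 (hQ : Pool.Agent.DLB.StQ) : Pool.Agent.DA25.StPrD := by
  intro h d
  obtain ⟨c, R₀, hc⟩ := hQ h (max d 2) (le_max_right _ _)
  refine ⟨End44.NN c (R₀ + 1) (max d 2 - 1), ?_⟩
  intro r _ Γ P _ _ _ _ _ F H hr hF hH hC
  have hfix : dsg (Pool.Agent.DL17.Grp28.fix (P := P) H) (max d 2) = ⊥ := by
    have h1 : derivedSeries (Pool.Agent.DL17.Grp28.fix (P := P) H) (max d 2) = ⊥ := by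
      rw [eq_bot_iff, ← hC (Pool.Agent.DL17.Grp28.fix (P := P) H) (fun g => Iff.rfl)]
      exact derivedSeries_antitone _ (le_max_left _ _)
    have h2 : ∀ (A : Subgroup P) (k : ℕ), dsg A k = Pool.Agent.DA25.ds A k := by
      intro A k
      induction k with
      | zero => rfl
      | succ k ih =>
        change ⁅dsg A k, dsg A k⁆ = ⁅Pool.Agent.DA25.ds A k, Pool.Agent.DA25.ds A k⁆
        rw [ih]
    rw [h2]
    exact (Pool.Agent.DA25.ds_sub_bot _ _).1 h1
  apply End44.core44 P (max d 2 - 1) c (R₀ + 1) (by omega) (by omega)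
  intro L _ _ lv E h1 h2 h3 h4
  exact hc r Γ P L F H lv E hr hF hH hfix h1 h2 h3 h4

end DL78
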