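import Pool.Agent.Lib.MP_2b9f9a_al.DLB.CaseA7

/-!
# LAMBDA, part 4: few blocks (case b), LAMBDA, and the root
-/

set_option autoImplicit false

namespace Pool.Agent.DLB

open Pool.Agent.Lib.MP_2b9f9a_al
open Pool.Agent.DL17

/-- pairs whose set of labels of level `i` is `J` -/
def CB {Lab : Type} [DecidableEq Lab] (lv : Lab → ℕ) (i : ℕ) (J : Finset Lab) :
    ℕ × Finset Lab → Prop :=
  fun q => atL lv q.2 i = J ∧ q.2.sup lv = (if J = ∅ then i - 1 else i)

section foldl

variable {p : ℕ} {M Lab : Type} [LieRing M]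

/-- the action of a list -/
def fo (l : List (Finset Lab × ZMod p × M)) (x : M) : M := l.foldl (fun x e => ⁅x, e.2.2⁆) x

theorem fo_zero (l : List (Finset Lab × ZMod p × M)) : fo l (0 : M) = 0 := by
  induction l with
  | nil => rfl
  | cons e l ih =>
    unfold fo at ih ⊢
    rw [List.foldl_cons, zero_lie]; exact ih

theorem fo_add (l : List (Finset Lab × ZMod p × M)) : ∀ x y : M,
    fo l (x + y) = fo l x + fo l y := by
  induction l with
  | nil => intro x y; rfl
  | cons e l ih =>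
    intro x y
    unfold fo at ih ⊢
    rw [List.foldl_cons, List.foldl_cons, List.foldl_cons, add_lie]; exact ih _ _

theorem fo_neg (l : List (Finset Lab × ZMod p × M)) (x : M) : fo l (-x) = - fo l x := by
  have h := fo_add l x (-x)
  rw [add_neg_cancel, fo_zero] at h
  exact (neg_eq_of_add_eq_zero_right h.symm).symm

end foldl

section caseB

variable {p : ℕ} {M V Γ Lab : Type} [LieRing M] [AddCommGroup V] [Group Γ]
  [Fintype Γ]
  [DecidableEq Lab] {lv pp : Lab → ℕ} {c : ℕ} {τ : Γ →* (ZMod p)ˣ} {σ : Γ →* AddMonoid.End M}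
  {F : Idx Lab → Fam (ZMod p) M} {pf : ℕ → Finset Lab → Fam (ZMod p) M}
  {vf : ℕ → Finset Lab → ℕ → Lab → Fam (ZMod p) M} {G : ℕ → Idx Lab → ℕ → Set M}

/-- elements all of whose completions are killed -/
def ZJ (X : Finset Lab → Fam (ZMod p) M) (κ : M →+ V) (R J : Finset Lab) : AddSubgroup M where
  carrier := {x | ∀ l : List (Finset Lab × ZMod p × M),
    (∀ e ∈ l, e.1.Nonempty ∧ e.2.2 ∈ X e.1 e.2.1) →
    (l.map fun e => e.1.val).sum + J.val = R.val → κ (fo l x) = 0}
  zero_mem' := by intro l _ _; rw [fo_zero, map_zero]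
  add_mem' := by
    intro x y hx hy l h1 h2
    rw [fo_add, map_add, hx l h1 h2, hy l h1 h2, add_zero]
  neg_mem' := by
    intro x hx l h1 h2
    rw [fo_neg, map_neg, hx l h1 h2, neg_zero]

variable (D : LD lv pp c τ σ F pf vf G)

include D

/-- the anchor block after `k` reductions -/
theorem LD.genB {i : ℕ} {a : Lab} (hi : 1 ≤ i) (hpp : ∀ x, c < pp x) (hla : lv a = i) (k : ℕ) :
    ∀ lam, lam + k ≤ c → ∀ q : ℕ × Finset Lab, q.2.sup lv = i → a ∈ q.2 → atL lv q.2 i = {a} →
      vf q.1 q.2 lam a ≤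
        iter (SP pf vf (lam + k) a (CB lv i {a})) (SP pf vf (lam + k) a (CB lv i ∅)) k := by
  induction k with
  | zero =>
    intro lam _ q hq ha hat
    have h1 : CB lv i {a} q := ⟨hat, by rw [if_neg (Finset.singleton_ne_empty a)]; exact hq⟩
    have h2 := le_SP (pf := pf) (vf := vf) (lam := lam) (a := a) h1
    rw [PV_in ha] at h2
    exact h2
  | succ k ih =>
    intro lam hlam q hq ha hat b
    refine (D.gB q.1 q.2 lam a ha (by rw [hla, hq]) (by rw [hq]; exact hat) (by omega)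
      (hpp a) b).trans (iSup_le ?_)
    rintro ⟨⟨q₁, q₂⟩, hn, hd, hv, hs1, ha1, hs2⟩
    have hd' : Disjoint q₁.2 q₂.2 := hd
    have hv' : q₁.2 ∪ q₂.2 = q.2 := hv
    have hs1' : q₁.2.sup lv = i := hs1.trans hq
    have hs2' : q₂.2.sup lv = i - 1 := by
      have : q₂.2.sup lv = q.2.sup lv - 1 := hs2
      rw [this, hq]
    have e2 : atL lv q₂.2 i = ∅ := atL_empty (by omega)
    have e1 : atL lv q₁.2 i = {a} := by
      have := atL_union (lv := lv) q₁.2 q₂.2 i
      rw [hv', e2, Finset.union_empty, hat] at this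
      exact this.symm
    apply br_le
    rintro b c' x y rfl hx hy
    have h1 := ih (lam + 1) (by omega) q₁ hs1' ha1 e1 b hx
    have e3 : lam + 1 + k = lam + (k + 1) := by omega
    rw [e3] at h1
    refine mem_br h1 ?_
    have h2 : CB lv i ∅ q₂ := ⟨e2, by rw [if_pos rfl]; exact hs2'⟩
    have h3 := le_SP (pf := pf) (vf := vf) (lam := lam + (k + 1)) (a := a) h2
    rw [PV_out (fun h' => Finset.disjoint_left.mp hd' ha1 h')] at h3
    exact h3 _ hy

/-- all trees containing the anchor -/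
theorem LD.genC {i lam lam' : ℕ} {a : Lab} (hi : 1 ≤ i) (hl : lam ≤ c)
    (hla : lv a = i) {κ : M →+ V} {R : Finset Lab}
    (h0 : ∀ q : ℕ × Finset Lab, q.2.sup lv = i → a ∈ q.2 → atL lv q.2 i = {a} →
      ∀ b, vf q.1 q.2 lam a b ≤ ZJ (fun J => SP pf vf lam' a (CB lv i J)) κ R {a}) (s : ℕ) :
    ∀ q : ℕ × Finset Lab, q.2.sup lv = i → a ∈ q.2 → (atL lv q.2 i).card = s → ∀ b,
      vf q.1 q.2 lam a b ≤ ZJ (fun J => SP pf vf lam' a (CB lv i J)) κ R (atL lv q.2 i) := by
  induction s using Nat.strong_induction_on with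
  | _ s ih =>
    intro q hq ha hs b
    have h1 := Finset.card_pos.mpr (atL_pos hi hq)
    have haq : a ∈ atL lv q.2 i := Finset.mem_filter.mpr ⟨ha, hla⟩
    by_cases h2 : s = 1
    · subst h2
      have h3 : atL lv q.2 i = {a} := by
        obtain ⟨x, hx⟩ := Finset.card_eq_one.mp hs
        rw [hx, Finset.mem_singleton] at haq
        rw [hx, haq]
      rw [h3]
      exact h0 q hq ha h3 b
    · have h3 : 2 ≤ (atL lv q.2 (q.2.sup lv)).card := by rw [hq]; omega
      refine (D.gA q.1 q.2 lam a ha (by rw [hla, hq]) h3 hl b).trans (iSup_le ?_)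
      rintro ⟨⟨q₁, q₂⟩, hn, hd, hv, hs1, hs2, ha1⟩
      have hd' : Disjoint q₁.2 q₂.2 := hd
      have hv' : q₁.2 ∪ q₂.2 = q.2 := hv
      have hs1' : q₁.2.sup lv = i := hs1.trans hq
      have hs2' : q₂.2.sup lv = i := hs2.trans hq
      have c1 := Finset.card_pos.mpr (atL_pos hi hs1')
      have n2 := atL_pos hi hs2'
      have c2 := Finset.card_pos.mpr n2
      have c3 := atL_card (lv := lv) hd' i
      rw [hv', hs] at c3
      apply br_le
      rintro b c' x y rfl hx hy
      have x1 := ih _ (by omega) q₁ hs1' ha1 rfl b hx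
      intro l hl1 hl2
      refine x1 ((atL lv q₂.2 i, c', y) :: l) ?_ ?_
      · intro e he
        rcases List.mem_cons.mp he with rfl | he
        · refine ⟨n2, ?_⟩
          have h4 : CB lv i (atL lv q₂.2 i) q₂ :=
            ⟨rfl, by rw [if_neg (Finset.nonempty_iff_ne_empty.mp n2)]; exact hs2'⟩
          have h5 := le_SP (pf := pf) (vf := vf) (lam := lam') (a := a) h4
          rw [PV_out (fun h' => Finset.disjoint_left.mp hd' ha1 h')] at h5
          exact h5 _ hy
        · exact hl1 e he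
      · rw [List.map_cons, List.sum_cons]
        have e4 : (atL lv q₁.2 i).val + (atL lv q₂.2 i).val = (atL lv q.2 i).val := by
          rw [← hv', atL_union, Finset.union_val]
          exact Multiset.add_eq_union_iff_disjoint.mpr
            (Finset.disjoint_val.mpr (atL_disj hd' i))
        rw [← hl2, ← e4]
        change (atL lv q₂.2 i).val + (l.map fun e => e.1.val).sum + (atL lv q₁.2 i).val = _
        abel

end caseB

/-- case (b), one step in the number of blocks -/
theorem lamB (hA : StLemA) {h i j N R M₁ lam₁ M₂ lam₂ M₃ lam₃ : ℕ} (hi : 1 ≤ i)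
    (hX : Lam h i j (h * N) M₁ lam₁ (fun _ => True))
    (hU : (j = 0 ∧ M₂ = h) ∨ (1 ≤ i - 1 ∧ Lam h (i - 1) j (h * N * M₁) M₂ lam₂ (fun _ => True)))
    (hR : Lam h i (j + 1) (h * N) M₃ lam₃ (fun k => k ≤ R)) :
    ∃ q : ℕ, Lam h i (j + 1) N (max (M₁ * M₂) (M₃ * h)) (q + (lam₁ + lam₂ + lam₃))
      (fun k => k ≤ R + 1) := by
  obtain ⟨q₀, hq₀⟩ := hA h (h * N) (R + 1)
  refine ⟨q₀, ?_⟩
  intro p _ M V Γ Lab _ _ _ _ _ lv pp c τ σ F pf vf G κ S n v a lam hcard hpp D hS hsup ha hla
    hP hlam hK b ξ hξ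
  obtain ⟨S', hS'c, hS'⟩ := exists_S1 τ S
  have hh : 1 ≤ h := by rw [← hcard]; exact Fintype.card_pos
  have hNh : N ≤ h * N := Nat.le_mul_of_pos_left N hh
  set lam' := lam + q₀ with hlam'
  have hl : lam ≤ c := by omega
  have hl' : lam' ≤ c := by omega
  have hK1 : KD F G n v a S (j + 1) (M₁ * M₂) κ :=
    ⟨hK.comp, hK.supp, fun x hx => hK.kill x (D.tmono _ _ _ _ (le_max_left _ _) hx)⟩
  have hK3 : KD F G n v a S (j + 1) (M₃ * h) κ :=
    ⟨hK.comp, hK.supp, fun x hx => hK.kill x (D.tmono _ _ _ _ (le_max_right _ _) hx)⟩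
  set R' := atL lv v i with hR'
  have haR : a ∈ R' := Finset.mem_filter.mpr ⟨ha, hla⟩
  set X : Finset Lab → Fam (ZMod p) M := fun J => SP pf vf lam' a (CB lv i J) with hXdef
  have tr0 : tr σ (0 : M) = 0 := by unfold tr; simp
  have trA : ∀ x y : M, tr σ (x + y) = tr σ x + tr σ y := fun x y => map_add (trHom2 σ) x y
  have hin : ∀ J, a ∈ J → ∀ q, CB lv i J q → a ∈ q.2 ∧ q.2.sup lv = i := by
    intro J haJ q hq
    have h1 : a ∈ atL lv q.2 i := by rw [hq.1]; exact haJ
    refine ⟨(Finset.mem_filter.mp h1).1, ?_⟩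
    have h2 := hq.2
    rw [if_neg (Finset.nonempty_iff_ne_empty.mp ⟨a, haJ⟩)] at h2
    exact h2
  have hout : ∀ J, a ∉ J → ∀ q, CB lv i J q → a ∉ q.2 := by
    intro J haJ q hq h'
    apply haJ
    rw [← hq.1]
    exact Finset.mem_filter.mpr ⟨h', hla⟩
  -- k1
  have k1 : ∀ a' b x u, x ∈ X R' a' → u ∈ X ∅ b → (κ.comp (trHom2 σ)) ⁅x, tr σ u⁆ = 0 := by
    intro b b' x u hx hu
    rw [AddMonoidHom.comp_apply, trHom2_apply, tr_lie2 D.lieσ]
    refine SP_bil (fun x u => κ ⁅tr σ x, tr σ u⁆ = 0) ?_ ?_ ?_ ?_ ?_ hx hu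
    · intro q q' hq hq' x hx u hu
      by_cases hd : Disjoint q.2 q'.2
      · by_cases hI : IX a q + IX a q' = (n, v.val, {a})
        · obtain ⟨e1, e2, _⟩ := idx_eq D hd hI
          obtain ⟨haq, hsq⟩ := hin R' haR q hq
          have haq' := hout ∅ (Finset.notMem_empty a) q' hq'
          rw [PV_in haq] at hx
          rw [PV_out haq'] at hu
          have hs' : q'.2.sup lv = i - 1 := by
            have := hq'.2
            rw [if_pos rfl] at this
            exact this
          refine D.stepX hX hcard hpp hS hK1 hd e1 e2 (D.pfF _ _ _ hu) hsq haq hla trivial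
            (by omega) ?_ b x hx
          intro w hw
          rcases hU with ⟨hj, hM⟩ | ⟨hi1, hU⟩
          · subst hj
            have hK1' : KD F G n v a S 1 (M₁ * h) κ := by rw [hM] at hK1; exact hK1
            exact D.stepU0 hcard hK1' hd e1 e2 hw b' u hu
          · exact D.stepU hU hcard hpp (hS.trans hNh) hK1 hd e1 e2 hi1 hs' (by omega) hw b' u hu
        · exact D.comp_zero hK hI (D.PVF hl' q b hx) (D.PVF hl' q' b' hu)
      · exact D.nd_zero hl' hd hx hu
    · intro y; rw [tr0, zero_lie, map_zero]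
    · intro x; rw [tr0, lie_zero, map_zero]
    · intro x x' y hx hx'; rw [trA, add_lie, map_add, hx, hx', add_zero]
    · intro x y y' hy hy'; rw [trA, lie_add, map_add, hy, hy', add_zero]
  -- k2
  have k2 : ∀ I J, I ∪ J = R' → Disjoint I J → a ∈ I → J.Nonempty →
      ∀ a' b x z, x ∈ X I a' → z ∈ X J b → (κ.comp (trHom2 σ)) ⁅x, tr σ z⁆ = 0 := by
    intro I J hIJ hdIJ haI hJ b b' x u hx hu
    rw [AddMonoidHom.comp_apply, trHom2_apply, tr_lie2 D.lieσ]
    refine SP_bil (fun x u => κ ⁅tr σ x, tr σ u⁆ = 0) ?_ ?_ ?_ ?_ ?_ hx hu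
    · intro q q' hq hq' x hx u hu
      by_cases hd : Disjoint q.2 q'.2
      · by_cases hI : IX a q + IX a q' = (n, v.val, {a})
        · obtain ⟨e1, e2, _⟩ := idx_eq D hd hI
          obtain ⟨haq, hsq⟩ := hin I haI q hq
          have haq' := hout J (fun h' => Finset.disjoint_left.mp hdIJ haI h') q' hq'
          rw [PV_in haq] at hx
          rw [PV_out haq'] at hu
          have hcI : (atL lv q.2 i).card ≤ R := by
            rw [hq.1]
            have h1 : (I ∪ J).card = I.card + J.card := Finset.card_union_of_disjoint hdIJ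
            rw [hIJ] at h1
            have h2 := Finset.card_pos.mpr hJ
            have h3 : R'.card ≤ R + 1 := hP
            omega
          refine D.stepX hR hcard hpp hS hK3 hd e1 e2 (D.pfF _ _ _ hu) hsq haq hla hcI
            (by omega) ?_ b x hx
          intro w hw
          have h2 := D.t0 _ _ u (D.pfF _ _ _ hu)
          rw [hcard] at h2
          have h1 := D.t2 _ _ _ _ _ _ hw _ h2
          rw [idx_add hd, e1, e2, add_zero] at h1
          exact hK3.kill _ h1
        · exact D.comp_zero hK hI (D.PVF hl' q b hx) (D.PVF hl' q' b' hu)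
      · exact D.nd_zero hl' hd hx hu
    · intro y; rw [tr0, zero_lie, map_zero]
    · intro x; rw [tr0, lie_zero, map_zero]
    · intro x x' y hx hx'; rw [trA, add_lie, map_add, hx, hx', add_zero]
    · intro x y y' hy hy'; rw [trA, lie_add, map_add, hy, hy', add_zero]
  -- LemmaA
  have hlem := hq₀ p M V Γ Lab S' τ σ X (κ.comp (trHom2 σ)) R' a hcard
    (hS'c.trans (by rw [hcard]; exact Nat.mul_le_mul le_rfl hS)) hP haR D.inj
    (fun J _ => D.actSP lam' a _) (fun J _ => D.zeroSP hl' _)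
    (by
      intro I J _ _ hdIJ a' b' x y hx hy
      refine D.SP_lie hl' ?_ hx hy
      intro q q' hq hq' hd
      refine ⟨?_, ?_⟩
      · change atL lv (q.2 ∪ q'.2) i = I ∪ J
        rw [atL_union, hq.1, hq'.1]
      · change (q.2 ∪ q'.2).sup lv = _
        rw [Finset.sup_union, hq.2, hq'.2]
        by_cases h1 : I = ∅
        · by_cases h2 : J = ∅
          · rw [if_pos h1, if_pos h2, if_pos (by rw [h1, h2, Finset.union_empty]), sup_idem]
          · rw [if_pos h1, if_neg h2, if_neg (fun h3 => h2 (Finset.union_eq_empty.mp h3).2)]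
            change max (i - 1) i = i
            omega
        · by_cases h2 : J = ∅
          · rw [if_neg h1, if_pos h2, if_neg (fun h3 => h1 (Finset.union_eq_empty.mp h3).1)]
            change max i (i - 1) = i
            omega
          · rw [if_neg h1, if_neg h2, if_neg (fun h3 => h1 (Finset.union_eq_empty.mp h3).1),
              sup_idem])
    (by
      intro b hb x hx
      have h3 : X R' b ≤ (κ.comp (trHom2 σ)).ker := by
        apply SP_le
        intro q _ x hx
        rw [AddMonoidHom.mem_ker]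
        exact D.tr_supp hK (hS' b hb) (D.PVF hl' q b hx)
      exact AddMonoidHom.mem_ker.mp (h3 hx))
    k1 k2
  -- generation
  have h0 : ∀ q : ℕ × Finset Lab, q.2.sup lv = i → a ∈ q.2 → atL lv q.2 i = {a} →
      ∀ b, vf q.1 q.2 lam a b ≤ ZJ X (κ.comp (trHom2 σ)) R' {a} := by
    intro q hq haq hat b x hx l hl1 hl2
    have h1 := D.genB hi hpp hla q₀ lam hl' q hq haq hat b hx
    exact hlem l hl1 hl2 b x h1
  have h1 := D.genC hi hl hla h0 _ (n, v) hsup ha rfl b hξ
  exact h1 [] (by simp) (by simp [hR'])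

/-- **LAMBDA** -/
theorem lamAll (hDC : StDC) (hA : StLemA) (h j : ℕ) : ∀ i N : ℕ, 1 ≤ i → j ≤ i →
    ∃ M₀ lam₀ : ℕ, Lam h i j N M₀ lam₀ (fun _ => True) := by
  induction j with
  | zero =>
    intro i N _ _
    refine ⟨h, 0, ?_⟩
    intro p _ M V Γ Lab _ _ _ _ _ lv pp c τ σ F pf vf G κ S n v a lam hcard hpp D hS hsup ha hla
      hP hlam hK b ξ hξ
    have h1 := D.t0 _ _ ξ (D.vfF _ _ _ _ ha (by omega) _ hξ)
    rw [hcard] at h1
    exact hK.kill _ h1
  | succ j ih =>
    intro i N hi hj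
    -- case (a)
    obtain ⟨M₁, lam₁, hX⟩ := ih i (h * N) hi (by omega)
    obtain ⟨M₂, lam₂, hU⟩ := ih i (N * M₁) hi (by omega)
    obtain ⟨R₀, hAA⟩ := lamA hDC hi hX hU
    -- case (b)
    have hB : ∀ R N : ℕ, ∃ M₀ lam₀ : ℕ, Lam h i (j + 1) N M₀ lam₀ (fun k => k ≤ R) := by
      intro R
      induction R with
      | zero =>
        intro N
        refine ⟨0, 0, ?_⟩
        intro p _ M V Γ Lab _ _ _ _ _ lv pp c τ σ F pf vf G κ S n v a lam hcard hpp D hS hsup ha
          hla hP hlam hK b ξ hξ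
        exfalso
        have h1 : a ∈ atL lv v i := Finset.mem_filter.mpr ⟨ha, hla⟩
        have h2 := Finset.card_pos.mpr ⟨a, h1⟩
        have h3 : (atL lv v i).card ≤ 0 := hP
        omega
      | succ R ihR =>
        intro N
        obtain ⟨M₁, lam₁, hX⟩ := ih i (h * N) hi (by omega)
        obtain ⟨M₃, lam₃, hR⟩ := ihR (h * N)
        by_cases hj0 : j = 0
        · obtain ⟨q, hq⟩ := lamB hA (M₂ := h) (lam₂ := 0) hi hX (Or.inl ⟨hj0, rfl⟩) hR
          exact ⟨_, _, hq⟩
        · obtain ⟨M₂, lam₂, hU⟩ := ih (i - 1) (h * N * M₁) (by omega) (by omega)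
          obtain ⟨q, hq⟩ := lamB hA hi hX (Or.inr ⟨by omega, hU⟩) hR
          exact ⟨_, _, hq⟩
    obtain ⟨M₄, lam₄, hBB⟩ := hB R₀ N
    refine ⟨max (M₁ * M₂) M₄, max (max lam₁ lam₂) lam₄, ?_⟩
    have hA' := hAA.mono (le_max_left _ M₄) (le_max_left _ lam₄)
    have hB' := hBB.mono (le_max_right (M₁ * M₂) _) (le_max_right (max lam₁ lam₂) _)
    intro p _ M V Γ Lab _ _ _ _ _ lv pp c τ σ F pf vf G κ S n v a lam hcard hpp D hS hsup ha hla
      hP hlam hK b ξ hξ
    by_cases hc : R₀ < (atL lv v i).card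
    · exact hA' p M V Γ Lab lv pp c τ σ F pf vf G κ S n v a lam hcard hpp D hS hsup ha hla hc
        hlam hK b ξ hξ
    · exact hB' p M V Γ Lab lv pp c τ σ F pf vf G κ S n v a lam hcard hpp D hS hsup ha hla
        (Nat.le_of_not_lt hc) hlam hK b ξ hξ

/-- **The abstract theorem** (LAMBDA' and the root). -/
theorem stLam_7 (hDC : StDC) (hA : StLemA) : StLam := by
  intro h D₀ hD₀
  obtain ⟨M₁, lam₁, hX⟩ := lamAll hDC hA h D₀ D₀ (h * 1) hD₀ le_rfl
  obtain ⟨M₂, lam₂, hU⟩ := lamAll hDC hA h D₀ D₀ (1 * M₁) hD₀ le_rfl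
  obtain ⟨R₀, hR₀⟩ := lamA hDC hD₀ hX hU
  refine ⟨max lam₁ lam₂, R₀, ?_⟩
  intro p _ M Γ Lab _ _ _ _ lv pp c τ σ F pf vf G hcard hc hpp D hG n v a hsup ha hla hR b x hx
  obtain ⟨V, _, κ, hκ1, hκ2, hκ3⟩ := D.prj (n, v.val, {a}) b
  have hxF := D.vfF n v 0 a ha (by omega) b hx
  by_cases hb : b = 0
  · subst hb
    exact D.zero _ x hxF
  have key := hR₀ p M V Γ Lab lv pp c τ σ F pf vf G κ {b} n v a 0 hcard hpp D (by simp) hsup ha
    hla hR (by omega)
    ⟨hκ1, fun b' hb' x hx => hκ2 b' (fun h => hb' (by rw [h]; exact Finset.mem_singleton_self b))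
      x hx, fun x hx => by rw [hG _ _ x hx, map_zero]⟩ b x hx
  apply hκ3 x hxF
  rw [← key]
  unfold tr
  rw [map_sum, Finset.sum_eq_single (1 : Γ)]
  · rw [map_one]; rfl
  · intro g _ hg
    refine hκ2 _ ?_ _ ((D.actF _).map g b x hxF)
    intro h0
    apply hg
    apply D.inj
    rw [map_one]
    apply Units.ext
    have h1 : (((τ g : (ZMod p)ˣ) : ZMod p) - 1) * b = 0 := by rw [sub_mul, h0, one_mul, sub_self]
    rcases mul_eq_zero.mp h1 with h2 | h2
    · rw [Units.val_one]; exact sub_eq_zero.mp h2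
    · exact absurd h2 hb
  · intro h1; exact absurd (Finset.mem_univ _) h1

end Pool.Agent.DLB
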