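import Pool.Agent.Lib.MP_2b9f9a_al.DL.LemA22
import Pool.Agent.Lib.MP_2b9f9a_al.DLB.Int7

/-!
# LemmaA in the form of the interface `Int7`
-/

set_option autoImplicit false

namespace Pool.Agent.DLB

open Pool.Agent.Lib.MP_2b9f9a_al
open Pool.Agent.DL17 Pool.Agent.DL17.LemA22

theorem adm_of_sum22 {p : ℕ} {M Lab : Type} [LieRing M] [DecidableEq Lab]
    {X : Finset Lab → Fam (ZMod p) M} {R : Finset Lab} :
    ∀ (l : List (Finset Lab × ZMod p × M)) (I : Finset Lab),
      (∀ e ∈ l, e.2.2 ∈ X e.1 e.2.1) → (l.map fun e => e.1.val).sum + I.val = R.val →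
      Adm X l I R := by
  intro l
  induction l with
  | nil =>
    intro I _ h
    rw [List.map_nil, List.sum_nil, zero_add] at h
    exact Finset.val_inj.mp h
  | cons e l ih =>
    intro I hl h
    rw [List.map_cons, List.sum_cons] at h
    have hle : I.val + e.1.val ≤ R.val := by
      rw [← h]
      have : e.1.val + (l.map fun e => e.1.val).sum + I.val
          = (I.val + e.1.val) + (l.map fun e => e.1.val).sum := by
        rw [add_comm, add_assoc]
      rw [this]
      exact Multiset.le_add_right _ _
    have hnd : (I.val + e.1.val).Nodup := Multiset.nodup_of_le hle R.nodup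
    have hd : Disjoint I e.1 := by
      rw [Finset.disjoint_left]
      intro x hx hx'
      exact (Multiset.disjoint_left.mp (Multiset.nodup_add.mp hnd).2.2) hx hx'
    refine ⟨hd, hl e List.mem_cons_self, ?_⟩
    apply ih (I ∪ e.1) (fun e' he' => hl e' (List.mem_cons_of_mem _ he'))
    have hv : (I ∪ e.1).val = I.val + e.1.val := by
      rw [← Finset.disjUnion_eq_union I e.1 hd]
      rfl
    rw [hv, ← h, add_comm (I.val), ← add_assoc, add_comm _ e.1.val]

/-- LemmaA. -/
theorem stLemA_22 (hDC : StDC) : Pool.Agent.DLB.StLemA := by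
  intro h N r
  obtain ⟨q, hq⟩ := Pool.Agent.DL17.stLemA_22 hDC h N r
  refine ⟨q, ?_⟩
  intro p _ M V Γ Lab _ _ _ _ _ S τ σ X κ R l₀ hh hS hR hl₀ hinj hact hzero hlie hsupp hk1 hk2
    l hl hsum b ξ hξ
  have hLA : LA S τ σ X κ R l₀ :=
    { mem := hl₀
      inj := hinj
      slie := (hact ∅ (Finset.empty_subset _)).lie
      smap := fun g I hI a x hx => (hact I hI).map g a x hx
      zero := hzero
      lie := hlie
      supp := hsupp
      kill := by
        intro I J hIJ hR hI a b x z hx hz
        rcases Finset.eq_empty_or_nonempty J with hJ | hJ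
        · subst hJ
          rw [Finset.union_empty] at hR
          subst hR
          exact hk1 a b x z hx hz
        · exact hk2 I J hR hIJ hI hJ a b x z hx hz }
  have hadm : Adm X l {l₀} R := by
    apply adm_of_sum22 l {l₀} (fun e he => (hl e he).2)
    rw [Finset.singleton_val]
    exact hsum
  exact hq p M V Γ Lab S τ σ X κ R l₀ hh hS hR hLA l hadm (fun e he => (hl e he).1) b ξ hξ

end Pool.Agent.DLB
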