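import Pool.Agent.Lib.MP_2b9f9a_al.DLB.Root50
import Pool.Agent.Lib.MP_2b9f9a_al.DLB.End44
import Pool.Agent.Lib.MP_2b9f9a_al.DLB.LemA_22
import Pool.Agent.Lib.MP_2b9f9a_al.DLB.Lam7
import Pool.Agent.Lib.MP_2b9f9a_al.DL.All17

/-!
# DL78 (MP_2b9f9a): the assembly
-/

set_option autoImplicit false

namespace Pool.Agent.DLB

open Pool.Agent.DL17

theorem stLam : StLam := stLam_7 dc (stLemA_22 dc)

/-- Everything except the Lie ring. -/
theorem stPrD_50 (hRing : StRing) : DA25.StPrD :=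
  _root_.DL78.end44 (stQ_50 PX.stFpf_28 hRing stLam)

end Pool.Agent.DLB
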