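import Pool.Agent.Lib.MP_2b9f9a_al.DLB.Step7

/-!
# LAMBDA, part 3: many blocks (case a)
-/

set_option autoImplicit false

namespace Pool.Agent.DLB

open Pool.Agent.Lib.MP_2b9f9a_al
open Pool.Agent.DL17

section comb

variable {Lab : Type} [DecidableEq Lab] {lv : Lab → ℕ}

theorem atL_union (v v' : Finset Lab) (i : ℕ) : atL lv (v ∪ v') i = atL lv v i ∪ atL lv v' i :=
  Finset.filter_union _ _ _

theorem atL_disj {v v' : Finset Lab} (hd : Disjoint v v') (i : ℕ) :
    Disjoint (atL lv v i) (atL lv v' i) :=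
  Finset.disjoint_filter_filter hd

theorem atL_card {v v' : Finset Lab} (hd : Disjoint v v') (i : ℕ) :
    (atL lv (v ∪ v') i).card = (atL lv v i).card + (atL lv v' i).card := by
  rw [atL_union, Finset.card_union_of_disjoint (atL_disj hd i)]

omit [DecidableEq Lab] in
theorem atL_pos {v : Finset Lab} {i : ℕ} (hi : 1 ≤ i) (h : v.sup lv = i) :
    (atL lv v i).Nonempty := by
  have h1 : v.Nonempty := by
    rw [Finset.nonempty_iff_ne_empty]
    rintro rfl
    simp at h
    omega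
  obtain ⟨x, hx, hx'⟩ := Finset.exists_mem_eq_sup v h1 lv
  exact ⟨x, Finset.mem_filter.mpr ⟨hx, by rw [← hx', h]⟩⟩

omit [DecidableEq Lab] in
theorem atL_empty {v : Finset Lab} {i : ℕ} (h : v.sup lv < i) : atL lv v i = ∅ := by
  unfold atL
  rw [Finset.filter_eq_empty_iff]
  intro x hx h'
  have := Finset.le_sup (f := lv) hx
  omega

end comb

/-- all pairs of level `i` -/
def CA {Lab : Type} (lv : Lab → ℕ) (i : ℕ) : ℕ × Finset Lab → Prop := fun q => q.2.sup lv = i

section caseA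

variable {p : ℕ} {M V Γ Lab : Type} [LieRing M] [AddCommGroup V] [Group Γ]
  [Fintype Γ]
  [DecidableEq Lab] {lv pp : Lab → ℕ} {c : ℕ} {τ : Γ →* (ZMod p)ˣ} {σ : Γ →* AddMonoid.End M}
  {F : Idx Lab → Fam (ZMod p) M} {pf : ℕ → Finset Lab → Fam (ZMod p) M}
  {vf : ℕ → Finset Lab → ℕ → Lab → Fam (ZMod p) M} {G : ℕ → Idx Lab → ℕ → Set M}
  (D : LD lv pp c τ σ F pf vf G)

theorem tr_br {κ : M →+ V} {x y : M} (h : ∀ g g' : Γ, κ ⁅σ g x, σ g' y⁆ = 0) :
    κ ⁅tr σ x, tr σ y⁆ = 0 := by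
  rw [lie_tr, map_sum]
  apply Finset.sum_eq_zero
  intro g' _
  have h1 : ⁅tr σ x, σ g' y⁆ = ∑ g : Γ, ⁅σ g x, σ g' y⁆ := by
    unfold tr
    exact sum_lie _ _ _
  rw [h1, map_sum]
  exact Finset.sum_eq_zero (fun g _ => h g g')

include D

theorem LD.comp_zero {n : ℕ} {v : Finset Lab} {a : Lab} {S : Finset (ZMod p)} {j M₀ : ℕ}
    {κ : M →+ V} (hK : KD F G n v a S j M₀ κ) {I I' : Idx Lab} (hI : I + I' ≠ (n, v.val, {a}))
    {b b' : ZMod p} {x y : M} (hx : x ∈ F I b) (hy : y ∈ F I' b') :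
    κ ⁅tr σ x, tr σ y⁆ = 0 := by
  apply tr_br
  intro g g'
  exact hK.comp _ hI _ _ (D.lie _ _ _ _ _ _ ((D.actF I).map g b x hx)
    ((D.actF I').map g' b' y hy))

theorem LD.nd_zero {lam : ℕ} {a : Lab} (hl : lam ≤ c) {κ : M →+ V} {q q' : ℕ × Finset Lab}
    (hd : ¬ Disjoint q.2 q'.2) {b b' : ZMod p} {x y : M} (hx : x ∈ PV pf vf lam a q b)
    (hy : y ∈ PV pf vf lam a q' b') : κ ⁅tr σ x, tr σ y⁆ = 0 := by
  apply tr_br
  intro g g'
  rw [D.PV_lie_zero hl hl hd ((D.actPV lam a q).map g b x hx)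
    ((D.actPV lam a q').map g' b' y hy), map_zero]

/-- the index equation -/
theorem idx_eq {q q' : ℕ × Finset Lab} (hd : Disjoint q.2 q'.2) {n : ℕ} {v : Finset Lab}
    {a : Lab} (h : IX a q + IX a q' = (n, v.val, {a})) :
    q.1 + q'.1 = n ∧ q.2 ∪ q'.2 = v ∧ (a ∈ q.2 ∨ a ∈ q'.2) := by
  have h1 : IX a q + IX a q' = (q.1 + q'.1, (q.2 ∪ q'.2).val,
      (if a ∈ q.2 then {a} else 0) + (if a ∈ q'.2 then {a} else 0)) := idx_add hd
  rw [h1, Prod.mk.injEq, Prod.mk.injEq] at h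
  refine ⟨h.1, Finset.val_injective h.2.1, ?_⟩
  by_contra h0
  rw [not_or] at h0
  have h2 := h.2.2
  rw [if_neg h0.1, if_neg h0.2, add_zero] at h2
  exact absurd h2.symm (Multiset.singleton_ne_zero a)

theorem LD.genA {i lam : ℕ} {a : Lab} (hi : 1 ≤ i) (hl : lam ≤ c) (hla : lv a = i) (s : ℕ) :
    ∀ q : ℕ × Finset Lab, q.2.sup lv = i → (atL lv q.2 i).card = s →
      PV pf vf lam a q ≤ iter (SP pf vf lam a (CA lv i)) (SP pf vf lam a (CA lv i)) (s - 1) := by
  induction s using Nat.strong_induction_on with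
  | _ s ih =>
    intro q hq hs
    have h1 := Finset.card_pos.mpr (atL_pos hi hq)
    by_cases h2 : s = 1
    · subst h2
      exact le_SP hq
    · have h3 : 2 ≤ (atL lv q.2 (q.2.sup lv)).card := by rw [hq]; omega
      have key : ∀ q₁ q₂ : ℕ × Finset Lab, q₁.1 + q₂.1 = q.1 → Disjoint q₁.2 q₂.2 →
          q₁.2 ∪ q₂.2 = q.2 → q₁.2.sup lv = i → q₂.2.sup lv = i → ∀ b c x y, b + c = b + c →
          x ∈ PV pf vf lam a q₁ b → y ∈ PV pf vf lam a q₂ c →
          ⁅x, y⁆ ∈ iter (SP pf vf lam a (CA lv i)) (SP pf vf lam a (CA lv i)) (s - 1)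
            (b + c) := by
        intro q₁ q₂ hn hd hv hs1 hs2 b c x y _ hx hy
        have c1 := Finset.card_pos.mpr (atL_pos hi hs1)
        have c2 := Finset.card_pos.mpr (atL_pos hi hs2)
        have c3 := atL_card (lv := lv) hd i
        rw [hv, hs] at c3
        have x1 := ih _ (by omega) q₁ hs1 rfl b hx
        have y1 := ih _ (by omega) q₂ hs2 rfl c hy
        have z1 := iter_lie _ _ _ _ _ _ x1 y1
        have e : (atL lv q₁.2 i).card - 1 + ((atL lv q₂.2 i).card - 1) + 1 = s - 1 := by omega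
        rw [e] at z1
        exact z1
      intro b
      by_cases ha : a ∈ q.2
      · rw [PV_in ha]
        refine (D.gA q.1 q.2 lam a ha (by rw [hla, hq]) h3 hl b).trans (iSup_le ?_)
        rintro ⟨⟨q₁, q₂⟩, hn, hd, hv, hs1, hs2, ha1⟩
        apply br_le
        rintro b c x y rfl hx hy
        refine key q₁ q₂ hn hd hv (hs1.trans hq) (hs2.trans hq) b c x y rfl ?_ ?_
        · rw [PV_in ha1]; exact hx
        · rw [PV_out (fun h' => Finset.disjoint_left.mp hd ha1 h')]; exact hy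
      · rw [PV_out ha]
        refine (D.gA' q.1 q.2 h3 (by omega) b).trans (iSup_le ?_)
        rintro ⟨⟨q₁, q₂⟩, hn, hd, hv, hs1, hs2⟩
        apply br_le
        rintro b c x y rfl hx hy
        have hv' : q₁.2 ∪ q₂.2 = q.2 := hv
        refine key q₁ q₂ hn hd hv (hs1.trans hq) (hs2.trans hq) b c x y rfl ?_ ?_
        · rw [PV_out (fun h' => ha (by rw [← hv']; exact Finset.mem_union_left _ h'))]; exact hx
        · rw [PV_out (fun h' => ha (by rw [← hv']; exact Finset.mem_union_right _ h'))]; exact hy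

end caseA

/-- case (a) -/
theorem lamA (hDC : StDC) {h i j N M₁ lam₁ M₂ lam₂ : ℕ} (hi : 1 ≤ i)
    (hX : Lam h i j (h * N) M₁ lam₁ (fun _ => True))
    (hU : Lam h i j (N * M₁) M₂ lam₂ (fun _ => True)) :
    ∃ R₀ : ℕ, Lam h i (j + 1) N (M₁ * M₂) (max lam₁ lam₂) (fun k => R₀ < k) := by
  obtain ⟨R₀, hR₀⟩ := hDC h (h * N)
  refine ⟨R₀, ?_⟩
  intro p _ M V Γ Lab _ _ _ _ _ lv pp c τ σ F pf vf G κ S n v a lam hcard hpp D hS hsup ha hla
    hP hlam hK b ξ hξ
  obtain ⟨S', hS'c, hS'⟩ := exists_S1 τ S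
  have hl : lam ≤ c := by omega
  have h1 : lam + lam₁ ≤ c := (Nat.add_le_add_left (le_max_left _ _) _).trans hlam
  have h2 : lam₂ ≤ c := by
    have := (Nat.add_le_add_left (le_max_right lam₁ lam₂) lam).trans hlam
    omega
  set T := SP pf vf lam a (CA lv i) with hT
  -- one anchor inside the first factor
  have key1 : ∀ q q' : ℕ × Finset Lab, q.2.sup lv = i → q'.2.sup lv = i → Disjoint q.2 q'.2 →
      q.1 + q'.1 = n → q.2 ∪ q'.2 = v → a ∈ q.2 → ∀ b b' x u, x ∈ PV pf vf lam a q b →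
      u ∈ PV pf vf lam a q' b' → κ ⁅tr σ x, tr σ u⁆ = 0 := by
    intro q q' hq hq' hd hn hv haq b b' x u hx hu
    have haq' : a ∉ q'.2 := fun h' => Finset.disjoint_left.mp hd haq h'
    rw [PV_in haq] at hx
    rw [PV_out haq'] at hu
    refine D.stepX hX hcard hpp hS hK hd hn hv (D.pfF _ _ _ hu) hq haq hla trivial h1 ?_ b x hx
    intro w hw
    exact D.stepU hU hcard hpp hS hK hd hn hv hi hq' h2 hw b' u hu
  have hkill : ∀ b b' x u, x ∈ T b → u ∈ T b' → κ ⁅tr σ x, tr σ u⁆ = 0 := by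
    intro b b' x u hx hu
    refine SP_bil (fun x u => κ ⁅tr σ x, tr σ u⁆ = 0) ?_ ?_ ?_ ?_ ?_ hx hu
    · intro q q' hq hq' x hx u hu
      by_cases hd : Disjoint q.2 q'.2
      · by_cases hI : IX a q + IX a q' = (n, v.val, {a})
        · obtain ⟨e1, e2, e3⟩ := idx_eq D hd hI
          rcases e3 with e3 | e3
          · exact key1 q q' hq hq' hd e1 e2 e3 b b' x u hx hu
          · have := key1 q' q hq' hq hd.symm (by rw [add_comm]; exact e1)
              (by rw [Finset.union_comm]; exact e2) e3 b' b u x hu hx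
            rw [← lie_skew, map_neg, this, neg_zero]
        · exact D.comp_zero hK hI (D.PVF hl q b hx) (D.PVF hl q' b' hu)
      · exact D.nd_zero hl hd hx hu
    · intro y
      have : tr σ (0 : M) = 0 := by unfold tr; simp
      rw [this, zero_lie, map_zero]
    · intro x
      have : tr σ (0 : M) = 0 := by unfold tr; simp
      rw [this, lie_zero, map_zero]
    · intro x x' y hx hx'
      have : tr σ (x + x') = tr σ x + tr σ x' := map_add (trHom2 σ) x x'
      rw [this, add_lie, map_add, hx, hx', add_zero]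
    · intro x y y' hy hy'
      have : tr σ (y + y') = tr σ y + tr σ y' := map_add (trHom2 σ) y y'
      rw [this, lie_add, map_add, hy, hy', add_zero]
  have hlie : ∀ a' b' x y, x ∈ T a' → y ∈ T b' → ⁅x, y⁆ ∈ T (a' + b') := by
    intro a' b' x y hx hy
    refine D.SP_lie hl ?_ hx hy
    intro q q' hq hq' _
    change (q.2 ∪ q'.2).sup lv = i
    rw [Finset.sup_union, hq, hq', sup_idem]
  have hMD : MD S' τ σ T T (κ.comp (trHom2 σ)) :=
    { sub := ⟨D.zeroSP hl _, hlie⟩
      act := D.actSP lam a _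
      inj := D.inj
      zero := D.zeroSP hl _
      inv := hlie
      supp := by
        intro b hb x hx
        have h3 : T b ≤ (κ.comp (trHom2 σ)).ker := by
          apply SP_le
          intro q _ x hx
          rw [AddMonoidHom.mem_ker]
          exact D.tr_supp hK (hS' b hb) (D.PVF hl q b hx)
        exact AddMonoidHom.mem_ker.mp (h3 hx)
      kill := by
        intro a' b' x u hx hu
        rw [AddMonoidHom.comp_apply, trHom2_apply, tr_lie2 D.lieσ]
        exact hkill a' b' x u hx hu }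
  have hfin := hR₀ p M V Γ S' τ σ T T (κ.comp (trHom2 σ)) hcard
    (hS'c.trans (by rw [hcard]; exact Nat.mul_le_mul le_rfl hS)) hMD
  apply hfin b ξ
  have h4 := D.genA hi hl hla _ (n, v) hsup rfl b (by rw [PV_in ha]; exact hξ)
  have h5 : R₀ ≤ (atL lv v i).card - 1 := by
    have : R₀ < (atL lv v i).card := hP
    omega
  exact iter_anti hMD.sub h5 b h4

end Pool.Agent.DLB
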