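import Pool.Agent.Lib.MP_2b9f9a_al.DLB.Ty_43

/-!
DL78: (O3) closing and the infeasible types (helper25).
-/

set_option autoImplicit false

namespace DL78

open Ty43

variable {G L : Type} [Group G] [DecidableEq L]

/-- `v` is feasible at `n` (for the base bound `p`). -/
def Feas (lv p : L → ℕ) (v : Finset L) (n : ℕ) : Prop :=
  ∑ x ∈ atL lv v (v.sup lv), p x ≤ if v.sup lv = 1 then n else (atL lv v (v.sup lv - 1)).card

omit [DecidableEq L] in
theorem Feas_mono {lv p : L → ℕ} {v : Finset L} {n n' : ℕ} (h : Feas lv p v n) (hn : n ≤ n') :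
    Feas lv p v n' := by
  unfold Feas at h ⊢
  split_ifs at h ⊢
  · exact h.trans hn
  · exact h

/-- (O3) closing: the greatest label of the top level is closed. -/
theorem Ffam_close {lv p : L → ℕ} (hlv : ∀ x, 1 ≤ lv x) {c n : ℕ} {v w : Finset L} {a : L}
    (hlev : v.sup lv = lv a) (hmax : ∀ x ∈ atL lv v (lv a), p x ≤ p a)
    (hf : Feas lv p v n) : Ffam G lv p c n v (insert a w) ≤ Ffam G lv p c n v w := by
  refine sSup_le ?_
  rintro K ⟨t, ht, n', hn', hK⟩
  have h1 : 1 ≤ v.sup lv := by rw [hlev]; exact hlv a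
  obtain ⟨t', b1, b2, b3, b4⟩ := exact hlv hK h1
  have hsum : ∑ x ∈ atL lv v (lv a), p x ≤ ∑ x ∈ atL lv v (lv a), t' x := by
    have e1 := Feas_mono hf hn'
    unfold Feas at e1
    rw [← b4, hlev] at e1
    exact e1
  exact le_sSup ⟨t', OD_close hmax ht (fun x _ => b1 x) hsum, n', hn', b3⟩

/-- An infeasible type has only trees of greater degree. -/
theorem Afam_infeas {lv p : L → ℕ} (hlv : ∀ x, 1 ≤ lv x) {n : ℕ} {v : Finset L}
    (h1 : 1 ≤ v.sup lv) (hf : ¬ Feas lv p v n) : Afam G lv p v n ≤ Afam G lv p v (n + 1) := by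
  refine sSup_le ?_
  rintro K ⟨n', hn', hK⟩
  refine le_sSup ⟨n', ?_, hK⟩
  by_contra hlt
  have hn : n' = n := by omega
  subst hn
  obtain ⟨t', b1, b2, b3, b4⟩ := exact hlv hK h1
  apply hf
  unfold Feas
  rw [← b4]
  exact Finset.sum_le_sum fun x _ => b1 x

/-- For levels `≥ 2` an infeasible type has no trees. -/
theorem Afam_infeas_bot {lv p : L → ℕ} (hlv : ∀ x, 1 ≤ lv x) {n : ℕ} {v : Finset L}
    (h2 : 2 ≤ v.sup lv) (hf : ¬ Feas lv p v n) : Afam G lv p v n = ⊥ := by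
  refine le_bot_iff.1 (sSup_le ?_)
  rintro K ⟨n', hn', hK⟩
  exfalso
  obtain ⟨t', b1, b2, b3, b4⟩ := exact hlv hK (by omega)
  apply hf
  unfold Feas
  rw [if_neg (by omega)] at b4 ⊢
  rw [← b4]
  exact Finset.sum_le_sum fun x _ => b1 x

end DL78
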