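import Pool.Agent.Lib.MP_2b9f9a_al.DLB.Int7
import Pool.Agent.Lib.MP_2b9f9a_al.DL.LT_2

/-!
# LAMBDA, part 1: the spans of the families
-/

set_option autoImplicit false

namespace Pool.Agent.DLB

open Pool.Agent.Lib.MP_2b9f9a_al
open Pool.Agent.DL17

section general

variable {p : ℕ} {M : Type} [LieRing M]

theorem sup_bil {ι ι' : Sort*} {A : ι → AddSubgroup M} {B : ι' → AddSubgroup M}
    (P : M → M → Prop) (hP : ∀ i j, ∀ x ∈ A i, ∀ y ∈ B j, P x y)
    (z1 : ∀ y, P 0 y) (z2 : ∀ x, P x 0) (a1 : ∀ x x' y, P x y → P x' y → P (x + x') y)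
    (a2 : ∀ x y y', P x y → P x y' → P x (y + y')) {x y : M}
    (hx : x ∈ ⨆ i, A i) (hy : y ∈ ⨆ j, B j) : P x y := by
  refine AddSubgroup.iSup_induction A (C := fun x => P x y) hx ?_ (z1 y) (fun x x' => a1 x x' y)
  intro i x hxi
  refine AddSubgroup.iSup_induction B (C := fun y => P x y) hy ?_ (z2 x) (fun y y' => a2 x y y')
  intro j y hyj
  exact hP i j x hxi y hyj

/-- `[T^k, T^l] ≤ T^(k+l)` (shifted indices) -/
theorem iter_lie {T : Fam (ZMod p) M} (l : ℕ) : ∀ (k : ℕ) (a b : ZMod p) (x y : M),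
    x ∈ iter T T k a → y ∈ iter T T l b → ⁅x, y⁆ ∈ iter T T (k + l + 1) (a + b) := by
  induction l with
  | zero =>
    intro k a b x y hx hy
    exact mem_br hx hy
  | succ l ih =>
    intro k a b x y hx hy
    have h1 : ∀ c d z t, c + d = b → z ∈ iter T T l c → t ∈ T d →
        ⁅x, ⁅z, t⁆⁆ ∈ iter T T (k + (l + 1) + 1) (a + b) := by
      intro c d z t hcd hz ht
      have e : ⁅x, ⁅z, t⁆⁆ = ⁅⁅x, z⁆, t⁆ - ⁅⁅x, t⁆, z⁆ := by
        rw [leibniz_lie x z t, ← lie_skew ⁅x, t⁆ z]; abel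
      rw [e]
      apply sub_mem
      · have h2 := ih k a c x z hx hz
        have h3 : ⁅⁅x, z⁆, t⁆ ∈ iter T T (k + l + 1 + 1) (a + c + d) := mem_br h2 ht
        have e2 : a + c + d = a + b := by rw [← hcd]; abel
        rw [e2] at h3
        exact h3
      · have h2 : ⁅x, t⁆ ∈ iter T T (k + 1) (a + d) := mem_br hx ht
        have h3 := ih (k + 1) (a + d) c _ z h2 hz
        have e2 : a + d + c = a + b := by rw [← hcd]; abel
        have e3 : k + 1 + l + 1 = k + (l + 1) + 1 := by ring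
        rw [e2, e3] at h3
        exact h3
    exact lie_br_mem (fun c d z t hcd hz ht => h1 c d z t hcd hz ht) hy

theorem iter_anti {T : Fam (ZMod p) M} (hT : IsSub T) {k l : ℕ} (h : k ≤ l) :
    iter T T l ≤ iter T T k := by
  induction h with
  | refl => exact le_rfl
  | @step l _ ih =>
    refine le_trans ?_ ih
    have h1 : ∀ l : ℕ, iter T T (l + 1) ≤ iter T T l := by
      intro l
      induction l with
      | zero => exact hT.br_self_le
      | succ l ih => exact br_mono ih le_rfl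
    exact h1 l

end general

section fams

variable {p : ℕ} {M V Γ Lab : Type} [LieRing M] [AddCommGroup V] [Group Γ] [Fintype Γ]
  [DecidableEq Lab] {lv pp : Lab → ℕ} {c : ℕ} {τ : Γ →* (ZMod p)ˣ} {σ : Γ →* AddMonoid.End M}
  {F : Idx Lab → Fam (ZMod p) M} {pf : ℕ → Finset Lab → Fam (ZMod p) M}
  {vf : ℕ → Finset Lab → ℕ → Lab → Fam (ZMod p) M} {G : ℕ → Idx Lab → ℕ → Set M}

/-- `vf` if the anchor is inside, `pf` otherwise. -/
def PV (pf : ℕ → Finset Lab → Fam (ZMod p) M) (vf : ℕ → Finset Lab → ℕ → Lab → Fam (ZMod p) M)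
    (lam : ℕ) (a : Lab) (q : ℕ × Finset Lab) : Fam (ZMod p) M :=
  if a ∈ q.2 then vf q.1 q.2 lam a else pf q.1 q.2

/-- its index -/
def IX (a : Lab) (q : ℕ × Finset Lab) : Idx Lab := (q.1, q.2.val, if a ∈ q.2 then {a} else 0)

theorem PV_in {lam : ℕ} {a : Lab} {q : ℕ × Finset Lab} (h : a ∈ q.2) :
    PV pf vf lam a q = vf q.1 q.2 lam a := if_pos h

theorem PV_out {lam : ℕ} {a : Lab} {q : ℕ × Finset Lab} (h : a ∉ q.2) :
    PV pf vf lam a q = pf q.1 q.2 := if_neg h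

theorem IX_in {a : Lab} {q : ℕ × Finset Lab} (h : a ∈ q.2) : IX a q = (q.1, q.2.val, {a}) := by
  unfold IX; rw [if_pos h]

theorem IX_out {a : Lab} {q : ℕ × Finset Lab} (h : a ∉ q.2) : IX a q = (q.1, q.2.val, 0) := by
  unfold IX; rw [if_neg h]

/-- sums over all pairs with a property -/
def SP (pf : ℕ → Finset Lab → Fam (ZMod p) M) (vf : ℕ → Finset Lab → ℕ → Lab → Fam (ZMod p) M)
    (lam : ℕ) (a : Lab) (C : ℕ × Finset Lab → Prop) : Fam (ZMod p) M :=
  fun b => ⨆ q : {q : ℕ × Finset Lab // C q}, PV pf vf lam a q.1 b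

theorem le_SP {lam : ℕ} {a : Lab} {C : ℕ × Finset Lab → Prop} {q : ℕ × Finset Lab} (h : C q) :
    PV pf vf lam a q ≤ SP pf vf lam a C := fun b =>
  le_iSup (fun q : {q : ℕ × Finset Lab // C q} => PV pf vf lam a q.1 b) ⟨q, h⟩

theorem SP_le {lam : ℕ} {a : Lab} {C : ℕ × Finset Lab → Prop} {b : ZMod p} {S : AddSubgroup M}
    (h : ∀ q, C q → PV pf vf lam a q b ≤ S) : SP pf vf lam a C b ≤ S :=
  iSup_le fun q => h q.1 q.2

theorem SP_bil {lam lam' : ℕ} {a a' : Lab} {C C' : ℕ × Finset Lab → Prop} {b b' : ZMod p}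
    (P : M → M → Prop)
    (hP : ∀ q q', C q → C' q' → ∀ x ∈ PV pf vf lam a q b, ∀ y ∈ PV pf vf lam' a' q' b', P x y)
    (z1 : ∀ y, P 0 y) (z2 : ∀ x, P x 0) (a1 : ∀ x x' y, P x y → P x' y → P (x + x') y)
    (a2 : ∀ x y y', P x y → P x y' → P x (y + y')) {x y : M}
    (hx : x ∈ SP pf vf lam a C b) (hy : y ∈ SP pf vf lam' a' C' b') : P x y :=
  sup_bil P (fun i j x hx y hy => hP i.1 j.1 i.2 j.2 x hx y hy) z1 z2 a1 a2 hx hy

variable (D : LD lv pp c τ σ F pf vf G)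

include D

theorem LD.PVF {lam : ℕ} {a : Lab} (hl : lam ≤ c) (q : ℕ × Finset Lab) :
    PV pf vf lam a q ≤ F (IX a q) := by
  by_cases h : a ∈ q.2
  · rw [PV_in h, IX_in h]; exact D.vfF _ _ _ _ h hl
  · rw [PV_out h, IX_out h]; exact D.pfF _ _

theorem LD.actPV (lam : ℕ) (a : Lab) (q : ℕ × Finset Lab) : Act τ σ (PV pf vf lam a q) := by
  by_cases h : a ∈ q.2
  · rw [PV_in h]; exact D.actv _ _ _ _
  · rw [PV_out h]; exact D.actp _ _

theorem LD.lieσ (g : Γ) (x y : M) : σ g ⁅x, y⁆ = ⁅σ g x, σ g y⁆ := (D.actF 0).lie g x y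

theorem LD.actSP (lam : ℕ) (a : Lab) (C : ℕ × Finset Lab → Prop) :
    Act τ σ (SP pf vf lam a C) := by
  refine ⟨D.lieσ, ?_⟩
  intro g b x hx
  have h : SP pf vf lam a C b ≤
      (SP pf vf lam a C (((τ g : (ZMod p)ˣ) : ZMod p) * b)).comap (σ g) := by
    apply SP_le
    intro q hq x hx
    exact le_SP hq _ ((D.actPV lam a q).map g b x hx)
  exact h hx

theorem LD.zeroSP {lam : ℕ} {a : Lab} (hl : lam ≤ c) (C : ℕ × Finset Lab → Prop) :
    ∀ x ∈ SP pf vf lam a C 0, x = 0 := by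
  have h : SP pf vf lam a C 0 ≤ ⊥ := by
    apply SP_le
    intro q _ x hx
    exact (AddSubgroup.mem_bot).mpr (D.zero _ x (D.PVF hl q 0 hx))
  intro x hx
  exact (AddSubgroup.mem_bot).mp (h hx)

/-- brackets of generators, disjoint contents -/
theorem LD.PV_lie {lam : ℕ} {a : Lab} (hl : lam ≤ c) {q q' : ℕ × Finset Lab}
    (hd : Disjoint q.2 q'.2) {b b' : ZMod p} {x y : M} (hx : x ∈ PV pf vf lam a q b)
    (hy : y ∈ PV pf vf lam a q' b') :
    ⁅x, y⁆ ∈ PV pf vf lam a (q.1 + q'.1, q.2 ∪ q'.2) (b + b') := by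
  by_cases h : a ∈ q.2
  · have h' : a ∉ q'.2 := fun h' => (Finset.disjoint_left.mp hd h) h'
    rw [PV_in h] at hx
    rw [PV_out h'] at hy
    rw [PV_in (show a ∈ (q.1 + q'.1, q.2 ∪ q'.2).2 from Finset.mem_union_left _ h)]
    exact D.vpl _ _ _ _ _ _ _ _ _ _ hd h hl hx hy
  · by_cases h' : a ∈ q'.2
    · rw [PV_out h] at hx
      rw [PV_in h'] at hy
      rw [PV_in (show a ∈ (q.1 + q'.1, q.2 ∪ q'.2).2 from Finset.mem_union_right _ h')]
      have := D.vpl _ _ _ _ _ _ _ _ _ _ hd.symm h' hl hy hx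
      rw [← lie_skew]
      have e1 : q'.1 + q.1 = q.1 + q'.1 := add_comm _ _
      have e2 : q'.2 ∪ q.2 = q.2 ∪ q'.2 := Finset.union_comm _ _
      have e3 : b' + b = b + b' := add_comm _ _
      rw [e1, e2, e3] at this
      exact neg_mem this
    · rw [PV_out h] at hx
      rw [PV_out h'] at hy
      rw [PV_out (show a ∉ (q.1 + q'.1, q.2 ∪ q'.2).2 by
        simp only [Finset.mem_union, not_or]; exact ⟨h, h'⟩)]
      exact D.ppl _ _ _ _ _ _ _ _ hd hx hy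

theorem not_nodup_of {v v' : Finset Lab} (hd : ¬ Disjoint v v') : ¬ (v.val + v'.val).Nodup := by
  intro h
  apply hd
  rw [Multiset.nodup_add] at h
  exact Finset.disjoint_val.mp h.2.2

/-- brackets of generators, common label -/
theorem LD.F_lie_zero {n n' : ℕ} {v v' : Finset Lab} {w w' : Multiset Lab}
    (hd : ¬ Disjoint v v') {b b' : ZMod p} {x y : M} (hx : x ∈ F (n, v.val, w) b)
    (hy : y ∈ F (n', v'.val, w') b') : ⁅x, y⁆ = 0 := by
  have h := D.lie _ _ _ _ _ _ hx hy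
  exact D.top (n + n') (v.val + v'.val) (w + w') (not_nodup_of D hd) (b + b') _ h

theorem LD.PV_lie_zero {lam lam' : ℕ} {a a' : Lab} (hl : lam ≤ c) (hl' : lam' ≤ c)
    {q q' : ℕ × Finset Lab}
    (hd : ¬ Disjoint q.2 q'.2) {b b' : ZMod p} {x y : M} (hx : x ∈ PV pf vf lam a q b)
    (hy : y ∈ PV pf vf lam' a' q' b') : ⁅x, y⁆ = 0 :=
  D.F_lie_zero hd (D.PVF hl q b hx) (D.PVF hl' q' b' hy)

theorem LD.SP_lie {lam : ℕ} {a : Lab} (hl : lam ≤ c) {C C' C'' : ℕ × Finset Lab → Prop}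
    (hC : ∀ q q', C q → C' q' → Disjoint q.2 q'.2 → C'' (q.1 + q'.1, q.2 ∪ q'.2))
    {b b' : ZMod p} {x y : M} (hx : x ∈ SP pf vf lam a C b) (hy : y ∈ SP pf vf lam a C' b') :
    ⁅x, y⁆ ∈ SP pf vf lam a C'' (b + b') := by
  refine SP_bil (fun x y => ⁅x, y⁆ ∈ SP pf vf lam a C'' (b + b')) ?_ ?_ ?_ ?_ ?_ hx hy
  · intro q q' hq hq' x hx y hy
    by_cases hd : Disjoint q.2 q'.2
    · exact le_SP (hC q q' hq hq' hd) _ (D.PV_lie hl hd hx hy)
    · rw [D.PV_lie_zero hl hl hd hx hy]; exact zero_mem _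
  · intro y; rw [zero_lie]; exact zero_mem _
  · intro x; rw [lie_zero]; exact zero_mem _
  · intro x x' y h h'; rw [add_lie]; exact add_mem h h'
  · intro x y y' h h'; rw [lie_add]; exact add_mem h h'

end fams

end Pool.Agent.DLB
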