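import Pool.Agent.Lib.MP_2b9f9a_al.DLB.Ring28
import Pool.Agent.Lib.MP_2b9f9a_al.DLB.All50
import Pool.Agent.Lib.MP_2b9f9a_al.DL.S35_32

/-!
# DL78 (MP_2b9f9a): the theorem for groups of prime power order
-/

set_option autoImplicit false

namespace Pool.Agent.DLB

theorem stRing : StRing := stRing_28 DL17.stGL_78 PX.stFpf_28 PX.stCov_28

theorem stPrD : DL78.StPrD := stPrD_50 stRing

end Pool.Agent.DLB
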