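import Pool.Agent.Lib.MP_2b9f9a_al.DLB.Ty_43

/-!
# DL78, generation (g1), (g2) at the group level.  helper85
-/

set_option autoImplicit false

namespace DL78

namespace Gen85

open Ty43
open Pool.Agent.PX (lc)

variable {G L : Type} [Group G] [DecidableEq L] {lv t : L → ℕ}

/-- commutators of a tree containing `a` and of a single block -/
def Peel (G : Type) [Group G] (lv t : L → ℕ) (i : ℕ) (a : L) (v : Finset L) (n : ℕ) :
    Set (Subgroup G) :=
  {C | ∃ (v' b : Finset L) (n' m : ℕ) (K' B : Subgroup G), WT lv t v' n' K' ∧ WT lv t b m B ∧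
    Disjoint v' b ∧ v' ∪ b = v ∧ n' + m = n ∧ v'.sup lv = i ∧ b.sup lv = i ∧
    (atL lv b i).card = 1 ∧ a ∈ v' ∧ C = ⁅K', B⁆}

theorem Peel_normal (i : ℕ) (a : L) (v : Finset L) (n : ℕ) :
    (sSup (Peel G lv t i a v n)).Normal := by
  refine Ty43.sSup_normal ?_
  rintro C ⟨v', b, n', m, K', B, h1, h2, -, -, -, -, -, -, -, rfl⟩
  have := WT.normal h1
  have := WT.normal h2
  infer_instance

theorem atL_lett {l : L} {i : ℕ} (h1 : lv l = i) : atL lv {l} i = {l} := by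
  ext x; simp only [atL, Finset.mem_filter, Finset.mem_singleton]
  exact ⟨fun h => h.1, fun h => ⟨h, by rw [h, h1]⟩⟩

theorem atL_up {l : L} {v : Finset L} (h1 : ∀ x ∈ v, lv x < lv l) :
    atL lv (insert l v) (lv l) = {l} := by
  ext x; simp only [atL, Finset.mem_filter, Finset.mem_singleton, Finset.mem_insert]
  constructor
  · rintro ⟨rfl | hx, h5⟩
    · rfl
    · have := h1 x hx; omega
  · rintro rfl; exact ⟨Or.inl rfl, rfl⟩

theorem atL_sup_pos {v : Finset L} (h : 1 ≤ v.sup lv) : 1 ≤ (atL lv v (v.sup lv)).card := by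
  have hne : v.Nonempty := by
    rw [Finset.nonempty_iff_ne_empty]
    rintro rfl
    simp at h
  obtain ⟨x, hx, hx'⟩ := Finset.exists_mem_eq_sup v hne lv
  refine Finset.card_pos.2 ⟨x, ?_⟩
  simp only [atL, Finset.mem_filter]
  exact ⟨hx, hx'.symm⟩

/-- The key step: `[K₁, K₂]` is generated by commutators with a single block. -/
theorem peel_aux {v₂ : Finset L} {n₂ : ℕ} {K₂ : Subgroup G} (h₂ : WT lv t v₂ n₂ K₂) :
    ∀ (a : L) (i : ℕ), 1 ≤ i → v₂.sup lv = i → ∀ (v₁ : Finset L) (n₁ : ℕ) (K₁ : Subgroup G),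
      WT lv t v₁ n₁ K₁ → Disjoint v₁ v₂ → v₁.sup lv = i → a ∈ v₁ →
      ⁅K₁, K₂⁆ ≤ sSup (Peel G lv t i a (v₁ ∪ v₂) (n₁ + n₂)) := by
  induction h₂ with
  | nil n => intro a i hi h; simp at h; omega
  | lett l n h1 h2 =>
    intro a i hi hs v₁ n₁ K₁ hK₁ hd hs₁ ha
    have e : lv l = i := by simpa using hs
    exact le_sSup ⟨v₁, {l}, n₁, n, K₁, lc G n, hK₁, .lett l n h1 h2, hd, rfl, rfl, hs₁, hs,
      by rw [atL_lett e, Finset.card_singleton], ha, rfl⟩
  | up l v n K h h1 h2 h3 ih =>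
    intro a i hi hs v₁ n₁ K₁ hK₁ hd hs₁ ha
    have e : lv l = i := by rw [← hs, sup_insert h1]
    refine le_sSup ⟨v₁, insert l v, n₁, n, K₁, K, hK₁, .up l v n K h h1 h2 h3, hd, rfl, rfl, hs₁,
      hs, ?_, ha, rfl⟩
    rw [← e, atL_up h1, Finset.card_singleton]
  | br v v' n n' K K' h h' h1 h2 h3 ih ih' =>
    intro a i hi hs v₁ n₁ K₁ hK₁ hd hs₁ ha
    have hsv : v.sup lv = i := by
      rw [← hs, Finset.sup_union, h2, sup_idem]
    have hsv' : v'.sup lv = i := by rw [← h2, hsv]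
    rw [Finset.disjoint_union_right] at hd
    have hN := Peel_normal (G := G) (lv := lv) (t := t) i a (v₁ ∪ (v ∪ v')) (n₁ + (n + n'))
    have a1 := WT.br v₁ v n₁ n K₁ K hK₁ h hd.1 (by rw [hs₁, hsv]) (by omega)
    have a2 := WT.br v₁ v' n₁ n' K₁ K' hK₁ h' hd.2 (by rw [hs₁, hsv']) (by omega)
    have b1 := ih' a i hi hsv' (v₁ ∪ v) (n₁ + n) ⁅K₁, K⁆ a1
      (Finset.disjoint_union_left.2 ⟨hd.2, h1⟩)
      (by rw [Finset.sup_union, hs₁, hsv, sup_idem]) (Finset.mem_union_left _ ha)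
    have b2 := ih a i hi hsv (v₁ ∪ v') (n₁ + n') ⁅K₁, K'⁆ a2
      (Finset.disjoint_union_left.2 ⟨hd.1, h1.symm⟩)
      (by rw [Finset.sup_union, hs₁, hsv', sup_idem]) (Finset.mem_union_left _ ha)
    rw [Subgroup.commutator_comm]
    refine Pool.Agent.PX.Sol49.three ?_ ?_
    · rw [Subgroup.commutator_comm K' K₁]
      refine b2.trans_eq ?_
      congr 2
      · rw [Finset.union_assoc, Finset.union_comm v' v]
      · ring
    · refine b1.trans_eq ?_
      congr 2
      · rw [Finset.union_assoc]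
      · ring

/-- (g1): a tree with at least two blocks. -/
theorem peel {v : Finset L} {n : ℕ} {K : Subgroup G} (h : WT lv t v n K) {a : L}
    (ha : a ∈ v) (h2 : 2 ≤ (atL lv v (v.sup lv)).card) :
    K ≤ sSup (Peel G lv t (v.sup lv) a v n) := by
  cases h with
  | nil n => simp at ha
  | lett l n h3 h4 =>
    exfalso
    rw [Finset.sup_singleton, atL_lett rfl, Finset.card_singleton] at h2
    omega
  | up l v n K h h3 h4 h5 =>
    exfalso
    rw [sup_insert h3, atL_up h3, Finset.card_singleton] at h2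
    omega
  | br v v' n n' K K' h h' h3 h4 h5 =>
    have hs : (v ∪ v').sup lv = v.sup lv := by rw [Finset.sup_union, h4, sup_idem]
    rw [hs]
    rcases Finset.mem_union.1 ha with ha | ha
    · exact peel_aux h' a (v.sup lv) h5 h4.symm v n K h h3 rfl ha
    · rw [Subgroup.commutator_comm, Finset.union_comm, add_comm]
      exact peel_aux h a (v.sup lv) h5 rfl v' n' K' h' h3.symm h4.symm ha

/-- the lowered bound -/
def low (t : L → ℕ) (lam : ℕ) (a : L) : L → ℕ := fun x => if x = a then t x - lam else t x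

theorem WT_congr {s : L → ℕ} {v : Finset L} {n : ℕ} {K : Subgroup G} (h : WT lv t v n K)
    (hs : ∀ x ∈ v, s x = t x) : WT lv s v n K :=
  WT.mono h fun x hx => (hs x hx).le

/-- (g2): a single block with at least two children is generated by the commutators of a block
with one child less and of one child. -/
theorem peel_one (hlv : ∀ x, 1 ≤ lv x) {v : Finset L} {n : ℕ} {K : Subgroup G}
    (h : WT lv t v n K) {a : L} (h1 : atL lv v (v.sup lv) = {a}) (ht : 2 ≤ t a) :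
    K ≤ sSup {C | ∃ (v' b : Finset L) (n' m : ℕ) (K' B : Subgroup G),
      WT lv (low t 1 a) v' n' K' ∧ WT lv t b m B ∧ Disjoint v' b ∧ v' ∪ b = v ∧ n' + m = n ∧
      v'.sup lv = v.sup lv ∧ b.sup lv + 1 = v.sup lv ∧ a ∈ v' ∧ C = ⁅K', B⁆} := by
  cases h with
  | nil n => simp [atL] at h1
  | lett l n h3 h4 =>
    rw [Finset.sup_singleton, atL_lett rfl, Finset.singleton_inj] at h1
    subst h1
    have hn : 2 ≤ n := ht.trans h4
    obtain ⟨m, rfl⟩ : ∃ m, n = m + 2 := ⟨n - 2, by omega⟩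
    refine le_sSup ⟨{l}, ∅, m + 1, 1, lc G (m + 1), lc G 1, .lett l (m + 1) h3 ?_, .nil 1,
      Finset.disjoint_empty_right _, Finset.union_empty _, rfl, rfl, ?_, by simp, rfl⟩
    · simp only [low, if_true]; omega
    · simp [h3]
  | up l v n K h h3 h4 h5 =>
    have hs := sup_content h3 h4
    have hl : l ∉ v := fun hx => lt_irrefl _ (h3 l hx)
    rw [sup_insert h3, atL_up h3, Finset.singleton_inj] at h1
    subst h1
    rw [sup_insert h3]
    have h6 : 2 ≤ (atL lv v (v.sup lv)).card := by rw [hs]; omega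
    obtain ⟨x, hx⟩ := Finset.card_pos.1 (show 0 < (atL lv v (v.sup lv)).card by omega)
    have hlp : 1 ≤ v.sup lv := by
      simp only [atL, Finset.mem_filter] at hx
      have := hlv x
      omega
    refine (peel h (a := x) (Finset.mem_filter.1 hx).1 h6).trans (sSup_le ?_)
    rintro C ⟨v', b, n', m, K', B, g1, g2, g3, g4, g5, g6, g7, g8, g9, rfl⟩
    have hlv' : l ∉ v' := fun hx => hl (g4 ▸ Finset.mem_union_left _ hx)
    have hlb : l ∉ b := fun hx => hl (g4 ▸ Finset.mem_union_right _ hx)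
    have hcard : (atL lv v (lv l - 1)).card = (atL lv v' (lv l - 1)).card + 1 := by
      rw [← hs, ← g4]
      rw [← g4] at g8
      rw [atL_union, Finset.card_union_of_disjoint (atL_disj g3 _), g8]
    refine le_sSup ⟨insert l v', b, n', m, K', B, .up l v' n' K' ?_ ?_ ?_ ?_, g2, ?_, ?_, g5, ?_,
      ?_, by simp, rfl⟩
    · refine WT_congr g1 fun x hx => ?_
      have : x ≠ l := fun h => hlv' (h ▸ hx)
      simp [low, this]
    · intro x hx
      exact h3 x (g4 ▸ Finset.mem_union_left _ hx)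
    · omega
    · simp only [low, if_true]; omega
    · rw [Finset.disjoint_insert_left]; exact ⟨hlb, g3⟩
    · rw [Finset.insert_union, g4]
    · refine sup_insert fun x hx => h3 x (g4 ▸ Finset.mem_union_left _ hx)
    · rw [g7, hs]; have := hlv l; omega
  | br v v' n n' K K' h h' h3 h4 h5 =>
    exfalso
    have hs : (v ∪ v').sup lv = v.sup lv := by rw [Finset.sup_union, h4, sup_idem]
    rw [hs] at h1
    have e1 := atL_sup_pos h5
    have e2 := atL_sup_pos (h4 ▸ h5)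
    rw [← h4] at e2
    have e3 := congrArg Finset.card h1
    rw [atL_union, Finset.card_union_of_disjoint (atL_disj h3 _), Finset.card_singleton] at e3
    omega

theorem Afam_congr {s : L → ℕ} {v : Finset L} {n : ℕ} (hs : ∀ x ∈ v, s x = t x) :
    Afam G lv s v n = Afam G lv t v n :=
  le_antisymm (Afam_mono v n fun x hx => (hs x hx).ge) (Afam_mono v n fun x hx => (hs x hx).le)

/-- (g1) for the families. -/
theorem gen_two {v : Finset L} {n : ℕ} {a : L} (ha : a ∈ v)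
    (h2 : 2 ≤ (atL lv v (v.sup lv)).card) :
    Afam G lv t v n ≤ (⨆ q : {q : (ℕ × Finset L) × (ℕ × Finset L) // q.1.1 + q.2.1 = n ∧
      Disjoint q.1.2 q.2.2 ∧ q.1.2 ∪ q.2.2 = v ∧ q.1.2.sup lv = v.sup lv ∧
      q.2.2.sup lv = v.sup lv ∧ a ∈ q.1.2 ∧ (atL lv q.2.2 (v.sup lv)).card = 1},
      ⁅Afam G lv t q.1.1.2 q.1.1.1, Afam G lv t q.1.2.2 q.1.2.1⁆) ⊔ Afam G lv t v (n + 1) := by
  refine Afam_le fun n' K hn hK => ?_
  rcases hn.lt_or_eq with hn | rfl
  · exact (le_Afam hK hn).trans le_sup_right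
  · refine le_trans ?_ le_sup_left
    refine (peel hK ha h2).trans (sSup_le ?_)
    rintro C ⟨v', b, n', m, K', B, g1, g2, g3, g4, g5, g6, g7, g8, g9, rfl⟩
    refine (Subgroup.commutator_mono (le_Afam g1 le_rfl) (le_Afam g2 le_rfl)).trans ?_
    exact le_iSup (fun q : {q : (ℕ × Finset L) × (ℕ × Finset L) // q.1.1 + q.2.1 = n ∧
      Disjoint q.1.2 q.2.2 ∧ q.1.2 ∪ q.2.2 = v ∧ q.1.2.sup lv = v.sup lv ∧
      q.2.2.sup lv = v.sup lv ∧ a ∈ q.1.2 ∧ (atL lv q.2.2 (v.sup lv)).card = 1} =>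
      ⁅Afam G lv t q.1.1.2 q.1.1.1, Afam G lv t q.1.2.2 q.1.2.1⁆)
      ⟨((n', v'), (m, b)), g5, g3, g4, g6, g7, g9, g8⟩

/-- (g2) for the families. -/
theorem gen_one (hlv : ∀ x, 1 ≤ lv x) {v : Finset L} {n : ℕ} {a : L}
    (h1 : atL lv v (v.sup lv) = {a}) (ht : 2 ≤ t a) :
    Afam G lv t v n ≤ (⨆ q : {q : (ℕ × Finset L) × (ℕ × Finset L) // q.1.1 + q.2.1 = n ∧
      Disjoint q.1.2 q.2.2 ∧ q.1.2 ∪ q.2.2 = v ∧ q.1.2.sup lv = v.sup lv ∧ a ∈ q.1.2 ∧
      q.2.2.sup lv + 1 = v.sup lv},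
      ⁅Afam G lv (low t 1 a) q.1.1.2 q.1.1.1, Afam G lv t q.1.2.2 q.1.2.1⁆) ⊔
      Afam G lv t v (n + 1) := by
  refine Afam_le fun n' K hn hK => ?_
  rcases hn.lt_or_eq with hn | rfl
  · exact (le_Afam hK hn).trans le_sup_right
  · refine le_trans ?_ le_sup_left
    refine (peel_one hlv hK h1 ht).trans (sSup_le ?_)
    rintro C ⟨v', b, n', m, K', B, g1, g2, g3, g4, g5, g6, g7, g8, rfl⟩
    refine (Subgroup.commutator_mono (le_Afam g1 le_rfl) (le_Afam g2 le_rfl)).trans ?_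
    exact le_iSup (fun q : {q : (ℕ × Finset L) × (ℕ × Finset L) // q.1.1 + q.2.1 = n ∧
      Disjoint q.1.2 q.2.2 ∧ q.1.2 ∪ q.2.2 = v ∧ q.1.2.sup lv = v.sup lv ∧ a ∈ q.1.2 ∧
      q.2.2.sup lv + 1 = v.sup lv} =>
      ⁅Afam G lv (low t 1 a) q.1.1.2 q.1.1.1, Afam G lv t q.1.2.2 q.1.2.1⁆)
      ⟨((n', v'), (m, b)), g5, g3, g4, g6, g8, g7⟩

end Gen85

end DL78
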