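import Pool.Agent.Lib.MP_2b9f9a_al.DL.W_7

/-!
# DL78 (MP_2b9f9a): transport of subgroups of `W` to homogeneous families of `Conv p W`
-/

set_option autoImplicit false

namespace Pool.Agent.DL78

open Pool.Agent.Lib.MP_2b9f9a_al Pool.Agent.DL17 Pool.Agent.DL17.W7

variable {p : ℕ} [Fact p.Prime] {W : Type} [LieRing W]

/-- Additive subgroups of `W`, their homogeneous elements. -/
abbrev hfam (φ : AddMonoid.End W) (K : AddSubgroup W) : Fam (ZMod p) (Conv p W) :=
  fam (shift p W) (lift p φ) K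

theorem hfam_mono {φ : AddMonoid.End W} {K K' : AddSubgroup W} (h : K ≤ K') :
    (hfam φ K : Fam (ZMod p) (Conv p W)) ≤ hfam φ K' :=
  fun _ _ hu => ⟨hu.1, fun c => h (hu.2 c)⟩

theorem hfam_bot {φ : AddMonoid.End W} (a : ZMod p) {u : Conv p W}
    (hu : u ∈ hfam φ (⊥ : AddSubgroup W) a) : u = 0 := by
  apply conv_ext; intro c
  exact AddSubgroup.mem_bot.mp (hu.2 c)

section gen

variable {φ : AddMonoid.End W} (h : Datum p (shift p W) (lift p φ))

include h

theorem proj_chi_comm (a c : ZMod p) :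
    Commute (proj (shift p W) (lift p φ) a) (chi (shift p W) c) := by
  unfold proj
  refine Commute.sum_left _ _ _ (fun i _ => ?_)
  refine Commute.mul_left ?_ ((chi_comm h c).pow_left _)
  unfold chi
  exact (Commute.refl _).pow_pow _ _

/-- If `B` is stable under the shifts and contains the projections of the elements `x` of `K`,
it contains the homogeneous elements with values in `K`. -/
theorem hom_aux {q : ℤ} (hq : ∀ x : W, q • (p • x) = x) (a : ZMod p) (K : AddSubgroup W)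
    (B : AddSubgroup (Conv p W)) (hB : ∀ c : ZMod p, ∀ u ∈ B, chi (shift p W) c u ∈ B)
    (hK : ∀ x ∈ K, proj (shift p W) (lift p φ) a (emb p x) ∈ B) {u : Conv p W}
    (hu : u ∈ hfam φ K a) : u ∈ B := by
  have h2 : p • u ∈ B := by
    have e1 : p • u = proj (shift p W) (lift p φ) a u := by
      rw [proj_eig h hu.1, if_pos rfl]
    rw [e1]
    have e2 : proj (shift p W) (lift p φ) a u =
        ∑ c : ZMod p, chi (shift p W) c (proj (shift p W) (lift p φ) a (emb p (u c))) := by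
      conv_lhs => rw [decomp u]
      rw [map_sum]
      refine Finset.sum_congr rfl (fun c _ => ?_)
      rw [← end_mul_apply, (proj_chi_comm h a c).eq, end_mul_apply]
    rw [e2]
    exact sum_mem (fun c _ => hB c _ (hK _ (hu.2 c)))
  have h3 : u = q • (p • u) := (inv_p_conv hq u).symm
  rw [h3]
  exact zsmul_mem h2 q

/-- The family `fam K` is stable under the shifts. -/
theorem chi_hfam {K : AddSubgroup W} (c a : ZMod p) {u : Conv p W} (hu : u ∈ hfam φ K a) :
    chi (shift p W) c u ∈ hfam φ K a := chi_fam h c a hu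

/-- (H1) -/
theorem hom_iSup {ι : Sort*} (K : ι → AddSubgroup W) (hK : ∀ i, ∀ x ∈ K i, φ x ∈ K i)
    {q : ℤ} (hq : ∀ x : W, q • (p • x) = x) (a : ZMod p) :
    hfam φ (⨆ i, K i) a ≤ ⨆ i, hfam φ (K i) a := by
  intro u hu
  refine hom_aux h hq a (⨆ i, K i) _ ?_ ?_ hu
  · intro c u hu
    have h1 : (⨆ i, hfam φ (K i) a) ≤
        AddSubgroup.comap (chi (shift p W) c) (⨆ i, hfam φ (K i) a) := by
      refine iSup_le (fun i v hv => ?_)
      exact AddSubgroup.mem_iSup_of_mem i (chi_hfam h c a hv)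
    exact h1 hu
  · intro x hx
    have h1 : (⨆ i, K i) ≤ AddSubgroup.comap
        ((proj (shift p W) (lift p φ) a : AddMonoid.End (Conv p W)).comp (embH p W))
        (⨆ i, hfam φ (K i) a) := by
      refine iSup_le (fun i x hx => ?_)
      refine AddSubgroup.mem_iSup_of_mem i ?_
      exact ⟨proj_mem h a _, proj_val (hK i) (emb_val hx) a⟩
    exact h1 hx

/-- (H1), families. -/
theorem hom_iSup' {ι : Sort*} (K : ι → AddSubgroup W) (hK : ∀ i, ∀ x ∈ K i, φ x ∈ K i)
    {q : ℤ} (hq : ∀ x : W, q • (p • x) = x) :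
    (hfam φ (⨆ i, K i) : Fam (ZMod p) (Conv p W)) ≤ ⨆ i, hfam φ (K i) := by
  intro a
  rw [iSup_apply]
  exact hom_iSup h K hK hq a

/-- (H1) for two subgroups. -/
theorem hom_sup (K K' : AddSubgroup W) (hK : ∀ x ∈ K, φ x ∈ K) (hK' : ∀ x ∈ K', φ x ∈ K')
    {q : ℤ} (hq : ∀ x : W, q • (p • x) = x) :
    (hfam φ (K ⊔ K') : Fam (ZMod p) (Conv p W)) ≤ hfam φ K ⊔ hfam φ K' := by
  intro a u hu
  rw [Pi.sup_apply]
  refine hom_aux h hq a (K ⊔ K') _ ?_ ?_ hu
  · intro c u hu
    have h1 : (hfam φ K a ⊔ hfam φ K' a) ≤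
        AddSubgroup.comap (chi (shift p W) c) (hfam φ K a ⊔ hfam φ K' a) := by
      refine sup_le (fun v hv => ?_) (fun v hv => ?_)
      · exact AddSubgroup.mem_sup_left (chi_hfam h c a hv)
      · exact AddSubgroup.mem_sup_right (chi_hfam h c a hv)
    exact h1 hu
  · intro x hx
    have h1 : (K ⊔ K') ≤ AddSubgroup.comap
        ((proj (shift p W) (lift p φ) a : AddMonoid.End (Conv p W)).comp (embH p W))
        (hfam φ K a ⊔ hfam φ K' a) := by
      refine sup_le (fun x hx => ?_) (fun x hx => ?_)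
      · exact AddSubgroup.mem_sup_left ⟨proj_mem h a _, proj_val hK (emb_val hx) a⟩
      · exact AddSubgroup.mem_sup_right ⟨proj_mem h a _, proj_val hK' (emb_val hx) a⟩
    exact h1 hx

/-- (H2) -/
theorem hom_br (htM : ∀ u : Conv p W, p • u = 0 → u = 0) {K K' K'' : AddSubgroup W}
    (hK : ∀ x ∈ K, φ x ∈ K) (hK' : ∀ x ∈ K', φ x ∈ K')
    (hK'' : K'' ≤ AddSubgroup.closure {z | ∃ x ∈ K, ∃ y ∈ K', z = ⁅x, y⁆})
    {q : ℤ} (hq : ∀ x : W, q • (p • x) = x) :
    (hfam φ K'' : Fam (ZMod p) (Conv p W)) ≤ br (hfam φ K) (hfam φ K') :=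
  fun a _ hu => gen_mem h htM hK hK' hK'' hq a hu

/-- The additive subgroup generated by the brackets. -/
def brk (K K' : AddSubgroup W) : AddSubgroup W :=
  AddSubgroup.closure {z | ∃ x ∈ K, ∃ y ∈ K', z = ⁅x, y⁆}

omit [Fact p.Prime] h in
theorem brk_mono {K K' L L' : AddSubgroup W} (h₁ : K ≤ L) (h₂ : K' ≤ L') : brk K K' ≤ brk L L' := by
  refine (AddSubgroup.closure_le _).2 ?_
  rintro z ⟨x, hx, y, hy, rfl⟩
  exact AddSubgroup.subset_closure ⟨x, h₁ hx, y, h₂ hy, rfl⟩

omit h in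
theorem brk_phi {K K' : AddSubgroup W} (hφ : ∀ x y, φ ⁅x, y⁆ = ⁅φ x, φ y⁆)
    (hK : ∀ x ∈ K, φ x ∈ K) (hK' : ∀ x ∈ K', φ x ∈ K') : ∀ x ∈ brk K K', φ x ∈ brk K K' := by
  intro x hx
  have h1 : brk K K' ≤ (brk K K').comap φ := by
    refine (AddSubgroup.closure_le _).2 ?_
    rintro z ⟨x, hx, y, hy, rfl⟩
    refine AddSubgroup.subset_closure ⟨φ x, hK x hx, φ y, hK' y hy, hφ x y⟩
  exact h1 hx

/-- Iterated brackets of subgroups. -/
def ibrk (K T : AddSubgroup W) : ℕ → AddSubgroup W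
  | 0 => K
  | n + 1 => brk (ibrk K T n) T

omit h in
theorem ibrk_phi {K T : AddSubgroup W} (hφ : ∀ x y, φ ⁅x, y⁆ = ⁅φ x, φ y⁆)
    (hK : ∀ x ∈ K, φ x ∈ K) (hT : ∀ x ∈ T, φ x ∈ T) (n : ℕ) :
    ∀ x ∈ ibrk K T n, φ x ∈ ibrk K T n := by
  induction n with
  | zero => exact hK
  | succ n ih => exact brk_phi hφ ih hT

/-- (H2), iterated. -/
theorem hom_ibrk (htM : ∀ u : Conv p W, p • u = 0 → u = 0) {K T : AddSubgroup W}
    (hφ : ∀ x y, φ ⁅x, y⁆ = ⁅φ x, φ y⁆)
    (hK : ∀ x ∈ K, φ x ∈ K) (hT : ∀ x ∈ T, φ x ∈ T)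
    {q : ℤ} (hq : ∀ x : W, q • (p • x) = x) (n : ℕ) :
    (hfam φ (ibrk K T n) : Fam (ZMod p) (Conv p W)) ≤ iter (hfam φ K) (hfam φ T) n := by
  induction n with
  | zero => exact le_rfl
  | succ n ih =>
    refine (hom_br h htM (ibrk_phi hφ hK hT n) hT le_rfl hq).trans ?_
    exact br_mono ih le_rfl

/-- (H3) Homogeneous preimages. -/
theorem hom_copy {ν : AddMonoid.End W} (hν : ∀ x, ν (φ x) = φ (ν x)) {K K' : AddSubgroup W}
    (hK : ∀ x ∈ K, φ x ∈ K) (hs : ∀ y ∈ K', ∃ x ∈ K, ν x = y)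
    {q : ℤ} (hq : ∀ x : W, q • (p • x) = x) (a : ZMod p) {u : Conv p W}
    (hu : u ∈ hfam φ K' a) : ∃ v ∈ hfam φ K a, lift p ν v = u := by
  choose f hf hf' using fun c => hs (u c) (hu.2 c)
  have e1 : lift p ν (f : Conv p W) = u := conv_ext fun c => hf' c
  have hcomm : lift p ν * lift p φ = lift p φ * lift p ν := by
    rw [← lift_mul, ← lift_mul]
    congr 1
    exact AddMonoidHom.ext hν
  have hc2 : ∀ a : ZMod p, ∀ w : Conv p W, lift p ν (chi (shift p W) a w) = chi (shift p W) a (lift p ν w) := by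
    intro a w
    apply conv_ext; intro c
    rw [lift_apply, chi_shift_apply, chi_shift_apply, lift_apply]
  have hc3 : ∀ n : ℕ, ∀ w : Conv p W, lift p ν ((lift p φ ^ n) w) = (lift p φ ^ n) (lift p ν w) := by
    intro n w
    have : Commute (lift p ν) (lift p φ) := hcomm
    exact congrArg (fun f : AddMonoid.End (Conv p W) => f w) (this.pow_right n).eq
  have e2 : lift p ν (proj (shift p W) (lift p φ) a (f : Conv p W)) =
      proj (shift p W) (lift p φ) a (lift p ν (f : Conv p W)) := by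
    rw [proj_apply, proj_apply, map_sum]
    refine Finset.sum_congr rfl (fun i _ => ?_)
    rw [hc2, hc3]
  refine ⟨q • proj (shift p W) (lift p φ) a (f : Conv p W), ?_, ?_⟩
  · exact zsmul_mem (show _ ∈ hfam φ K a from ⟨proj_mem h a _, proj_val hK hf a⟩) q
  · rw [map_zsmul, e2, e1, proj_eig h hu.1, if_pos rfl]
    exact inv_p_conv hq u

end gen

/-- (H4) Endomorphisms that commute with the action commute with the traces. -/
theorem lift_tr {Γ : Type} [Group Γ] [Fintype Γ] (act : Γ →* AddMonoid.End W)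
    {ν : AddMonoid.End W} (hν : ∀ g x, ν (act g x) = act g (ν x)) (u : Conv p W) :
    lift p ν (tr (sig p act) u) = tr (sig p act) (lift p ν u) := by
  apply conv_ext; intro c
  rw [lift_apply, tr_val, tr_val, map_sum]
  refine Finset.sum_congr rfl (fun g _ => ?_)
  rw [hν, lift_apply]

/-- `lift ν` maps homogeneous elements to homogeneous elements. -/
theorem lift_hfam {φ ν : AddMonoid.End W} (hν : ∀ x, ν (φ x) = φ (ν x)) {K K' : AddSubgroup W}
    (hK : ∀ x ∈ K, ν x ∈ K') (a : ZMod p) {u : Conv p W} (hu : u ∈ hfam φ K a) :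
    lift p ν u ∈ hfam φ K' a := by
  refine ⟨?_, fun c => hK _ (hu.2 c)⟩
  have hu1 := hu.1
  rw [mem_eig] at hu1 ⊢
  have h1 : lift p φ * lift p ν = lift p ν * lift p φ := by
    rw [← lift_mul, ← lift_mul]
    congr 1
    exact AddMonoidHom.ext (fun x => (hν x).symm)
  rw [← end_mul_apply, h1, end_mul_apply, hu1]
  apply conv_ext; intro c
  rw [lift_apply, chi_shift_apply, chi_shift_apply, lift_apply]

/-- An element of an eigenspace whose trace vanishes is zero, if its weight is not zero and `τ` is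
injective. -/
theorem tr_eq_zero {Γ : Type} [Group Γ] [Fintype Γ] (act : Γ →* AddMonoid.End W)
    {φ : AddMonoid.End W} (hD : Datum p (shift p W) (lift p φ))
    (htM : ∀ u : Conv p W, p • u = 0 → u = 0) (τ : Γ →* (ZMod p)ˣ)
    (hτ : Function.Injective τ) (hact : Act τ (sig p act) (hfam φ (⊤ : AddSubgroup W)))
    {a : ZMod p} (ha : a ≠ 0) {u : Conv p W} (hu : u ∈ hfam φ (⊤ : AddSubgroup W) a)
    (h0 : proj (shift p W) (lift p φ) a (tr (sig p act) u) = 0) : u = 0 := by
  classical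
  have h1 : ∀ g : Γ, proj (shift p W) (lift p φ) a (sig p act g u) = if g = 1 then p • u else 0 := by
    intro g
    have h2 := hact.map g a u hu
    rw [proj_eig hD h2.1]
    by_cases hg : g = 1
    · subst hg
      rw [if_pos rfl, map_one, Units.val_one, one_mul, if_pos rfl, map_one]
      rfl
    · rw [if_neg hg, if_neg]
      intro h3
      apply hg
      apply hτ
      rw [map_one]
      apply Units.ext
      rw [Units.val_one]
      exact mul_right_cancel₀ ha (by rw [h3, one_mul])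
  unfold tr at h0
  rw [map_sum, Finset.sum_congr rfl (fun g _ => h1 g), Finset.sum_ite_eq' Finset.univ 1,
    if_pos (Finset.mem_univ _)] at h0
  exact htM u h0

end Pool.Agent.DL78
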