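import Pool.Agent.Lib.MP_2b9f9a_al.DLB.RingB28
import Pool.Agent.Lib.MP_2b9f9a_al.DLB.Gen85
import Pool.Agent.Lib.MP_2b9f9a_al.DLB.Hom17

/-!
# DL78: the three generation fields for the Lie ring of the filtration (helper13)
-/

set_option autoImplicit false

namespace Pool.Agent.DLB

open Pool.Agent.Lib.MP_2b9f9a_al
open Pool.Agent.DL17
open Pool.Agent.PX (lc)
open _root_.DL78 (WT Afam Ffam OD)
open Pool.Agent.DL78 (brk brk_phi hom_iSup hom_br)
open Pool.Agent.DL78.R28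

namespace G13

section graded

variable {G I W Λ : Type} [Group G] [AddCommMonoid I] [LieRing W] [Group Λ]
  [MulDistribMulAction Λ G] {A B : I → Subgroup G} {cls : I → G → W} {act : Λ →* AddMonoid.End W}

/-- the classes of `[K, K']` -/
theorem cls_comm (hM : MF A B) (h : GrM A B cls act) {i j : I} {K K' : Subgroup G} (hK : K ≤ A i)
    (hK' : K' ≤ A j) {g : G} (hg : g ∈ ⁅K, K'⁆) :
    g ∈ A (i + j) ∧ cls (i + j) g ∈ brk (im cls i K) (im cls j K') := by
  rw [Subgroup.commutator_def] at hg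
  induction hg using Subgroup.closure_induction with
  | mem x hx =>
    obtain ⟨a, ha, b, hb, rfl⟩ := hx
    refine ⟨hM.mul i j (Subgroup.commutator_mem_commutator (hK ha) (hK' hb)), ?_⟩
    refine AddSubgroup.subset_closure ⟨_, cls_im ha, _, cls_im hb, ?_⟩
    rw [h.brk i j a (hK ha) b (hK' hb)]
    rfl
  | one =>
    rw [Grp28.one h]
    exact ⟨one_mem _, zero_mem _⟩
  | mul x y _ _ hx hy =>
    rw [h.mul (i + j) x hx.1 y hy.1]
    exact ⟨mul_mem hx.1 hy.1, add_mem hx.2 hy.2⟩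
  | inv x _ hx =>
    rw [Grp28.inv h (i + j) hx.1]
    exact ⟨inv_mem hx.1, neg_mem hx.2⟩

/-- the classes of a subgroup that is generated by commutators, modulo `B i` -/
theorem im_gen (hM : MF A B) (h : GrM A B cls act) {ι : Type} {i : I} {i₁ i₂ : ι → I}
    (hi : ∀ q, i = i₁ q + i₂ q) {K : Subgroup G} {K₁ K₂ : ι → Subgroup G} {B' : Subgroup G}
    (hK : K ≤ (⨆ q, ⁅K₁ q, K₂ q⁆) ⊔ B') (hB : B' ≤ B i) (h₁ : ∀ q, K₁ q ≤ A (i₁ q))
    (h₂ : ∀ q, K₂ q ≤ A (i₂ q)) :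
    im cls i K ≤ ⨆ q, brk (im cls (i₁ q) (K₁ q)) (im cls (i₂ q) (K₂ q)) := by
  set X := ⨆ q, brk (im cls (i₁ q) (K₁ q)) (im cls (i₂ q) (K₂ q)) with hX
  have e1 : ∀ g ∈ (⨆ q, ⁅K₁ q, K₂ q⁆ : Subgroup G), g ∈ A i ∧ cls i g ∈ X := by
    intro g hg
    refine Subgroup.iSup_induction (fun q => ⁅K₁ q, K₂ q⁆)
      (C := fun g => g ∈ A i ∧ cls i g ∈ X) hg ?_ ?_ ?_
    · intro q x hx
      have := cls_comm hM h (h₁ q) (h₂ q) hx
      rw [← hi q] at this
      exact ⟨this.1, AddSubgroup.mem_iSup_of_mem q this.2⟩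
    · rw [Grp28.one h]
      exact ⟨one_mem _, zero_mem _⟩
    · rintro x y ⟨hx, hx'⟩ ⟨hy, hy'⟩
      rw [h.mul i x hx y hy]
      exact ⟨mul_mem hx hy, add_mem hx' hy'⟩
  have e2 : ∀ g ∈ B', g ∈ A i ∧ cls i g ∈ X := by
    intro g hg
    have hgA := hM.le i (hB hg)
    refine ⟨hgA, ?_⟩
    rw [(h.zero i g hgA).2 (hB hg)]
    exact zero_mem _
  have e3 : ∀ g ∈ K, g ∈ A i ∧ cls i g ∈ X := by
    intro g hg
    have hg' := hK hg
    rw [sup_eq_iSup] at hg'
    refine Subgroup.iSup_induction _ (C := fun g => g ∈ A i ∧ cls i g ∈ X) hg' ?_ ?_ ?_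
    · intro b x hx
      cases b
      · exact e2 x hx
      · exact e1 x hx
    · rw [Grp28.one h]
      exact ⟨one_mem _, zero_mem _⟩
    · rintro x y ⟨hx, hx'⟩ ⟨hy, hy'⟩
      rw [h.mul i x hx y hy]
      exact ⟨mul_mem hx hy, add_mem hx' hy'⟩
  unfold im
  rw [AddSubgroup.closure_le]
  rintro z ⟨g, hg, rfl⟩
  exact (e3 g hg).2

end graded

section ring

variable {p : ℕ} [Fact p.Prime] {G I W Λ : Type} [Group G] [AddCommMonoid I] [LieRing W]
  [Group Λ] [MulDistribMulAction Λ G] {A B : I → Subgroup G} {cls : I → G → W}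
  {act : Λ →* AddMonoid.End W}

/-- the same for the homogeneous elements over `ζ` -/
theorem fm_gen (hM : MF A B) (h : GrM A B cls act) {f : Λ}
    (hD : Datum p (shift p W) (lift p (act f)))
    (htM : ∀ u : Conv p W, p • u = 0 → u = 0) {q₀ : ℤ} (hq : ∀ x : W, q₀ • (p • x) = x)
    {ι : Type} {i : I} {i₁ i₂ : ι → I}
    (hi : ∀ q, i = i₁ q + i₂ q) {K : Subgroup G} {K₁ K₂ : ι → Subgroup G} {B' : Subgroup G}
    (hK : K ≤ (⨆ q, ⁅K₁ q, K₂ q⁆) ⊔ B') (hB : B' ≤ B i) (h₁ : ∀ q, K₁ q ≤ A (i₁ q))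
    (h₂ : ∀ q, K₂ q ≤ A (i₂ q)) (a₁ : ∀ q, ∀ g ∈ K₁ q, f • g ∈ K₁ q)
    (a₂ : ∀ q, ∀ g ∈ K₂ q, f • g ∈ K₂ q) (b : ZMod p) :
    fm (act f) (im cls i K) b ≤
      ⨆ q, br (fm (act f) (im cls (i₁ q) (K₁ q))) (fm (act f) (im cls (i₂ q) (K₂ q))) b := by
  have p1 : ∀ q, ∀ x ∈ im cls (i₁ q) (K₁ q), act f x ∈ im cls (i₁ q) (K₁ q) :=
    fun q x hx => im_act h (h₁ q) f (a₁ q) hx
  have p2 : ∀ q, ∀ x ∈ im cls (i₂ q) (K₂ q), act f x ∈ im cls (i₂ q) (K₂ q) :=
    fun q x hx => im_act h (h₂ q) f (a₂ q) hx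
  intro u hu
  have hu' := fm_mono (im_gen hM h hi hK hB h₁ h₂) hu
  have hu2 := hom_iSup hD (fun q => brk (im cls (i₁ q) (K₁ q)) (im cls (i₂ q) (K₂ q)))
    (fun q => brk_phi (h.act_lie f) (p1 q) (p2 q)) hq b hu'
  have h3 := iSup_mono (fun q => hom_br hD htM (p1 q) (p2 q) (le_refl
    (brk (im cls (i₁ q) (K₁ q)) (im cls (i₂ q) (K₂ q)))) hq b)
  exact h3 hu2

end ring

end G13

section main

variable {p : ℕ} [Fact p.Prime] {P Lab W Λ : Type} [Group P] [DecidableEq Lab] [LieRing W]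
  [Group Λ] [MulDistribMulAction Λ P] {lv pp : Lab → ℕ} {c : ℕ} {cls : Idx Lab → P → W}
  {act : Λ →* AddMonoid.End W}

theorem low_eq {lam : ℕ} (a : Lab) :
    _root_.DL78.Gen85.low (Function.update pp a (pp a - lam)) 1 a =
      Function.update pp a (pp a - (lam + 1)) := by
  funext x
  unfold _root_.DL78.Gen85.low
  by_cases hx : x = a
  · subst hx
    rw [if_pos rfl, Function.update_self, Function.update_self]
    omega
  · rw [if_neg hx, Function.update_of_ne hx, Function.update_of_ne hx]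

theorem idx_add13 {n n₁ n₂ : ℕ} {v v₁ v₂ : Finset Lab} (w : Multiset Lab) (hn : n₁ + n₂ = n)
    (hd : Disjoint v₁ v₂) (hv : v₁ ∪ v₂ = v) :
    ((n, v.val, w) : Idx Lab) = (n₁, v₁.val, w) + (n₂, v₂.val, 0) := by
  subst hn hv
  rw [val_union hd]
  change _ = (n₁ + n₂, v₁.val + v₂.val, w + 0)
  rw [add_zero]

/-- The three generation fields. -/
theorem gen3 (hlv : ∀ x, 1 ≤ lv x) (hM : MF (FA P lv pp c) (FB P lv pp c))
    (h : GrM (FA P lv pp c) (FB P lv pp c) cls act) (f : Λ)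
    (hD : Datum p (shift p W) (lift p (act f)))
    (htM : ∀ u : Conv p W, p • u = 0 → u = 0) {q₀ : ℤ} (hq : ∀ x : W, q₀ • (p • x) = x) :
    Gen3 lv pp c (Fp (p := p) (act f) cls lv pp) (Fv (p := p) (act f) cls lv pp c) := by
  constructor
  · intro n v lam a ha hla h2 hlam b
    unfold Fv Fp
    have hB : Afam P lv (Function.update pp a (pp a - lam)) v (n + 1) ≤
        FB P lv pp c (n, v.val, {a}) := by
      rw [← vK_eq hlam]
      exact vK_le (n + 1) v lam a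
    have key := G13.fm_gen hM h hD htM hq (i := ((n, v.val, {a}) : Idx Lab))
      (ι := {q : (ℕ × Finset Lab) × (ℕ × Finset Lab) //
        q.1.1 + q.2.1 = n ∧ Disjoint q.1.2 q.2.2 ∧ q.1.2 ∪ q.2.2 = v ∧
        q.1.2.sup lv = v.sup lv ∧ q.2.2.sup lv = v.sup lv ∧ a ∈ q.1.2})
      (i₁ := fun q => (q.1.1.1, q.1.1.2.val, {a})) (i₂ := fun q => (q.1.2.1, q.1.2.2.val, 0))
      (fun q => idx_add13 _ q.2.1 q.2.2.1 q.2.2.2.1)
      (K := vK P lv pp c n v lam a)
      (K₁ := fun q => vK P lv pp c q.1.1.1 q.1.1.2 lam a)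
      (K₂ := fun q => Afam P lv pp q.1.2.2 q.1.2.1)
      (B' := Afam P lv (Function.update pp a (pp a - lam)) v (n + 1))
      ?_ hB (fun q => vK_le _ _ _ _) (fun q => pK_le _ _)
      (fun q => vK_act f _ _ _ _) (fun q g hg => _root_.DL78.Ty43.Afam_act _ _ f hg) b
    · exact key
    · rw [vK_eq hlam]
      refine (_root_.DL78.Gen85.gen_two ha h2).trans (sup_le_sup_right (iSup_le fun q => ?_) _)
      obtain ⟨q, c1, c2, c3, c4, c5, c6, c7⟩ := q
      refine le_iSup_of_le ⟨q, c1, c2, c3, c4, c5, c6⟩ ?_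
      rw [vK_eq hlam]
      refine Subgroup.commutator_mono le_rfl (le_of_eq ?_)
      refine _root_.DL78.Gen85.Afam_congr fun x hx => ?_
      have hxa : x ≠ a := by
        rintro rfl
        exact Finset.disjoint_left.1 c2 c6 hx
      rw [Function.update_of_ne hxa]
  · intro n v h2 h1 b
    unfold Fp
    obtain ⟨a, ha⟩ := Finset.card_pos.1 (show 0 < (atL lv v (v.sup lv)).card by omega)
    have ha' : a ∈ v := (Finset.mem_filter.1 ha).1
    have hB : Afam P lv pp v (n + 1) ≤ FB P lv pp c (n, v.val, 0) := pK_le _ _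
    have key := G13.fm_gen hM h hD htM hq (i := ((n, v.val, 0) : Idx Lab))
      (ι := {q : (ℕ × Finset Lab) × (ℕ × Finset Lab) //
        q.1.1 + q.2.1 = n ∧ Disjoint q.1.2 q.2.2 ∧ q.1.2 ∪ q.2.2 = v ∧
        q.1.2.sup lv = v.sup lv ∧ q.2.2.sup lv = v.sup lv})
      (i₁ := fun q => (q.1.1.1, q.1.1.2.val, 0)) (i₂ := fun q => (q.1.2.1, q.1.2.2.val, 0))
      (fun q => idx_add13 _ q.2.1 q.2.2.1 q.2.2.2.1)
      (K := Afam P lv pp v n)
      (K₁ := fun q => Afam P lv pp q.1.1.2 q.1.1.1)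
      (K₂ := fun q => Afam P lv pp q.1.2.2 q.1.2.1)
      (B' := Afam P lv pp v (n + 1))
      ?_ hB (fun q => pK_le _ _) (fun q => pK_le _ _)
      (fun q g hg => _root_.DL78.Ty43.Afam_act _ _ f hg)
      (fun q g hg => _root_.DL78.Ty43.Afam_act _ _ f hg) b
    · exact key
    · refine (_root_.DL78.Gen85.gen_two ha' h2).trans (sup_le_sup_right (iSup_le fun q => ?_) _)
      obtain ⟨q, c1, c2, c3, c4, c5, c6, c7⟩ := q
      exact le_iSup_of_le ⟨q, c1, c2, c3, c4, c5⟩ le_rfl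
  · intro n v lam a ha hla h1 hlam hpa b
    unfold Fv Fp
    have hlam' : lam ≤ c := by omega
    have hB : Afam P lv (Function.update pp a (pp a - lam)) v (n + 1) ≤
        FB P lv pp c (n, v.val, {a}) := by
      rw [← vK_eq hlam']
      exact vK_le (n + 1) v lam a
    have key := G13.fm_gen hM h hD htM hq (i := ((n, v.val, {a}) : Idx Lab))
      (ι := {q : (ℕ × Finset Lab) × (ℕ × Finset Lab) //
        q.1.1 + q.2.1 = n ∧ Disjoint q.1.2 q.2.2 ∧ q.1.2 ∪ q.2.2 = v ∧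
        q.1.2.sup lv = v.sup lv ∧ a ∈ q.1.2 ∧ q.2.2.sup lv = v.sup lv - 1})
      (i₁ := fun q => (q.1.1.1, q.1.1.2.val, {a})) (i₂ := fun q => (q.1.2.1, q.1.2.2.val, 0))
      (fun q => idx_add13 _ q.2.1 q.2.2.1 q.2.2.2.1)
      (K := vK P lv pp c n v lam a)
      (K₁ := fun q => vK P lv pp c q.1.1.1 q.1.1.2 (lam + 1) a)
      (K₂ := fun q => Afam P lv pp q.1.2.2 q.1.2.1)
      (B' := Afam P lv (Function.update pp a (pp a - lam)) v (n + 1))
      ?_ hB (fun q => vK_le _ _ _ _) (fun q => pK_le _ _)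
      (fun q => vK_act f _ _ _ _) (fun q g hg => _root_.DL78.Ty43.Afam_act _ _ f hg) b
    · exact key
    · rw [vK_eq hlam']
      have ht : 2 ≤ Function.update pp a (pp a - lam) a := by
        rw [Function.update_self]; omega
      refine (_root_.DL78.Gen85.gen_one hlv h1 ht).trans
        (sup_le_sup_right (iSup_le fun q => ?_) _)
      obtain ⟨q, c1, c2, c3, c4, c5, c6⟩ := q
      refine le_iSup_of_le ⟨q, c1, c2, c3, c4, c5, by omega⟩ ?_
      rw [vK_eq hlam, low_eq]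
      refine Subgroup.commutator_mono le_rfl (le_of_eq ?_)
      refine _root_.DL78.Gen85.Afam_congr fun x hx => ?_
      have hxa : x ≠ a := by
        rintro rfl
        exact Finset.disjoint_left.1 c2 c5 hx
      rw [Function.update_of_ne hxa]

end main

end Pool.Agent.DLB
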