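import Pool.Agent.Lib.MP_2b9f9a_al.DL.W_7
import Pool.Agent.Lib.MP_2b9f9a_al.DL.MF_12

/-!
# DL78: classes of commutator subgroups, and (g2) for letters (`i = 1`) (helper13)
-/

set_option autoImplicit false

namespace Pool.Agent.DL78.Let13

open Pool.Agent.Lib.MP_2b9f9a_al
open Pool.Agent.DL17
open Pool.Agent.PX (lc)

variable {G I W Λ : Type} [Group G] [AddCommMonoid I] [LieRing W] [Group Λ]
    [MulDistribMulAction Λ G] {A B : I → Subgroup G} {cls : I → G → W}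
    {act : Λ →* AddMonoid.End W}

/-- the subgroup generated by the classes of the elements of `K` -/
def cs (cls : I → G → W) (i : I) (K : Subgroup G) : AddSubgroup W :=
  AddSubgroup.closure {z | ∃ g ∈ K, z = cls i g}

theorem mem_cs (i : I) {K : Subgroup G} {g : G} (hg : g ∈ K) : cls i g ∈ cs cls i K :=
  AddSubgroup.subset_closure ⟨g, hg, rfl⟩

theorem cs_le {i : I} {K : Subgroup G} {X : AddSubgroup W} (h : ∀ g ∈ K, cls i g ∈ X) :
    cs cls i K ≤ X := by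
  unfold cs
  rw [AddSubgroup.closure_le]
  rintro z ⟨g, hg, rfl⟩
  exact h g hg

theorem cs_mono {i : I} {K K' : Subgroup G} (h : K ≤ K') : cs cls i K ≤ cs cls i K' :=
  cs_le fun _ hg => mem_cs i (h hg)

theorem cls_one (hG : GrM A B cls act) (i : I) : cls i 1 = 0 := by
  have := hG.mul i 1 (one_mem _) 1 (one_mem _)
  rw [mul_one] at this
  exact left_eq_add.1 this

theorem cls_inv (hG : GrM A B cls act) (i : I) {g : G} (hg : g ∈ A i) :
    cls i g⁻¹ = - cls i g := by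
  have := hG.mul i g hg g⁻¹ (inv_mem hg)
  rw [mul_inv_cancel, cls_one hG] at this
  exact (neg_eq_of_add_eq_zero_right this.symm).symm

/-- elements of a supremum -/
theorem cs_iSup (hG : GrM A B cls act) {ι : Sort*} {i : I} {K : ι → Subgroup G}
    (hK : ∀ j, K j ≤ A i) {X : AddSubgroup W} (h : ∀ j, ∀ g ∈ K j, cls i g ∈ X) :
    ∀ g ∈ ⨆ j, K j, cls i g ∈ X := by
  have h1 : (⨆ j, K j) ≤ A i := iSup_le hK
  intro g hg
  have h2 : g ∈ A i ∧ cls i g ∈ X := by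
    refine Subgroup.iSup_induction K (C := fun g => g ∈ A i ∧ cls i g ∈ X) hg ?_ ?_ ?_
    · intro j x hx
      exact ⟨hK j hx, h j x hx⟩
    · rw [cls_one hG]
      exact ⟨one_mem _, zero_mem _⟩
    · rintro x y ⟨hx, hx'⟩ ⟨hy, hy'⟩
      rw [hG.mul i x hx y hy]
      exact ⟨mul_mem hx hy, add_mem hx' hy'⟩
  exact h2.2

/-- the classes of `[K, K']` -/
theorem br13 (hM : MF A B) (hG : GrM A B cls act) {i j : I} {K K' : Subgroup G} (hK : K ≤ A i)
    (hK' : K' ≤ A j) : ∀ g ∈ ⁅K, K'⁆, cls (i + j) g ∈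
      AddSubgroup.closure {z | ∃ x ∈ cs cls i K, ∃ y ∈ cs cls j K', z = ⁅x, y⁆} := by
  intro g hg
  rw [Subgroup.commutator_def] at hg
  have h2 : g ∈ A (i + j) ∧ cls (i + j) g ∈
      AddSubgroup.closure {z | ∃ x ∈ cs cls i K, ∃ y ∈ cs cls j K', z = ⁅x, y⁆} := by
    induction hg using Subgroup.closure_induction with
    | mem x hx =>
      obtain ⟨a, ha, b, hb, rfl⟩ := hx
      refine ⟨hM.mul i j (Subgroup.commutator_mem_commutator (hK ha) (hK' hb)), ?_⟩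
      refine AddSubgroup.subset_closure ⟨_, mem_cs i ha, _, mem_cs j hb, ?_⟩
      rw [hG.brk i j a (hK ha) b (hK' hb)]
      rfl
    | one =>
      rw [cls_one hG]
      exact ⟨one_mem _, zero_mem _⟩
    | mul x y _ _ hx hy =>
      rw [hG.mul (i + j) x hx.1 y hy.1]
      exact ⟨mul_mem hx.1 hy.1, add_mem hx.2 hy.2⟩
    | inv x _ hx =>
      rw [cls_inv hG (i + j) hx.1]
      exact ⟨inv_mem hx.1, neg_mem hx.2⟩
  exact h2.2

theorem cs_br (hM : MF A B) (hG : GrM A B cls act) {i j : I} {K K' : Subgroup G} (hK : K ≤ A i)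
    (hK' : K' ≤ A j) : cs cls (i + j) ⁅K, K'⁆ ≤
      AddSubgroup.closure {z | ∃ x ∈ cs cls i K, ∃ y ∈ cs cls j K', z = ⁅x, y⁆} :=
  cs_le (br13 hM hG hK hK')

/-- letters: `γ_{n+1} = [γ_n, γ_1]` -/
theorem let13 (hM : MF A B) (hG : GrM A B cls act) {i j : I} {n : ℕ} (hn : 1 ≤ n)
    (hi : lc G n ≤ A i) (hj : lc G 1 ≤ A j) : cs cls (i + j) (lc G (n + 1)) ≤
      AddSubgroup.closure {z | ∃ x ∈ cs cls i (lc G n), ∃ y ∈ cs cls j (lc G 1), z = ⁅x, y⁆} := by
  obtain ⟨m, rfl⟩ : ∃ m, n = m + 1 := ⟨n - 1, by omega⟩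
  have h : lc G (m + 1 + 1) = ⁅lc G (m + 1), lc G 1⁆ := rfl
  rw [h]
  exact cs_br hM hG hi hj

section fam

variable {p : ℕ} [Fact p.Prime] {φ : AddMonoid.End W}

open W7

/-- the same for the homogeneous elements over `ζ` -/
theorem fam_br13 (hM : MF A B) (hG : GrM A B cls act) (h : Datum p (shift p W) (lift p φ))
    (htM : ∀ u : Conv p W, p • u = 0 → u = 0) {q : ℤ} (hq : ∀ x : W, q • (p • x) = x)
    {i j : I} {K K' : Subgroup G} (hK : K ≤ A i) (hK' : K' ≤ A j)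
    (hφ : ∀ x ∈ cs cls i K, φ x ∈ cs cls i K) (hφ' : ∀ x ∈ cs cls j K', φ x ∈ cs cls j K')
    (a : ZMod p) :
    fam (shift p W) (lift p φ) (cs cls (i + j) ⁅K, K'⁆) a ≤
      br (fam (shift p W) (lift p φ) (cs cls i K)) (fam (shift p W) (lift p φ) (cs cls j K')) a :=
  fun _ hu => gen_mem h htM hφ hφ' (cs_br hM hG hK hK') hq a hu

theorem fam_let13 (hM : MF A B) (hG : GrM A B cls act) (h : Datum p (shift p W) (lift p φ))
    (htM : ∀ u : Conv p W, p • u = 0 → u = 0) {q : ℤ} (hq : ∀ x : W, q • (p • x) = x)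
    {i j : I} {n : ℕ} (hn : 1 ≤ n) (hi : lc G n ≤ A i) (hj : lc G 1 ≤ A j)
    (hφ : ∀ x ∈ cs cls i (lc G n), φ x ∈ cs cls i (lc G n))
    (hφ' : ∀ x ∈ cs cls j (lc G 1), φ x ∈ cs cls j (lc G 1)) (a : ZMod p) :
    fam (shift p W) (lift p φ) (cs cls (i + j) (lc G (n + 1))) a ≤
      br (fam (shift p W) (lift p φ) (cs cls i (lc G n)))
        (fam (shift p W) (lift p φ) (cs cls j (lc G 1))) a :=
  fun _ hu => gen_mem h htM hφ hφ' (let13 hM hG hn hi hj) hq a hu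

end fam

end Pool.Agent.DL78.Let13
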