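import Pool.Agent.Lib.MP_2b9f9a_al.DLB.RingC28
import Pool.Agent.Lib.MP_2b9f9a_al.DLB.Gen3_13
import Pool.Agent.Lib.MP_2b9f9a_al.DLB.Root50

/-!
# DL78 (MP_2b9f9a): the Lie ring of the group
-/

set_option autoImplicit false

namespace Pool.Agent.DLB

open Pool.Agent.Lib.MP_2b9f9a_al
open Pool.Agent.DL17
open Pool.Agent.PX (Fro lc StFpf StCov dsg)
open _root_.DL78 (WT Afam Ffam OD)
open Pool.Agent.DL78.R28

theorem stRing_28 (hGL : StGL) (hFpf : StFpf) (hCov : StCov) : StRing := by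
  intro r _ p _ Γ P Lab _ _ _ _ _ _ F H _ φ τ lv pp c d hP hFro hφ hφ1 hφp hτ hconj hlv hd
  obtain ⟨W, _, cls, act, h⟩ := hGL P (Idx Lab) Γ (FA P lv pp c) (FB P lv pp c) (mf28 hlv)
    FA_act (fun γ i => FA_act γ _)
  obtain ⟨hD, htM, q, hq⟩ := base28 hFpf hP hFro hφ hφ1 hφp hlv h
  have hgen : Gen3 lv pp c (Fp (p := p) (act φ) cls lv pp) (Fv (act φ) cls lv pp c) :=
    gen3 hlv (mf28 hlv) h φ hD htM hq
  exact ⟨Conv p W, inferInstance, W7.sig p (act.comp H.subtype), FF (act φ) cls lv pp c,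
    Fp (act φ) cls lv pp, Fv (act φ) cls lv pp c,
    GG (act φ) cls lv pp c (Grp28.fix (P := P) H),
    ld28 hFpf hCov hP hFro hφ hφ1 hφp hτ hconj hlv h hgen,
    fun I m x hx => gg_zero h hd I m x hx,
    fun n v a _ h0 => ext28 hFpf hP hFro hφ hφ1 hφp hlv h n v a h0⟩

end Pool.Agent.DLB
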