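import Pool.Agent.Lib.MP_2b9f9a_al.DL.RingA28
import Pool.Agent.Lib.MP_2b9f9a_al.DLB.F5_25
import Pool.Agent.Lib.MP_2b9f9a_al.DLB.Int7

/-!
# DL78 (MP_2b9f9a), section 4: the filtration, and the Lie ring of it as an instance of `LD`
-/

set_option autoImplicit false

namespace Pool.Agent.DLB

open Pool.Agent.Lib.MP_2b9f9a_al
open Pool.Agent.DL17
open Pool.Agent.PX (Fro lc StFpf StCov dsg)
open _root_.DL78 (WT Afam Ffam OD OD_glue OD_base OD_anchor glue glue_mem glue_not_mem)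
open Pool.Agent.DL78.R28

/-! ### The filtration -/

section fil

variable {G : Type} [Group G] {Lab : Type} [DecidableEq Lab] {lv pp : Lab → ℕ} {c : ℕ}

theorem Ff_normal (n : ℕ) (v w : Finset Lab) : (Ffam G lv pp c n v w).Normal :=
  _root_.DL78.Ty43.sSup_normal fun _ ⟨_, _, _, _, h⟩ => _root_.DL78.Ty43.WT.normal h

theorem Ff_map (n : ℕ) (v w : Finset Lab) (f : G →* G) :
    (Ffam G lv pp c n v w).map f ≤ Ffam G lv pp c n v w :=
  _root_.DL78.Ty43.sSup_map f fun _ ⟨_, _, _, _, h⟩ => _root_.DL78.Ty43.WT.map h f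

theorem Ff_act {Γ : Type} [Group Γ] [MulDistribMulAction Γ G] (n : ℕ) (v w : Finset Lab) (γ : Γ)
    {g : G} (hg : g ∈ Ffam G lv pp c n v w) : γ • g ∈ Ffam G lv pp c n v w :=
  Ff_map n v w (MulDistribMulAction.toMonoidHom G γ) ⟨g, hg, rfl⟩

theorem Ff_anti (v w : Finset Lab) {n n' : ℕ} (h : n ≤ n') :
    Ffam G lv pp c n' v w ≤ Ffam G lv pp c n v w :=
  sSup_le fun _ ⟨t, ht, m, hm, hK⟩ => le_sSup ⟨t, ht, m, h.trans hm, hK⟩

theorem Af_le_Ff {t : Lab → ℕ} {v w : Finset Lab} (ht : t ∈ OD lv pp c v w) (n : ℕ) :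
    Afam G lv t v n ≤ Ffam G lv pp c n v w :=
  sSup_le fun _ ⟨m, hm, hK⟩ => le_sSup ⟨t, ht, m, hm, hK⟩

theorem Ff_comm (hlv : ∀ x, 1 ≤ lv x) {v v' w w' : Finset Lab} {n n' : ℕ} (hd : Disjoint v v') :
    ⁅Ffam G lv pp c n v w, Ffam G lv pp c n' v' w'⁆ ≤
      Ffam G lv pp c (n + n') (v ∪ v') (w ∪ w') := by
  have := Ff_normal (G := G) (lv := lv) (pp := pp) (c := c) (n + n') (v ∪ v') (w ∪ w')
  refine _root_.DL78.Ty43.sSup_comm₂ ?_
  rintro K ⟨t, ht, m, hm, hK⟩ K' ⟨t', ht', m', hm', hK'⟩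
  have h1 : WT lv (glue v t t') v m K :=
    _root_.DL78.Ty43.WT.mono hK fun x hx => (glue_mem hx).le
  have h2 : WT lv (glue v t t') v' m' K' :=
    _root_.DL78.Ty43.WT.mono hK' fun x hx =>
      (glue_not_mem fun hx' => Finset.disjoint_left.1 hd hx' hx).le
  exact (_root_.DL78.Ty43.comm_WT hlv h1 h2 hd).trans
    ((_root_.DL78.Ty43.Afam_anti _ (by omega)).trans (Af_le_Ff (OD_glue hd ht ht') _))

/-- The filtration. -/
def FA (G : Type) [Group G] {Lab : Type} [DecidableEq Lab] (lv pp : Lab → ℕ) (c : ℕ)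
    (I : Idx Lab) : Subgroup G :=
  if I.2.1.Nodup then Ffam G lv pp c I.1 I.2.1.toFinset I.2.2.toFinset else ⊤

/-- The second filtration. -/
def FB (G : Type) [Group G] {Lab : Type} [DecidableEq Lab] (lv pp : Lab → ℕ) (c : ℕ)
    (I : Idx Lab) : Subgroup G := FA G lv pp c (I.1 + 1, I.2)

theorem FA_nodup {n : ℕ} {v w : Multiset Lab} (h : v.Nodup) :
    FA G lv pp c (n, v, w) = Ffam G lv pp c n v.toFinset w.toFinset := if_pos h

theorem FA_top {n : ℕ} {v w : Multiset Lab} (h : ¬ v.Nodup) : FA G lv pp c (n, v, w) = ⊤ :=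
  if_neg h

theorem FA_val (n : ℕ) (v : Finset Lab) :
    FA G lv pp c (n, v.val, 0) = Ffam G lv pp c n v ∅ := by
  rw [FA_nodup v.nodup, Finset.val_toFinset, Multiset.toFinset_zero]

theorem FA_val1 (n : ℕ) (v : Finset Lab) (a : Lab) :
    FA G lv pp c (n, v.val, {a}) = Ffam G lv pp c n v {a} := by
  rw [FA_nodup v.nodup, Finset.val_toFinset, Multiset.toFinset_singleton]

theorem FA_normal (I : Idx Lab) : (FA G lv pp c I).Normal := by
  unfold FA
  split_ifs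
  · exact Ff_normal _ _ _
  · infer_instance

theorem FA_act {Γ : Type} [Group Γ] [MulDistribMulAction Γ G] (γ : Γ) (I : Idx Lab) :
    ∀ g ∈ FA G lv pp c I, γ • g ∈ FA G lv pp c I := by
  intro g hg
  unfold FA at hg ⊢
  split_ifs at hg ⊢
  · exact Ff_act _ _ _ γ hg
  · trivial

theorem FA_mul (hlv : ∀ x, 1 ≤ lv x) (I J : Idx Lab) :
    ⁅FA G lv pp c I, FA G lv pp c J⁆ ≤ FA G lv pp c (I + J) := by
  obtain ⟨n, v, w⟩ := I
  obtain ⟨n', v', w'⟩ := J
  change _ ≤ FA G lv pp c (n + n', v + v', w + w')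
  by_cases h : (v + v').Nodup
  · have h' := h
    rw [Multiset.nodup_add] at h'
    rw [FA_nodup h, FA_nodup h'.1, FA_nodup h'.2.1, Multiset.toFinset_add, Multiset.toFinset_add]
    exact Ff_comm hlv (Multiset.disjoint_toFinset.2 h'.2.2)
  · rw [FA_top h]
    exact le_top

theorem mf28 (hlv : ∀ x, 1 ≤ lv x) : MF (FA G lv pp c) (FB G lv pp c) where
  nA := FA_normal
  nB _ := FA_normal _
  le I := by
    obtain ⟨n, v, w⟩ := I
    change FA G lv pp c (n + 1, v, w) ≤ FA G lv pp c (n, v, w)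
    by_cases h : v.Nodup
    · rw [FA_nodup h, FA_nodup h]
      exact Ff_anti _ _ (Nat.le_succ n)
    · rw [FA_top h, FA_top h]
  cent I := by
    have h1 : (⊤ : Subgroup G) ≤ FA G lv pp c (1, 0, 0) := by
      rw [FA_nodup Multiset.nodup_zero, Multiset.toFinset_zero]
      exact le_sSup ⟨pp, OD_base _ _ _ _ _, 1, le_rfl, WT.nil 1⟩
    have h2 := (Subgroup.commutator_mono (le_refl (FA G lv pp c I)) h1).trans
      (FA_mul (pp := pp) (c := c) hlv I (1, 0, 0))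
    have h3 : I + (1, 0, 0) = (I.1 + 1, I.2) := by
      obtain ⟨n, v, w⟩ := I
      change (n + 1, v + 0, w + 0) = _
      rw [add_zero, add_zero]
    rw [h3] at h2
    exact h2
  mul := FA_mul hlv
  mulB I J := by
    have h2 := FA_mul (G := G) (pp := pp) (c := c) hlv I (J.1 + 1, J.2)
    have h3 : I + (J.1 + 1, J.2) = ((I + J).1 + 1, (I + J).2) := by
      obtain ⟨n, v, w⟩ := I
      obtain ⟨n', v', w'⟩ := J
      rfl
    rw [h3] at h2
    exact h2

/-- the classes with a lowered anchor -/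
def vK (G : Type) [Group G] {Lab : Type} [DecidableEq Lab] (lv pp : Lab → ℕ) (c n : ℕ)
    (v : Finset Lab) (lam : ℕ) (a : Lab) : Subgroup G :=
  Afam G lv (Function.update pp a (pp a - lam)) v n ⊓ FA G lv pp c (n, v.val, {a})

theorem pK_le (n : ℕ) (v : Finset Lab) : Afam G lv pp v n ≤ FA G lv pp c (n, v.val, 0) := by
  rw [FA_val]
  exact Af_le_Ff (OD_base _ _ _ _ _) n

theorem vK_le (n : ℕ) (v : Finset Lab) (lam : ℕ) (a : Lab) :
    vK G lv pp c n v lam a ≤ FA G lv pp c (n, v.val, {a}) := inf_le_right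

theorem vK_eq {n : ℕ} {v : Finset Lab} {lam : ℕ} (hlam : lam ≤ c) {a : Lab} :
    vK G lv pp c n v lam a = Afam G lv (Function.update pp a (pp a - lam)) v n := by
  refine le_antisymm inf_le_left (le_inf le_rfl ?_)
  rw [FA_val1]
  exact Af_le_Ff (OD_anchor lv pp hlam v {a} (Finset.mem_singleton_self a)) n

theorem vK_zero {n : ℕ} {v : Finset Lab} {a : Lab} :
    vK G lv pp c n v 0 a = Afam G lv pp v n := by
  rw [vK_eq (Nat.zero_le c), Nat.sub_zero, Function.update_eq_self]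

theorem pK_mul (hlv : ∀ x, 1 ≤ lv x) {n n' : ℕ} {v v' : Finset Lab} (hd : Disjoint v v') :
    ⁅Afam G lv pp v n, Afam G lv pp v' n'⁆ ≤ Afam G lv pp (v ∪ v') (n + n') :=
  _root_.DL78.Ty43.Afam_comm hlv hd (fun _ _ => le_rfl) (fun _ _ => le_rfl)

theorem val_union {v v' : Finset Lab} (hd : Disjoint v v') : (v ∪ v').val = v.val + v'.val := by
  rw [← Finset.disjUnion_eq_union v v' hd]
  rfl

theorem vK_mul (hlv : ∀ x, 1 ≤ lv x) {n n' : ℕ} {v v' : Finset Lab} (hd : Disjoint v v')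
    {lam : ℕ} {a : Lab} :
    ⁅vK G lv pp c n v lam a, Afam G lv pp v' n'⁆ ≤ vK G lv pp c (n + n') (v ∪ v') lam a := by
  refine le_inf ?_ ?_
  · refine (Subgroup.commutator_mono inf_le_left le_rfl).trans ?_
    refine _root_.DL78.Ty43.Afam_comm hlv hd (fun _ _ => le_rfl) (fun x _ => ?_)
    by_cases hx : x = a
    · subst hx
      rw [Function.update_self]
      exact Nat.sub_le _ _
    · rw [Function.update_of_ne hx]
  · refine (Subgroup.commutator_mono inf_le_right (pK_le (c := c) n' v')).trans ?_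
    refine (FA_mul hlv _ _).trans (le_of_eq ?_)
    change FA G lv pp c (n + n', v.val + v'.val, {a} + 0) = _
    rw [add_zero, val_union hd]

theorem vK_act {Γ : Type} [Group Γ] [MulDistribMulAction Γ G] (γ : Γ) (n : ℕ) (v : Finset Lab)
    (lam : ℕ) (a : Lab) : ∀ g ∈ vK G lv pp c n v lam a, γ • g ∈ vK G lv pp c n v lam a :=
  fun _ hg => ⟨_root_.DL78.Ty43.Afam_act v n γ hg.1, FA_act γ _ _ hg.2⟩

/-- the derived series of a subgroup is invariant -/
theorem dsg_conj {C : Subgroup G} (j : ℕ) : ∀ x ∈ C, ∀ g ∈ dsg C j, x * g * x⁻¹ ∈ dsg C j := by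
  induction j with
  | zero => exact fun x hx g hg => mul_mem (mul_mem hx hg) (inv_mem hx)
  | succ j ih =>
    intro x hx g hg
    have h1 : (dsg C j).map (MulAut.conj x).toMonoidHom ≤ dsg C j := by
      rintro _ ⟨y, hy, rfl⟩
      exact ih x hx y hy
    have h2 : (dsg C (j + 1)).map (MulAut.conj x).toMonoidHom ≤ dsg C (j + 1) := by
      change (⁅dsg C j, dsg C j⁆ : Subgroup G).map _ ≤ ⁅dsg C j, dsg C j⁆
      rw [Subgroup.map_commutator]
      exact Subgroup.commutator_mono h1 h1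
    exact h2 ⟨g, hg, rfl⟩

theorem dsg_comm {C : Subgroup G} (j : ℕ) : ⁅dsg C j, dsg C 0⁆ ≤ dsg C j := by
  rw [Subgroup.commutator_le]
  intro g hg x hx
  rw [commutatorElement_def, mul_assoc, mul_assoc, ← mul_assoc x]
  exact mul_mem hg (dsg_conj j x hx _ (inv_mem hg))

theorem CC_mul (hlv : ∀ x, 1 ≤ lv x) {C D E : Subgroup G} (h : ⁅C, D⁆ ≤ E) (I J : Idx Lab) :
    ⁅C ⊓ FA G lv pp c I, D ⊓ FA G lv pp c J⁆ ≤ E ⊓ FA G lv pp c (I + J) :=
  le_inf ((Subgroup.commutator_mono inf_le_left inf_le_left).trans h)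
    ((Subgroup.commutator_mono inf_le_right inf_le_right).trans (FA_mul hlv I J))

end fil

/-! ### The ring -/

/-- The three generation statements. -/
structure Gen3 {p : ℕ} {M Lab : Type} [LieRing M] [DecidableEq Lab]
    (lv pp : Lab → ℕ) (c : ℕ) (pf : ℕ → Finset Lab → Fam (ZMod p) M)
    (vf : ℕ → Finset Lab → ℕ → Lab → Fam (ZMod p) M) : Prop where
  gA : ∀ n v lam a, a ∈ v → lv a = v.sup lv → 2 ≤ (atL lv v (v.sup lv)).card → lam ≤ c →
    ∀ b, vf n v lam a b ≤ ⨆ q : {q : (ℕ × Finset Lab) × (ℕ × Finset Lab) //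
        q.1.1 + q.2.1 = n ∧ Disjoint q.1.2 q.2.2 ∧ q.1.2 ∪ q.2.2 = v ∧
        q.1.2.sup lv = v.sup lv ∧ q.2.2.sup lv = v.sup lv ∧ a ∈ q.1.2},
      br (vf q.1.1.1 q.1.1.2 lam a) (pf q.1.2.1 q.1.2.2) b
  gA' : ∀ n v, 2 ≤ (atL lv v (v.sup lv)).card → 1 ≤ v.sup lv →
    ∀ b, pf n v b ≤ ⨆ q : {q : (ℕ × Finset Lab) × (ℕ × Finset Lab) //
        q.1.1 + q.2.1 = n ∧ Disjoint q.1.2 q.2.2 ∧ q.1.2 ∪ q.2.2 = v ∧
        q.1.2.sup lv = v.sup lv ∧ q.2.2.sup lv = v.sup lv},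
      br (pf q.1.1.1 q.1.1.2) (pf q.1.2.1 q.1.2.2) b
  gB : ∀ n v lam a, a ∈ v → lv a = v.sup lv → atL lv v (v.sup lv) = {a} → lam + 1 ≤ c →
    c < pp a →
    ∀ b, vf n v lam a b ≤ ⨆ q : {q : (ℕ × Finset Lab) × (ℕ × Finset Lab) //
        q.1.1 + q.2.1 = n ∧ Disjoint q.1.2 q.2.2 ∧ q.1.2 ∪ q.2.2 = v ∧
        q.1.2.sup lv = v.sup lv ∧ a ∈ q.1.2 ∧ q.2.2.sup lv = v.sup lv - 1},
      br (vf q.1.1.1 q.1.1.2 (lam + 1) a) (pf q.1.2.1 q.1.2.2) b

section ring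

variable {p : ℕ} [Fact p.Prime] {W G Lab : Type} [LieRing W] [Group G] [DecidableEq Lab]

/-- `F` -/
def FF (φ : AddMonoid.End W) (cls : Idx Lab → G → W) (lv pp : Lab → ℕ) (c : ℕ) (I : Idx Lab) :
    Fam (ZMod p) (Conv p W) := fm φ (im cls I (FA G lv pp c I))

/-- `pf` -/
def Fp (φ : AddMonoid.End W) (cls : Idx Lab → G → W) (lv pp : Lab → ℕ) (n : ℕ)
    (v : Finset Lab) : Fam (ZMod p) (Conv p W) := fm φ (im cls (n, v.val, 0) (Afam G lv pp v n))

/-- `vf` -/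
def Fv (φ : AddMonoid.End W) (cls : Idx Lab → G → W) (lv pp : Lab → ℕ) (c n : ℕ)
    (v : Finset Lab) (lam : ℕ) (a : Lab) : Fam (ZMod p) (Conv p W) :=
  fm φ (im cls (n, v.val, {a}) (vK G lv pp c n v lam a))

/-- the test elements -/
def GG (φ : AddMonoid.End W) (cls : Idx Lab → G → W) (lv pp : Lab → ℕ) (c : ℕ)
    (C : Subgroup G) (j : ℕ) (I : Idx Lab) (m : ℕ) : Set (Conv p W) :=
  tst φ (im cls I (FA G lv pp c I)) (im cls I (dsg C j ⊓ FA G lv pp c I)) m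

end ring

end Pool.Agent.DLB
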