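import Pool.Agent.Lib.MP_2b9f9a_al.DLB.RingB28

/-!
# DL78 (MP_2b9f9a), section 4: the instance of `LD`
-/

set_option autoImplicit false

namespace Pool.Agent.DLB

open Pool.Agent.Lib.MP_2b9f9a_al
open Pool.Agent.DL17
open Pool.Agent.PX (Fro lc StFpf StCov dsg)
open _root_.DL78 (WT Afam Ffam OD)
open Pool.Agent.DL78.R28

section inst

variable {r p : ℕ} [Fact r.Prime] [Fact p.Prime] {Γ P W Lab : Type} [Group Γ] [Finite Γ]
  [Group P] [Finite P] [MulDistribMulAction Γ P] [LieRing W] [DecidableEq Lab]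
  {F H : Subgroup Γ} [Fintype H] {f : Γ} {τ : H →* (ZMod p)ˣ} {lv pp : Lab → ℕ} {c : ℕ}
  {cls : Idx Lab → P → W} {act : Γ →* AddMonoid.End W}

/-- The facts on `Conv p W`. -/
theorem base28 (hFpf : StFpf) (hP : IsPGroup r P) (hFro : Fro P F H) (hf : f ∈ F) (hf1 : f ≠ 1)
    (hfp : f ^ p = 1) (hlv : ∀ x, 1 ≤ lv x)
    (h : GrM (FA P lv pp c) (FB P lv pp c) cls act) :
    Datum p (shift p W) (lift p (act f)) ∧ (∀ u : Conv p W, p • u = 0 → u = 0) ∧
      ∃ q : ℤ, ∀ x : W, q • (p • x) = x := by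
  have hfpf := fpf hFpf (mf28 hlv) h FA_act (fun γ i => FA_act γ _) hP hFro
  have hφp : (act f) ^ p = 1 := by rw [← map_pow, hfp, map_one]
  have hD := conv_datum (p := p) (h.act_lie f) hφp (hfpf f hf hf1)
  have htW : ∀ x : W, p • x = 0 → x = 0 := no_torsion hφp (hfpf f hf hf1)
  refine ⟨hD, ?_, ?_⟩
  · intro u hu
    apply conv_ext; intro c
    apply htW
    exact congrArg (evalHom c) hu
  · exact W7.inv_p htW ⟨Nat.card P, Nat.card_pos, Grp28.tor h⟩

omit [Finite P] [Finite Γ] in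
theorem cls_B (hlv : ∀ x, 1 ≤ lv x) (h : GrM (FA P lv pp c) (FB P lv pp c) cls act)
    {I : Idx Lab} {K : Subgroup P} (hK : K ≤ FB P lv pp c I) {x : W} (hx : x ∈ im cls I K) :
    x = 0 := by
  obtain ⟨g, hg, rfl⟩ := mem_im h (hK.trans ((mf28 hlv).le I)) hx
  exact (h.zero I g ((mf28 hlv).le I (hK hg))).2 (hK hg)

/-- the closing map -/
theorem nu28
    (hlv : ∀ x, 1 ≤ lv x)
    (h : GrM (FA P lv pp c) (FB P lv pp c) cls act) (n : ℕ) (v : Finset Lab) (a : Lab)
    (hlva : lv a = v.sup lv) (hmax : ∀ x ∈ v, lv x = lv a → pp x ≤ pp a)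
    (hfe : _root_.DL78.Feas lv pp v n) :
    ∃ ν : AddMonoid.End W,
      (∀ I, I ≠ (n, v.val, {a}) → ∀ x ∈ im cls I (FA P lv pp c I), ν x = 0) ∧
      (∀ K : Subgroup P, K ≤ FA P lv pp c (n, v.val, {a}) → K ≤ FA P lv pp c (n, v.val, 0) ∧
        (∀ x ∈ im cls (n, v.val, {a}) K, ν x ∈ im cls (n, v.val, 0) K) ∧
        ∀ y ∈ im cls (n, v.val, 0) K, ∃ x ∈ im cls (n, v.val, {a}) K, ν x = y) ∧
      ∀ γ w, ν (act γ w) = act γ (ν w) := by
  have hm := mf28 (G := P) (pp := pp) (c := c) hlv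
  have hA : ∀ (γ : Γ) (I : Idx Lab), ∀ g ∈ FA P lv pp c I, γ • g ∈ FA P lv pp c I := FA_act
  have hcl : ∀ m, n ≤ m → FA P lv pp c (m, v.val, {a}) ≤ FA P lv pp c (m, v.val, 0) := by
    intro m hnm
    rw [FA_val1, FA_val]
    have := _root_.DL78.Ffam_close (G := P) (c := c) (w := ∅) hlv hlva.symm (fun x hx => by
      rw [_root_.DL78.mem_atL] at hx
      exact hmax x hx.1 hx.2) (_root_.DL78.Feas_mono hfe hnm)
    rwa [insert_empty_eq] at this
  obtain ⟨ν, e1, e2, e3⟩ := exists_map hm h hA (fun I => I = (n, v.val, {a}))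
    (fun _ => (n, v.val, 0)) (by rintro _ rfl; exact hcl n le_rfl)
    (by rintro _ rfl; exact hcl (n + 1) (Nat.le_succ n))
  have e1' : ∀ g ∈ FA P lv pp c (n, v.val, {a}), ν (cls (n, v.val, {a}) g) =
      cls (n, v.val, 0) g := e1 _ rfl
  refine ⟨ν, ?_, ?_, e3⟩
  · intro I hI x hx
    obtain ⟨g, hg, e⟩ := mem_im (K := FA P lv pp c I) h le_rfl hx
    rw [e]
    exact e2 I hI g hg
  · intro K hK
    refine ⟨hK.trans (hcl n le_rfl), ?_, ?_⟩
    · intro x hx
      obtain ⟨g, hg, rfl⟩ := mem_im (i := ((n, v.val, {a}) : Idx Lab)) h hK hx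
      rw [e1' g (hK hg)]
      exact cls_im hg
    · intro y hy
      obtain ⟨g, hg, rfl⟩ := mem_im (i := ((n, v.val, 0) : Idx Lab)) h
        (hK.trans (hcl n le_rfl)) hy
      exact ⟨cls (n, v.val, {a}) g, cls_im hg, e1' g (hK hg)⟩

omit [Finite Γ] in
/-- the projections -/
theorem prj28 (hD : Datum p (shift p W) (lift p (act f)))
    (htM : ∀ u : Conv p W, p • u = 0 → u = 0) (hlv : ∀ x, 1 ≤ lv x)
    (h : GrM (FA P lv pp c) (FB P lv pp c) cls act) (I : Idx Lab) (b : ZMod p) :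
    ∃ (V : Type) (_ : AddCommGroup V) (κ : Conv p W →+ V),
    (∀ I', I' ≠ I → ∀ b', ∀ x ∈ FF (p := p) (act f) cls lv pp c I' b', κ x = 0) ∧
    (∀ b', b' ≠ b → ∀ x ∈ FF (p := p) (act f) cls lv pp c I b', κ x = 0) ∧
    (∀ x ∈ FF (p := p) (act f) cls lv pp c I b, κ x = 0 → x = 0) := by
  obtain ⟨π, h1, h2⟩ := Grp28.proj (mf28 (G := P) (pp := pp) (c := c) hlv) h
  have key : ∀ b', ∀ x ∈ FF (p := p) (act f) cls lv pp c I b', lift p (π I) x = x := by
    intro b' x hx
    apply conv_ext; intro c'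
    obtain ⟨g, hg, e⟩ := mem_im (K := FA P lv pp c I) h le_rfl (hx.2 c')
    change π I (x c') = x c'
    rw [e]
    exact h1 I g hg
  let κ : AddMonoid.End (Conv p W) := proj (shift p W) (lift p (act f)) b * lift p (π I)
  have hκ : ∀ x, κ x = proj (shift p W) (lift p (act f)) b (lift p (π I) x) := fun _ => rfl
  refine ⟨Conv p W, inferInstance, κ, ?_, ?_, ?_⟩
  · intro I' hI b' x hx
    have h3 : lift p (π I) x = 0 := by
      apply conv_ext; intro c'
      obtain ⟨g, hg, e⟩ := mem_im (K := FA P lv pp c I') h le_rfl (hx.2 c')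
      change π I (x c') = 0
      rw [e]
      exact h2 I I' hI g hg
    change κ x = 0
    rw [hκ, h3, map_zero]
  · intro b' hb x hx
    change κ x = 0
    rw [hκ, key b' x hx, proj_eig hD hx.1, if_neg hb]
  · intro x hx h0
    change κ x = 0 at h0
    rw [hκ, key b x hx, proj_eig hD hx.1, if_pos rfl] at h0
    exact htM x h0

/-- The instance, without the generation statements. -/
theorem ld28 (hFpf : StFpf) (hCov : StCov) (hP : IsPGroup r P) (hFro : Fro P F H) (hf : f ∈ F)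
    (hf1 : f ≠ 1) (hfp : f ^ p = 1) (hτ : Function.Injective τ)
    (hconj : ∀ x : H, f * (x : Γ) = x * f ^ (((τ x : (ZMod p)ˣ) : ZMod p)).val)
    (hlv : ∀ x, 1 ≤ lv x) (h : GrM (FA P lv pp c) (FB P lv pp c) cls act)
    (hgen : Gen3 lv pp c (Fp (p := p) (act f) cls lv pp) (Fv (act f) cls lv pp c)) :
    LD lv pp c τ (W7.sig p (act.comp H.subtype)) (FF (act f) cls lv pp c)
      (Fp (act f) cls lv pp) (Fv (act f) cls lv pp c)
      (GG (act f) cls lv pp c (Grp28.fix (P := P) H)) := by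
  have hm := mf28 (G := P) (pp := pp) (c := c) hlv
  have hA : ∀ (γ : Γ) (I : Idx Lab), ∀ g ∈ FA P lv pp c I, γ • g ∈ FA P lv pp c I := FA_act
  have hB : ∀ (γ : Γ) (I : Idx Lab), ∀ g ∈ FB P lv pp c I, γ • g ∈ FB P lv pp c I :=
    fun γ I => FA_act γ _
  obtain ⟨hD, htM, q, hq⟩ := base28 hFpf hP hFro hf hf1 hfp hlv h
  have hact : ∀ g : H, act f * (act.comp H.subtype) g =
      (act.comp H.subtype) g * (act f) ^ (((τ g : (ZMod p)ˣ) : ZMod p)).val := by
    intro g
    change act f * act (g : Γ) = act (g : Γ) * _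
    rw [← map_mul, hconj g, map_mul, map_pow]
  have hlie : ∀ (g : H) (x y : W), (act.comp H.subtype) g ⁅x, y⁆ =
      ⁅(act.comp H.subtype) g x, (act.comp H.subtype) g y⁆ := fun g x y => h.act_lie _ x y
  have iA : ∀ (γ : Γ) (I : Idx Lab), ∀ x ∈ im cls I (FA P lv pp c I),
      act γ x ∈ im cls I (FA P lv pp c I) := fun γ I x hx => im_act h le_rfl γ (hA γ I) hx
  have ip : ∀ (γ : Γ) (n : ℕ) (v : Finset Lab), ∀ x ∈ im cls (n, v.val, 0) (Afam P lv pp v n),
      act γ x ∈ im cls (n, v.val, 0) (Afam P lv pp v n) := fun γ n v x hx =>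
    im_act h (pK_le n v) γ (fun g hg => _root_.DL78.Ty43.Afam_act v n γ hg) hx
  have iv : ∀ (γ : Γ) (n : ℕ) (v : Finset Lab) (lam : ℕ) (a : Lab),
      ∀ x ∈ im cls (n, v.val, {a}) (vK P lv pp c n v lam a),
      act γ x ∈ im cls (n, v.val, {a}) (vK P lv pp c n v lam a) := fun γ n v lam a x hx =>
    im_act h (vK_le n v lam a) γ (vK_act γ n v lam a) hx
  have mulA : ∀ I J : Idx Lab, ∀ x ∈ im cls I (FA P lv pp c I), ∀ y ∈ im cls J (FA P lv pp c J),
      ⁅x, y⁆ ∈ im cls (I + J) (FA P lv pp c (I + J)) := fun I J x hx y hy =>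
    im_lie h le_rfl le_rfl (FA_mul hlv I J) hx hy
  refine
    { inj := hτ
      lvpos := hlv
      actF := fun I => fm_act hD hact hlie fun g x hx => iA _ I x hx
      actp := fun n v => fm_act hD hact hlie fun g x hx => ip _ n v x hx
      actv := fun n v lam a => fm_act hD hact hlie fun g x hx => iv _ n v lam a x hx
      zero := fun I x hx => fm_zero hD hx
      top := ?_
      lie := fun I J a b x y hx hy => fm_lie hD (mulA I J) hx hy
      pfF := fun n v a u hu => fm_mono (im_mono (pK_le n v)) hu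
      vfF := fun n v lam a _ _ b u hu => fm_mono (im_mono (vK_le n v lam a)) hu
      ppl := ?_
      vpl := ?_
      nu := ?_
      t0 := ?_
      t1 := ?_
      t2 := ?_
      tmono := fun j I m m' hmm x hx => tst_le hmm hx
      tsum := ?_
      prj := fun I b => prj28 hD htM hlv h I b
      gA := hgen.gA
      gA' := hgen.gA'
      gB := hgen.gB }
  · -- top
    intro n v w hv a x hx
    apply conv_ext; intro c'
    refine cls_B (K := FA P lv pp c (n, v, w)) (I := (n, v, w)) hlv h ?_ (hx.2 c')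
    change _ ≤ FA P lv pp c (n + 1, v, w)
    rw [FA_top hv (n := n + 1)]
    exact le_top
  · -- ppl
    intro n v n' v' a b x y hd hx hy
    have e : ((n, v.val, 0) + (n', v'.val, 0) : Idx Lab) = (n + n', (v ∪ v').val, 0) := by
      rw [val_union hd]
      change ((n + n', v.val + v'.val, 0 + 0) : Idx Lab) = _
      rw [add_zero]
    refine fm_lie hD (fun x hx y hy => ?_) hx hy
    have := im_lie h (pK_le n v) (pK_le n' v') (pK_mul hlv hd) hx hy
    rwa [e] at this
  · -- vpl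
    intro n v n' v' lam l a b x y hd _ _ hx hy
    have e : ((n, v.val, {l}) + (n', v'.val, 0) : Idx Lab) = (n + n', (v ∪ v').val, {l}) := by
      rw [val_union hd]
      change ((n + n', v.val + v'.val, ({l} : Multiset Lab) + 0) : Idx Lab) = _
      rw [add_zero]
    refine fm_lie hD (fun x hx y hy => ?_) hx hy
    have := im_lie h (vK_le n v lam l) (pK_le n' v') (vK_mul hlv hd) hx hy
    rwa [e] at this
  · -- nu
    intro n v a hav hlva hmax
    have h1 : 1 ≤ v.sup lv := hlva ▸ hlv a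
    by_cases hfe : _root_.DL78.Feas lv pp v n
    · right
      obtain ⟨ν, e1, e2, e3⟩ := nu28 hlv h n v a hlva hmax hfe
      obtain ⟨k1, k2, k3⟩ := e2 _ le_rfl
      have hK : ∀ x ∈ im cls (n, v.val, {a}) (FA P lv pp c (n, v.val, {a})),
          ν x ∈ im cls (n, v.val, 0) (FA P lv pp c (n, v.val, 0)) :=
        fun x hx => im_mono k1 (k2 x hx)
      refine ⟨lift p ν, ?_, ?_, ?_, ?_, ?_⟩
      · intro I hI b x hx
        apply conv_ext; intro c'
        exact e1 I hI _ (hx.2 c')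
      · intro b x hx
        exact fm_map (fun w => e3 f w) hK hx
      · intro g x
        exact lift_sig (act := act.comp H.subtype) (fun g w => e3 g w) g x
      · intro b u hu
        obtain ⟨m1, m2, m3⟩ := e2 (vK P lv pp c n v 0 a) (vK_le n v 0 a)
        have hu' : u ∈ fm (p := p) (act f) (im cls (n, v.val, 0) (vK P lv pp c n v 0 a)) b := by
          rw [vK_zero]
          exact hu
        exact fm_lift (K := im cls (n, v.val, {a}) (vK P lv pp c n v 0 a)) hD
          (fun w => e3 f w) (fun x hx => iv f n v 0 a x hx) m3 hq hu'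
      · intro j m x hx
        obtain ⟨m1, m2, m3⟩ := e2 (dsg (Grp28.fix (P := P) H) j ⊓ FA P lv pp c (n, v.val, {a}))
          inf_le_right
        have hC : ∀ x ∈ im cls (n, v.val, {a}) (dsg (Grp28.fix (P := P) H) j ⊓
            FA P lv pp c (n, v.val, {a})), ν x ∈ im cls (n, v.val, 0)
            (dsg (Grp28.fix (P := P) H) j ⊓ FA P lv pp c (n, v.val, 0)) :=
          fun x hx => im_mono (inf_le_inf_left _ k1) (m2 x hx)
        exact tst_map (fun w => e3 f w) hK hC hx
    · left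
      intro b u hu
      apply conv_ext; intro c'
      refine cls_B (K := Afam P lv pp v n) (I := (n, v.val, 0)) hlv h ?_ (hu.2 c')
      exact (_root_.DL78.Afam_infeas hlv h1 hfe).trans (pK_le (n + 1) v)
  · -- t0
    intro I a y hy
    refine tst_tr (K := im cls I (FA P lv pp c I)) hD hact (fun g x hx => iA _ I x hx)
      (fun x hx hfx => ?_) hy
    exact cover hCov hm h hA hB hP hFro hx (fun x hx' => hfx ⟨x, hx'⟩)
  · -- t1
    intro j I m I' m' x hx y hy
    exact tst_lie hD (mulA I I')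
      (fun x hx y hy => im_lie (K := dsg (Grp28.fix (P := P) H) j ⊓ FA P lv pp c I)
        (K' := dsg (Grp28.fix (P := P) H) j ⊓ FA P lv pp c I') h inf_le_right inf_le_right
        (CC_mul hlv (le_refl ⁅dsg (Grp28.fix (P := P) H) j, dsg (Grp28.fix (P := P) H) j⁆) I I')
        hx hy) hx hy
  · -- t2
    intro j I m I' m' x hx y hy
    exact tst_lie hD (mulA I I')
      (fun x hx y hy => im_lie (K := dsg (Grp28.fix (P := P) H) j ⊓ FA P lv pp c I)
        (K' := dsg (Grp28.fix (P := P) H) 0 ⊓ FA P lv pp c I') h inf_le_right inf_le_right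
        (CC_mul hlv (dsg_comm j) I I') hx hy) hx hy
  · -- tsum
    rintro j I m x ⟨_, s, y, h2, h3⟩
    refine ⟨List.ofFn fun k => (s k, y k), by simp, ?_, ?_⟩
    · intro q hq
      rw [List.mem_ofFn] at hq
      obtain ⟨k, rfl⟩ := hq
      exact h2 k
    · rw [List.map_ofFn, List.sum_ofFn, h3]
      rfl

omit [Fintype H] in
/-- no test elements if the derived series of the fixed points ends -/
theorem gg_zero (h : GrM (FA P lv pp c) (FB P lv pp c) cls act) {d : ℕ}
    (hd : dsg (Grp28.fix (P := P) H) d = ⊥) (I : Idx Lab) (m : ℕ) :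
    ∀ x ∈ GG (p := p) (act f) cls lv pp c (Grp28.fix (P := P) H) d I m, x = 0 := by
  rintro x ⟨h1, _⟩
  apply conv_ext; intro c'
  have h2 := h1 c'
  rw [hd, bot_inf_eq] at h2
  exact im_bot h h2

/-- from the vanishing of the homogeneous classes to the group -/
theorem ext28 (hFpf : StFpf) (hP : IsPGroup r P) (hFro : Fro P F H) (hf : f ∈ F) (hf1 : f ≠ 1)
    (hfp : f ^ p = 1) (hlv : ∀ x, 1 ≤ lv x)
    (h : GrM (FA P lv pp c) (FB P lv pp c) cls act) (n : ℕ) (v : Finset Lab) (a : Lab)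
    (h0 : ∀ b, ∀ x ∈ Fv (p := p) (act f) cls lv pp c n v 0 a b, x = 0) :
    Afam P lv pp v n ≤ Ffam P lv pp c (n + 1) v {a} := by
  obtain ⟨hD, htM, q, hq⟩ := base28 (p := p) hFpf hP hFro hf hf1 hfp hlv h
  intro g hg
  have hg' : g ∈ vK P lv pp c n v 0 a := by rw [vK_zero]; exact hg
  have h1 : cls (n, v.val, {a}) g = 0 :=
    fm_bot hD (fun x hx => im_act h (vK_le n v 0 a) f (vK_act f n v 0 a) hx) h0 (cls_im hg')
  have h2 := (h.zero _ g (vK_le n v 0 a hg')).1 h1
  change g ∈ FA P lv pp c (n + 1, v.val, {a}) at h2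
  rwa [FA_val1] at h2

end inst

end Pool.Agent.DLB
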