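import Pool.Agent.Lib.MP_2b9f9a_al.DLB.Fam7

/-!
# LAMBDA, part 2: the statement, and the two steps (fix `w`, fix `tr u`)
-/

set_option autoImplicit false

namespace Pool.Agent.DLB

open Pool.Agent.Lib.MP_2b9f9a_al
open Pool.Agent.DL17

/-- The hypotheses on the functional. -/
structure KD {p : ℕ} {M V Lab : Type} [LieRing M] [AddCommGroup V]
    (F : Idx Lab → Fam (ZMod p) M) (G : ℕ → Idx Lab → ℕ → Set M) (n : ℕ) (v : Finset Lab)
    (a : Lab) (S : Finset (ZMod p)) (j M₀ : ℕ) (κ : M →+ V) : Prop where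
  comp : ∀ I, I ≠ (n, v.val, {a}) → ∀ b, ∀ x ∈ F I b, κ x = 0
  supp : ∀ b, b ∉ S → ∀ x ∈ F (n, v.val, {a}) b, κ x = 0
  kill : ∀ x ∈ G j (n, v.val, {a}) M₀, κ x = 0

/-- LAMBDA for given constants, under the condition `P` on the number of top blocks. -/
def Lam (h i j N M₀ lam₀ : ℕ) (P : ℕ → Prop) : Prop := ∀ (p : ℕ) [Fact p.Prime]
  (M V Γ Lab : Type) [LieRing M] [AddCommGroup V] [Group Γ] [Fintype Γ] [DecidableEq Lab]
  (lv pp : Lab → ℕ) (c : ℕ) (τ : Γ →* (ZMod p)ˣ) (σ : Γ →* AddMonoid.End M)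
  (F : Idx Lab → Fam (ZMod p) M) (pf : ℕ → Finset Lab → Fam (ZMod p) M)
  (vf : ℕ → Finset Lab → ℕ → Lab → Fam (ZMod p) M) (G : ℕ → Idx Lab → ℕ → Set M)
  (κ : M →+ V) (S : Finset (ZMod p)) (n : ℕ) (v : Finset Lab) (a : Lab) (lam : ℕ),
  Fintype.card Γ = h → (∀ x, c < pp x) → LD lv pp c τ σ F pf vf G → S.card ≤ N →
  v.sup lv = i → a ∈ v → lv a = i → P (atL lv v i).card → lam + lam₀ ≤ c →
  KD F G n v a S j M₀ κ → ∀ b, ∀ ξ ∈ vf n v lam a b, κ (tr σ ξ) = 0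

theorem Lam.mono {h i j N M₀ lam₀ M₁ lam₁ : ℕ} {P : ℕ → Prop} (hL : Lam h i j N M₀ lam₀ P)
    (hM : M₀ ≤ M₁) (hl : lam₀ ≤ lam₁) : Lam h i j N M₁ lam₁ P := by
  intro p _ M V Γ Lab _ _ _ _ _ lv pp c τ σ F pf vf G κ S n v a lam h1 h2 D h3 h4 h5 h6 h7 h8 hK
  exact hL p M V Γ Lab lv pp c τ σ F pf vf G κ S n v a lam h1 h2 D h3 h4 h5 h6 h7 (by omega)
    ⟨hK.comp, hK.supp, fun x hx => hK.kill x (D.tmono _ _ _ _ hM hx)⟩

section supports

variable {p : ℕ} {Γ : Type} [Group Γ] [Fintype Γ]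

theorem exists_S1 (τ : Γ →* (ZMod p)ˣ) (S : Finset (ZMod p)) :
    ∃ S' : Finset (ZMod p), S'.card ≤ Fintype.card Γ * S.card ∧
      ∀ b, b ∉ S' → ∀ g : Γ, ((τ g : (ZMod p)ˣ) : ZMod p) * b ∉ S := by
  classical
  refine ⟨Finset.univ.biUnion
      (fun g : Γ => S.image (fun s => (((τ g)⁻¹ : (ZMod p)ˣ) : ZMod p) * s)), ?_, ?_⟩
  · rw [← Finset.card_univ]
    exact Finset.card_biUnion_le_card_mul _ _ _ (fun g _ => Finset.card_image_le)
  · intro b hb g hg
    apply hb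
    rw [Finset.mem_biUnion]
    refine ⟨g, Finset.mem_univ _, ?_⟩
    rw [Finset.mem_image]
    refine ⟨_, hg, ?_⟩
    rw [← mul_assoc, Units.inv_mul, one_mul]

theorem exists_S2 (τ : Γ →* (ZMod p)ˣ) (S : Finset (ZMod p)) (b' : ZMod p) :
    ∃ S' : Finset (ZMod p), S'.card ≤ Fintype.card Γ * S.card ∧
      ∀ b, b ∉ S' → ∀ g : Γ, b + ((τ g : (ZMod p)ˣ) : ZMod p) * b' ∉ S := by
  classical
  refine ⟨Finset.univ.biUnion
      (fun g : Γ => S.image (fun s => s - ((τ g : (ZMod p)ˣ) : ZMod p) * b')), ?_, ?_⟩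
  · rw [← Finset.card_univ]
    exact Finset.card_biUnion_le_card_mul _ _ _ (fun g _ => Finset.card_image_le)
  · intro b hb g hg
    apply hb
    rw [Finset.mem_biUnion]
    refine ⟨g, Finset.mem_univ _, ?_⟩
    rw [Finset.mem_image]
    exact ⟨_, hg, by ring⟩

theorem exists_S3 {M : Type} (l : List (ZMod p × M)) (S : Finset (ZMod p)) :
    ∃ S' : Finset (ZMod p), S'.card ≤ S.card * l.length ∧
      ∀ b, b ∉ S' → ∀ q ∈ l, q.1 + b ∉ S := by
  classical
  induction l with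
  | nil => exact ⟨∅, by simp, by simp⟩
  | cons q l ih =>
    obtain ⟨S', h1, h2⟩ := ih
    refine ⟨S.image (fun s => s - q.1) ∪ S', ?_, ?_⟩
    · refine (Finset.card_union_le _ _).trans ?_
      rw [List.length_cons, mul_add, mul_one, add_comm]
      exact Nat.add_le_add h1 Finset.card_image_le
    · intro b hb q' hq'
      rw [Finset.mem_union, not_or] at hb
      rcases List.mem_cons.mp hq' with rfl | h
      · intro h
        apply hb.1
        rw [Finset.mem_image]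
        exact ⟨_, h, by ring⟩
      · exact h2 b hb.2 q' h

end supports

theorem idx_add {Lab : Type} [DecidableEq Lab] {n n' : ℕ} {v v' : Finset Lab}
    {w w' : Multiset Lab} (hd : Disjoint v v') :
    ((n, v.val, w) : Idx Lab) + (n', v'.val, w') = (n + n', (v ∪ v').val, w + w') := by
  have h : v.val + v'.val = (v ∪ v').val := by
    rw [Finset.union_val]
    exact Multiset.add_eq_union_iff_disjoint.mpr (Finset.disjoint_val.mpr hd)
  rw [Prod.mk_add_mk, Prod.mk_add_mk, h]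

section steps

variable {p : ℕ} [Fact p.Prime] {M V Γ Lab : Type} [LieRing M] [AddCommGroup V] [Group Γ]
  [Fintype Γ]
  [DecidableEq Lab] {lv pp : Lab → ℕ} {c : ℕ} {τ : Γ →* (ZMod p)ˣ} {σ : Γ →* AddMonoid.End M}
  {F : Idx Lab → Fam (ZMod p) M} {pf : ℕ → Finset Lab → Fam (ZMod p) M}
  {vf : ℕ → Finset Lab → ℕ → Lab → Fam (ZMod p) M} {G : ℕ → Idx Lab → ℕ → Set M}
  (D : LD lv pp c τ σ F pf vf G)

omit [Fact p.Prime] in
theorem lie_tr (x u : M) : ⁅x, tr σ u⁆ = ∑ g : Γ, ⁅x, σ g u⁆ := by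
  unfold tr
  exact lie_sum _ _ _

include D

/-- the support of `κ ∘ tr` -/
theorem LD.tr_supp {n : ℕ} {v : Finset Lab} {a : Lab} {S : Finset (ZMod p)} {j M₀ : ℕ}
    {κ : M →+ V} (hK : KD F G n v a S j M₀ κ) {b : ZMod p}
    (hb : ∀ g : Γ, ((τ g : (ZMod p)ˣ) : ZMod p) * b ∉ S) {I : Idx Lab} {x : M}
    (hx : x ∈ F I b) : κ (tr σ x) = 0 := by
  unfold tr
  rw [map_sum]
  apply Finset.sum_eq_zero
  intro g _
  have h := (D.actF I).map g b x hx
  by_cases hI : I = (n, v.val, {a})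
  · subst hI
    exact hK.supp _ (hb g) _ h
  · exact hK.comp I hI _ _ h

/-- fix `tr u`, apply LAMBDA to `x` -/
theorem LD.stepX {h i j j' N Mx lamx M₀ : ℕ} {P : ℕ → Prop} (hL : Lam h i j' (h * N) Mx lamx P)
    (hcard : Fintype.card Γ = h) (hpp : ∀ x, c < pp x)
    {n : ℕ} {v : Finset Lab} {a : Lab} {S : Finset (ZMod p)}
    (hS : S.card ≤ N) {κ : M →+ V} (hK : KD F G n v a S j M₀ κ) {nx nu : ℕ} {vx vu : Finset Lab}
    (hd : Disjoint vx vu) (hn : nx + nu = n) (hv : vx ∪ vu = v) {u : M} {b' : ZMod p}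
    (hu : u ∈ F (nu, vu.val, 0) b') (hsup : vx.sup lv = i) (ha : a ∈ vx) (hla : lv a = i)
    (hP : P (atL lv vx i).card) {lam : ℕ} (hlam : lam + lamx ≤ c)
    (hkill : ∀ w ∈ G j' (nx, vx.val, {a}) Mx, κ ⁅w, tr σ u⁆ = 0) (b : ZMod p) (x : M)
    (hx : x ∈ vf nx vx lam a b) : κ ⁅tr σ x, tr σ u⁆ = 0 := by
  obtain ⟨S', hS'c, hS'⟩ := exists_S2 τ S b'
  have hidx : ((nx, vx.val, {a}) : Idx Lab) + (nu, vu.val, 0) = (n, v.val, {a}) := by
    rw [idx_add hd, hn, hv, add_zero]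
  have hmem : ∀ I b x, x ∈ F I b → ∀ g : Γ,
      ⁅x, σ g u⁆ ∈ F (I + (nu, vu.val, 0)) (b + ((τ g : (ZMod p)ˣ) : ZMod p) * b') := by
    intro I b x hx g
    exact D.lie _ _ _ _ _ _ hx ((D.actF _).map g b' u hu)
  have key := hL p M V Γ Lab lv pp c τ σ F pf vf G (κ.comp (rHom2 (tr σ u))) S' nx vx a lam
    hcard hpp D (hS'c.trans (by rw [hcard]; exact Nat.mul_le_mul le_rfl hS)) hsup ha hla hP hlam
    ?_ b x hx
  · exact key
  · refine ⟨?_, ?_, ?_⟩
    · intro I hI b x hx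
      rw [AddMonoidHom.comp_apply, rHom2_apply, lie_tr, map_sum]
      apply Finset.sum_eq_zero
      intro g _
      refine hK.comp _ ?_ _ _ (hmem I b x hx g)
      intro h0
      apply hI
      rw [← hidx] at h0
      exact add_right_cancel h0
    · intro b hb x hx
      rw [AddMonoidHom.comp_apply, rHom2_apply, lie_tr, map_sum]
      apply Finset.sum_eq_zero
      intro g _
      have h1 := hmem _ b x hx g
      rw [hidx] at h1
      exact hK.supp _ (hS' b hb g) _ h1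
    · intro x hx
      rw [AddMonoidHom.comp_apply, rHom2_apply]
      exact hkill x hx

/-- fix `w`, apply LAMBDA to `u` -/
theorem LD.stepU {h i' j N M₁ M₂ lam₂ : ℕ}
    (hL : Lam h i' j (N * M₁) M₂ lam₂ (fun _ => True))
    (hcard : Fintype.card Γ = h) (hpp : ∀ x, c < pp x)
    {n : ℕ} {v : Finset Lab} {a : Lab} {S : Finset (ZMod p)}
    (hS : S.card ≤ N) {κ : M →+ V} (hK : KD F G n v a S (j + 1) (M₁ * M₂) κ) {nx nu : ℕ}
    {vx vu : Finset Lab}
    (hd : Disjoint vx vu) (hn : nx + nu = n) (hv : vx ∪ vu = v)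
    (hi' : 1 ≤ i') (hsup : vu.sup lv = i') (hlam : lam₂ ≤ c)
    {w : M} (hw : w ∈ G j (nx, vx.val, {a}) M₁) (b' : ZMod p) (u : M)
    (hu : u ∈ pf nu vu b') : κ ⁅w, tr σ u⁆ = 0 := by
  have hidx : ((nx, vx.val, {a}) : Idx Lab) + (nu, vu.val, 0) = (n, v.val, {a}) := by
    rw [idx_add hd, hn, hv, add_zero]
  obtain ⟨l, hl, hlF, rfl⟩ := D.tsum _ _ _ w hw
  obtain ⟨S', hS'c, hS'⟩ := exists_S3 l S
  -- the anchor
  have hne : (atL lv vu i').Nonempty := by
    have h1 : vu.Nonempty := by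
      rw [Finset.nonempty_iff_ne_empty]
      rintro rfl
      simp at hsup
      omega
    obtain ⟨x, hx, hx'⟩ := Finset.exists_mem_eq_sup vu h1 lv
    exact ⟨x, Finset.mem_filter.mpr ⟨hx, by rw [← hx', hsup]⟩⟩
  obtain ⟨a', ha', hmax⟩ := Finset.exists_max_image (atL lv vu i') pp hne
  have ha'1 : a' ∈ vu := (Finset.mem_filter.mp ha').1
  have ha'2 : lv a' = i' := (Finset.mem_filter.mp ha').2
  rcases D.nu nu vu a' ha'1 (by rw [ha'2, hsup])
      (fun x hx hx' => hmax x (Finset.mem_filter.mpr ⟨hx, by rw [hx', ha'2]⟩)) with h0 | h0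
  · rw [h0 b' u hu]
    have : tr σ (0 : M) = 0 := by unfold tr; simp
    rw [this, lie_zero, map_zero]
  · obtain ⟨ν, n1, n2, n3, n4, n5⟩ := h0
    obtain ⟨u', hu', rfl⟩ := n4 b' u hu
    have hsumF : ∀ (l : List (ZMod p × M)), (∀ q ∈ l, q.2 ∈ F (nx, vx.val, {a}) q.1) →
        ∀ b, (∀ q ∈ l, q.1 + b ∉ S) → ∀ y ∈ F (nu, vu.val, 0) b,
          κ ⁅(l.map Prod.snd).sum, y⁆ = 0 := by
      intro l
      induction l with
      | nil => intro _ b _ y _; simp
      | cons q l ih =>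
        intro h1 b h2 y hy
        rw [List.map_cons, List.sum_cons, add_lie, map_add,
          ih (fun q' hq' => h1 q' (List.mem_cons_of_mem _ hq')) b
            (fun q' hq' => h2 q' (List.mem_cons_of_mem _ hq')) y hy, add_zero]
        have h3 := D.lie _ _ _ _ _ _ (h1 q List.mem_cons_self) hy
        rw [hidx] at h3
        exact hK.supp _ (h2 q List.mem_cons_self) _ h3
    have key := hL p M V Γ Lab lv pp c τ σ F pf vf G
      ((κ.comp (AddMonoidHom.mk' (fun y => ⁅(l.map Prod.snd).sum, y⁆)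
        (fun y y' => lie_add _ y y'))).comp ν) S' nu vu a' 0 hcard hpp D
      (hS'c.trans (Nat.mul_le_mul hS hl)) hsup ha'1 ha'2 trivial (by omega) ?_ b' u' hu'
    · have e : tr σ (ν u') = ν (tr σ u') := by
        unfold tr
        rw [map_sum]
        exact Finset.sum_congr rfl (fun g _ => (n3 g u').symm)
      rw [e]
      exact key
    · refine ⟨?_, ?_, ?_⟩
      · intro I hI b x hx
        change κ ⁅(l.map Prod.snd).sum, ν x⁆ = 0
        rw [n1 I hI b x hx, lie_zero, map_zero]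
      · intro b hb x hx
        change κ ⁅(l.map Prod.snd).sum, ν x⁆ = 0
        exact hsumF l hlF b (hS' b hb) _ (n2 b x hx)
      · intro x hx
        change κ ⁅(l.map Prod.snd).sum, ν x⁆ = 0
        have h1 := D.t1 _ _ _ _ _ _ hw _ (n5 _ _ x hx)
        rw [hidx] at h1
        exact hK.kill _ h1

/-- `j = 0`: the trace of `u` is a test element -/
theorem LD.stepU0 {h M₁ : ℕ} (hcard : Fintype.card Γ = h)
    {n : ℕ} {v : Finset Lab} {a : Lab} {S : Finset (ZMod p)}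
    {κ : M →+ V} (hK : KD F G n v a S 1 (M₁ * h) κ) {nx nu : ℕ} {vx vu : Finset Lab}
    (hd : Disjoint vx vu) (hn : nx + nu = n) (hv : vx ∪ vu = v)
    {w : M} (hw : w ∈ G 0 (nx, vx.val, {a}) M₁) (b' : ZMod p) (u : M)
    (hu : u ∈ pf nu vu b') : κ ⁅w, tr σ u⁆ = 0 := by
  have hidx : ((nx, vx.val, {a}) : Idx Lab) + (nu, vu.val, 0) = (n, v.val, {a}) := by
    rw [idx_add hd, hn, hv, add_zero]
  have h2 := D.t0 _ _ u (D.pfF nu vu b' hu)
  rw [hcard] at h2
  have h1 := D.t1 _ _ _ _ _ _ hw _ h2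
  rw [hidx] at h1
  exact hK.kill _ h1

end steps

end Pool.Agent.DLB
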